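import Pool.Agent.H364R2.Mult

open MvPolynomial

namespace Pool.Agent.H364R2

variable {σ : Type} (add : σ → Bool) {l : ℕ} (W : Fin l → σ → ℂ)

/-- product of a list of group elements -/
def prodG (gs : List (σ → ℂ)) : σ → ℂ := gs.foldr (gmul add) (gone add)

/-- the space generated by the translated derivatives of `F` -/
noncomputable def SS (Γ₁ : Finset (σ → ℂ)) (T : ℕ) (F : MvPolynomial σ ℂ) (r : ℕ) :
    Submodule ℂ (MvPolynomial σ ℂ) :=
  Submodule.span ℂ {h | ∃ (ks : List (Fin l)) (gs : List (σ → ℂ)), ks.length ≤ r * T ∧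
    gs.length ≤ r ∧ (∀ g ∈ gs, g ∈ Γ₁) ∧ h = tr add (prodG add gs) (derIter add W ks F)}

variable (Γ₁ : Finset (σ → ℂ)) (T : ℕ) (F : MvPolynomial σ ℂ)

lemma F_mem_SS : F ∈ SS add W Γ₁ T F 0 := by
  apply Submodule.subset_span
  refine ⟨[], [], by simp, by simp, by simp, ?_⟩
  change F = tr add (gone add) F
  rw [tr_gone]

lemma SS_mono (r : ℕ) : SS add W Γ₁ T F r ≤ SS add W Γ₁ T F (r + 1) := by
  apply Submodule.span_mono
  rintro _ ⟨ks, gs, h1, h2, h3, rfl⟩
  exact ⟨ks, gs, h1.trans (Nat.mul_le_mul_right _ (Nat.le_succ r)), h2.trans (Nat.le_succ r), h3,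
    rfl⟩

lemma derIter_tr_mem_SS {r : ℕ} {h : MvPolynomial σ ℂ} (hh : h ∈ SS add W Γ₁ T F r)
    {g : σ → ℂ} (hg : g ∈ Γ₁) {ks : List (Fin l)} (hks : ks.length ≤ T) :
    derIter add W ks (tr add g h) ∈ SS add W Γ₁ T F (r + 1) := by
  refine Submodule.span_induction (hx := hh) ?_ ?_ ?_ ?_
  · rintro _ ⟨ks', gs, h1, h2, h3, rfl⟩
    apply Submodule.subset_span
    refine ⟨ks ++ ks', g :: gs, ?_, ?_, ?_, ?_⟩
    · rw [List.length_append, add_mul, one_mul]; omega
    · rw [List.length_cons]; omega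
    · intro g' hg'
      rcases List.mem_cons.mp hg' with rfl | hg'
      · exact hg
      · exact h3 g' hg'
    · rw [derIter_tr, derIter_tr, ← derIter_append, tr_tr]
      rfl
  · rw [map_zero, derIter_zero]
    exact Submodule.zero_mem _
  · intro x y _ _ hx hy
    rw [map_add, derIter_add]
    exact Submodule.add_mem _ hx hy
  · intro c x _ hx
    rw [map_smul, derIter_smul]
    exact Submodule.smul_mem _ _ hx

lemma SS_le_box {L : σ → ℕ} (hF : F ∈ box ℂ L 1) (r : ℕ) :
    ∀ h ∈ SS add W Γ₁ T F r, h ∈ box ℂ L 1 := by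
  classical
  intro h hh
  refine Submodule.span_le.mpr ?_ hh
  rintro _ ⟨ks, gs, -, -, -, rfl⟩
  exact tr_mem_box add _ (derIter_mem_box add W ks hF)

/-- the maximal ideal of the neutral element -/
noncomputable def mone : Ideal (MvPolynomial σ ℂ) := RingHom.ker (eval (gone add))

lemma gprime_mone : GPrime add (mone add) := by
  refine ⟨RingHom.ker_isPrime _, fun j hj h => ?_⟩
  rw [mone, RingHom.mem_ker, eval_X] at h
  simp [gone, hj] at h

lemma indep_empty {P : Ideal (MvPolynomial σ ℂ)} (hP : P ≠ ⊤) : Indep P ∅ := by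
  intro f hf hfP
  rw [supported_empty] at hf
  obtain ⟨a, rfl⟩ := hf
  by_contra h0
  have ha : a ≠ 0 := by rintro rfl; exact h0 (by simp)
  apply hP
  exact Ideal.eq_top_of_isUnit_mem P hfP ((isUnit_iff_ne_zero.mpr ha).map _)

/-- there is a `G`-prime containing `SS r` with an independent set of size `n` -/
def HasB (r n : ℕ) : Prop := ∃ (Q : Ideal (MvPolynomial σ ℂ)) (B : Finset σ), GPrime add Q ∧
  (∀ f ∈ SS add W Γ₁ T F r, f ∈ Q) ∧ Indep Q (B : Set σ) ∧ B.card = n

lemma derIter_map {l' : ℕ} (e : Fin l' → Fin l) (ks : List (Fin l')) (f : MvPolynomial σ ℂ) :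
    derIter add (fun k => W (e k)) ks f = derIter add W (ks.map e) f := by
  induction ks with
  | nil => rfl
  | cons k ks ih =>
    change der add (W (e k)) (derIter add (fun k => W (e k)) ks f) = _
    rw [ih]
    rfl

/-- **abstract zero estimate** -/
theorem zero_estimate_abs [Fintype σ] [DecidableEq σ] (L : σ → ℕ) (hL : ∀ j, 1 ≤ L j)
    (hΓ : ∀ g ∈ Γ₁, IsG add g) (hF0 : F ≠ 0) (hF : F ∈ box ℂ L 1)
    (hvan : ∀ (ks : List (Fin l)) (gs : List (σ → ℂ)), ks.length ≤ Fintype.card σ * T →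
      gs.length ≤ Fintype.card σ → (∀ g ∈ gs, g ∈ Γ₁) →
      eval (prodG add gs) (derIter add W ks F) = 0) :
    ∃ (P : Ideal (MvPolynomial σ ℂ)) (β : ℕ), GPrime add P ∧ β < Fintype.card σ ∧
      (∃ B : Finset σ, B.card = β ∧ Indep P (B : Set σ)) ∧
      (∀ B : Finset σ, Indep P (B : Set σ) → B.card ≤ β) ∧
      (∀ B : Finset σ, B.card = β → Indep P (B : Set σ) →
        ∀ Δ : Finset (σ → ℂ), Δ ⊆ Γ₁ →
        (∀ g ∈ Δ, ∀ g' ∈ Δ, trI add g P = trI add g' P → g = g') →
        ∀ (l' : ℕ) (e : Fin l' → Fin l) (f : Fin l' → MvPolynomial σ ℂ), (∀ k, f k ∈ P) →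
        (∀ k, der add (W (e k)) (f k) ∉ P) →
        (∀ k k', k ≠ k' → der add (W (e k)) (f k') ∈ P) →
        Δ.card * (T / l' + 1) ^ l' ≤
          2 ^ ((Fintype.card σ - β + 1) * (Fintype.card σ - β)) * ∏ j ∈ Finset.univ \ B, L j) := by
  classical
  set d := Fintype.card σ with hd
  let dd : ℕ → ℕ := fun r => Nat.findGreatest (HasB add W Γ₁ T F r) d
  have hle : ∀ r n, HasB add W Γ₁ T F r n → n ≤ d := by
    rintro r n ⟨Q, B, -, -, -, rfl⟩
    exact Finset.card_le_univ B
  have hgreat : ∀ r n, HasB add W Γ₁ T F r n → n ≤ dd r := fun r n h =>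
    Nat.le_findGreatest (hle r n h) h
  -- vanishing at the neutral element
  have hone : ∀ r ≤ d, ∀ f ∈ SS add W Γ₁ T F r, f ∈ mone add := by
    intro r hr f hf
    refine (Submodule.span_le (p := (mone add).restrictScalars ℂ)).mpr ?_ hf
    rintro _ ⟨ks, gs, h1, h2, h3, rfl⟩
    change _ ∈ mone add
    rw [mone, RingHom.mem_ker, eval_tr, gone_gmul]
    exact hvan ks gs (h1.trans (Nat.mul_le_mul_right _ hr)) (h2.trans hr) h3
  have hzero : ∀ r ≤ d, HasB add W Γ₁ T F r 0 := fun r hr =>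
    ⟨mone add, ∅, gprime_mone add, hone r hr, by
      rw [Finset.coe_empty]; exact indep_empty (gprime_mone add).1.ne_top, rfl⟩
  have hspec : ∀ r ≤ d, HasB add W Γ₁ T F r (dd r) := fun r hr =>
    Nat.findGreatest_spec (Nat.zero_le d) (hzero r hr)
  have hanti : ∀ r, r + 1 ≤ d → dd (r + 1) ≤ dd r := by
    intro r hr
    apply hgreat
    obtain ⟨Q, B, h1, h2, h3, h4⟩ := hspec (r + 1) hr
    exact ⟨Q, B, h1, fun f hf => h2 f (SS_mono add W Γ₁ T F r hf), h3, h4⟩
  have h0 : dd 0 < d := by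
    obtain ⟨Q, B, h1, h2, h3, h4⟩ := hspec 0 (Nat.zero_le _)
    rw [← h4]
    refine lt_of_le_of_ne (Finset.card_le_univ B) (fun h => hF0 ?_)
    have hB : B = Finset.univ := (Finset.card_eq_iff_eq_univ B).mp h
    apply h3 F _ (h2 F (F_mem_SS add W Γ₁ T F))
    rw [hB, Finset.coe_univ, supported_univ]
    trivial
  obtain ⟨r, hr, hrr⟩ : ∃ r < d, dd r = dd (r + 1) := by
    by_contra hcon
    push Not at hcon
    have : ∀ r ≤ d, dd r + r ≤ dd 0 := by
      intro r
      induction r with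
      | zero => intro _; exact le_rfl
      | succ r ih =>
        intro hr
        have h1 := ih (by omega)
        have h2 := hanti r hr
        have h3 := hcon r (by omega)
        omega
    have := this d le_rfl
    omega
  obtain ⟨P, B0, hP, hPS, hB0, hB0c⟩ := hspec (r + 1) hr
  refine ⟨P, dd (r + 1), hP, ?_, ⟨B0, hB0c, hB0⟩, ?_, ?_⟩
  · have : ∀ s ≤ d, dd s ≤ dd 0 := by
      intro s
      induction s with
      | zero => intro _; exact le_rfl
      | succ s ih => intro hs; exact (hanti s hs).trans (ih (by omega))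
    exact lt_of_le_of_lt (this (r + 1) hr) h0
  · intro B hB
    apply hgreat
    exact ⟨P, B, hP, hPS, hB, rfl⟩
  · intro B hBc hB Δ hΔ hdist l' e f hf hf1 hf2
    have hcard1 : Fintype.card {j // j ∉ (B : Set σ)} = d - dd (r + 1) := by
      rw [← hBc, hd]
      have : Fintype.card {j // j ∉ (B : Set σ)} = Fintype.card {j // ¬ (j ∈ B)} :=
        Fintype.card_congr (Equiv.refl _)
      rw [this, Fintype.card_subtype_compl, Fintype.card_coe]
    have hprod : ∏ j : {j // j ∉ (B : Set σ)}, L j.1 = ∏ j ∈ Finset.univ \ B, L j := by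
      symm
      refine Finset.prod_subtype _ ?_ L
      intro x
      simp
    rw [← hcard1, ← hprod]
    have hmain := mult_bound (Γ := Δ) add (fun k => W (e k)) (B : Set σ) L hL
      (SS add W Γ₁ T F r) (SS_le_box add W Γ₁ T F hF r) (by
        intro Q hQ hSQ hQB j hj hjB
        have h1 : HasB add W Γ₁ T F r (dd (r + 1) + 1) := by
          refine ⟨Q, insert j B, hQ, hSQ, by rw [Finset.coe_insert]; exact hjB, ?_⟩
          rw [Finset.card_insert_of_notMem (by simpa using hj), hBc]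
        have := hgreat r _ h1
        omega)
      (fun γ => trI add γ.1 P) (fun γ => hP.trI add γ.1 (hΓ _ (hΔ γ.2)))
      (fun γ => hB.trI add γ.1 (hΓ _ (hΔ γ.2)))
      (by
        intro γ γ' h
        exact Subtype.ext (hdist γ.1 γ.2 γ'.1 γ'.2 h)) T
      (by
        intro γ h hh
        apply mem_V_of_derIter
        intro ks hks
        rw [mem_trI, ← derIter_tr, derIter_map]
        exact hPS _ (derIter_tr_mem_SS add W Γ₁ T F hh (hΔ γ.2) (by simpa using hks)))
      (fun γ k => tr add (ginv add γ.1) (f k))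
      (by
        intro γ k
        rw [mem_trI, tr_tr_ginv add (hΓ _ (hΔ γ.2))]
        exact hf k)
      (by
        intro γ k
        rw [mem_trI, ← der_tr, tr_tr_ginv add (hΓ _ (hΔ γ.2))]
        exact hf1 k)
      (by
        intro γ k k' hk
        rw [mem_trI, ← der_tr, tr_tr_ginv add (hΓ _ (hΔ γ.2))]
        exact hf2 k k' hk)
    rw [Fintype.card_coe] at hmain
    exact hmain

end Pool.Agent.H364R2
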