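import Mathlib

open MvPolynomial Module

namespace Pool.Agent.H364R2

section Box

variable (K : Type*) [Field K] {ι : Type*} [Fintype ι] [DecidableEq ι]

/-- exponents in the box -/
def boxSet (L : ι → ℕ) (n : ℕ) : Set (ι →₀ ℕ) := {m | ∀ j, m j ≤ n * L j}

/-- polynomials whose `j`-degree is at most `n * L j` -/
noncomputable def box (L : ι → ℕ) (n : ℕ) : Submodule K (MvPolynomial ι K) :=
  restrictSupport K (boxSet L n)

omit [Fintype ι] [DecidableEq ι] in
lemma mem_box {L : ι → ℕ} {n : ℕ} {p : MvPolynomial ι K} :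
    p ∈ box K L n ↔ ∀ m ∈ p.support, ∀ j, m j ≤ n * L j := by
  unfold box boxSet
  rw [mem_restrictSupport_iff]
  constructor
  · intro h m hm; exact h hm
  · intro h m hm; exact h m hm

lemma card_boxSet (L : ι → ℕ) (n : ℕ) : Nat.card (boxSet L n) = ∏ j, (n * L j + 1) := by
  have e : boxSet L n ≃ {f : ι → ℕ // f ∈ Fintype.piFinset (fun j => Finset.range (n * L j + 1))} :=
    { toFun := fun m => ⟨fun j => m.1 j, by
        rw [Fintype.mem_piFinset]; intro j; rw [Finset.mem_range]; exact Nat.lt_succ_of_le (m.2 j)⟩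
      invFun := fun f => ⟨Finsupp.equivFunOnFinite.symm f.1, by
        intro j
        have := f.2
        rw [Fintype.mem_piFinset] at this
        have := this j
        rw [Finset.mem_range] at this
        simpa using Nat.le_of_lt_succ this⟩
      left_inv := fun m => by
        apply Subtype.ext
        ext j
        simp
      right_inv := fun f => by
        apply Subtype.ext
        ext j
        simp }
  rw [Nat.card_congr e, Nat.card_eq_fintype_card, Fintype.card_coe, Fintype.card_piFinset]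
  simp

instance finite_boxSet (L : ι → ℕ) (n : ℕ) : Finite (boxSet L n) := by
  apply Nat.finite_of_card_ne_zero
  rw [card_boxSet]
  exact Finset.prod_ne_zero_iff.mpr (fun j _ => by omega)

lemma finrank_box (L : ι → ℕ) (n : ℕ) : finrank K (box K L n) = ∏ j, (n * L j + 1) := by
  rw [← card_boxSet L n]
  exact Module.finrank_eq_nat_card_basis (basisRestrictSupport K (boxSet L n))

instance finite_box (L : ι → ℕ) (n : ℕ) : Module.Finite K (box K L n) :=
  Module.Finite.of_basis (basisRestrictSupport K (boxSet L n))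

omit [Fintype ι] [DecidableEq ι] in
lemma box_mono (L : ι → ℕ) {m n : ℕ} (h : m ≤ n) : box K L m ≤ box K L n := by
  intro p hp
  rw [mem_box] at hp ⊢
  intro a ha j
  exact (hp a ha j).trans (Nat.mul_le_mul_right _ h)

omit [Fintype ι] in
lemma mul_mem_box (L : ι → ℕ) {m n : ℕ} {p q : MvPolynomial ι K} (hp : p ∈ box K L m)
    (hq : q ∈ box K L n) : p * q ∈ box K L (m + n) := by
  rw [mem_box] at hp hq ⊢
  intro a ha j
  have := support_mul p q ha
  rw [Finset.mem_add] at this
  obtain ⟨b, hb, c, hc, rfl⟩ := this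
  rw [Finsupp.add_apply, add_mul]
  exact add_le_add (hp b hb j) (hq c hc j)

lemma exists_mem_box (L : ι → ℕ) (hL : ∀ j, 1 ≤ L j) (p : MvPolynomial ι K) :
    ∃ n, 1 ≤ n ∧ p ∈ box K L n := by
  refine ⟨p.totalDegree + 1, by omega, ?_⟩
  rw [mem_box]
  intro m hm j
  have h1 : m j ≤ p.totalDegree := by
    have h2 := le_totalDegree hm
    have h3 : m j ≤ m.sum fun _ e => e := by
      rw [Finsupp.sum_fintype _ _ (fun _ => rfl)]
      exact Finset.single_le_sum (f := fun i => m i) (fun i _ => Nat.zero_le _) (Finset.mem_univ j)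
    exact h3.trans h2
  calc m j ≤ p.totalDegree + 1 := by omega
    _ = (p.totalDegree + 1) * 1 := by ring
    _ ≤ _ := Nat.mul_le_mul_left _ (hL j)

/-- image of the box in the quotient -/
noncomputable def WW (L : ι → ℕ) (J : Ideal (MvPolynomial ι K)) (n : ℕ) :
    Submodule K (MvPolynomial ι K ⧸ J) :=
  (box K L n).map (Ideal.Quotient.mkₐ K J).toLinearMap

/-- the box Hilbert function -/
noncomputable def hb (L : ι → ℕ) (J : Ideal (MvPolynomial ι K)) (n : ℕ) : ℕ :=
  finrank K (WW K L J n)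

instance finite_WW (L : ι → ℕ) (J : Ideal (MvPolynomial ι K)) (n : ℕ) :
    Module.Finite K (WW K L J n) := by
  unfold WW; infer_instance

lemma WW_mono (L : ι → ℕ) (J : Ideal (MvPolynomial ι K)) {m n : ℕ} (h : m ≤ n) :
    WW K L J m ≤ WW K L J n := Submodule.map_mono (box_mono K L h)

lemma hb_mono (L : ι → ℕ) (J : Ideal (MvPolynomial ι K)) {m n : ℕ} (h : m ≤ n) :
    hb K L J m ≤ hb K L J n := Submodule.finrank_mono (WW_mono K L J h)

lemma hb_le (L : ι → ℕ) (J : Ideal (MvPolynomial ι K)) (n : ℕ) :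
    hb K L J n ≤ ∏ j, (n * L j + 1) := by
  rw [← finrank_box K L n]
  exact Submodule.finrank_map_le _ _

lemma finrank_map_add {V W : Type*} [AddCommGroup V] [Module K V] [AddCommGroup W] [Module K W]
    (f : V →ₗ[K] W) (S T : Submodule K V) [Module.Finite K S] (hT : T ≤ S)
    (hT' : T ≤ LinearMap.ker f) : finrank K (S.map f) + finrank K T ≤ finrank K S := by
  have h1 := LinearMap.finrank_range_add_finrank_ker (f.domRestrict S)
  have h2 : LinearMap.range (f.domRestrict S) = S.map f := by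
    ext w
    simp only [LinearMap.mem_range, Submodule.mem_map]
    constructor
    · rintro ⟨⟨v, hv⟩, rfl⟩; exact ⟨v, hv, rfl⟩
    · rintro ⟨v, hv, rfl⟩; exact ⟨⟨v, hv⟩, rfl⟩
  rw [h2] at h1
  have h3 : finrank K T ≤ finrank K (LinearMap.ker (f.domRestrict S)) := by
    have h4 : finrank K T = finrank K (T.comap S.subtype) := by
      rw [← Submodule.finrank_map_subtype_eq S (T.comap S.subtype), Submodule.map_comap_subtype,
        inf_eq_right.mpr hT]
    rw [h4]
    apply Submodule.finrank_mono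
    intro v hv
    rw [LinearMap.mem_ker]
    exact hT' hv
  omega

lemma hb_step (L : ι → ℕ) {J J' : Ideal (MvPolynomial ι K)} (hJ : J ≤ J')
    {f : MvPolynomial ι K} (hf : f ∈ J') (hfb : f ∈ box K L 1)
    (hreg : ∀ g, f * g ∈ J → g ∈ J) (n : ℕ) :
    hb K L J' (n + 1) + hb K L J n ≤ hb K L J (n + 1) := by
  classical
  let R := MvPolynomial ι K
  let π : (R ⧸ J) →ₗ[K] (R ⧸ J') := (Ideal.Quotient.factorₐ K hJ).toLinearMap
  let μ : (R ⧸ J) →ₗ[K] (R ⧸ J) := LinearMap.mulLeft K (Ideal.Quotient.mk J f)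
  have hμ : Function.Injective μ := by
    rw [← LinearMap.ker_eq_bot, LinearMap.ker_eq_bot']
    intro g hg
    obtain ⟨g, rfl⟩ := Ideal.Quotient.mk_surjective g
    have : Ideal.Quotient.mk J (f * g) = 0 := by rw [map_mul]; exact hg
    rw [Ideal.Quotient.eq_zero_iff_mem] at this ⊢
    exact hreg g this
  have e1 : (WW K L J (n + 1)).map π = WW K L J' (n + 1) := by
    unfold WW
    rw [← Submodule.map_comp]
    congr 1
  have e2 : finrank K ((WW K L J n).map μ) = hb K L J n :=
    (LinearEquiv.finrank_eq (Submodule.equivMapOfInjective μ hμ (WW K L J n))).symm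
  have := finrank_map_add K π (WW K L J (n + 1)) ((WW K L J n).map μ) ?_ ?_
  · rw [e1, e2] at this
    exact this
  · rintro _ ⟨_, ⟨g, hg, rfl⟩, rfl⟩
    refine ⟨f * g, ?_, ?_⟩
    · have := mul_mem_box K L hfb hg
      rwa [add_comm] at this
    · change Ideal.Quotient.mk J (f * g) = Ideal.Quotient.mk J f * Ideal.Quotient.mk J g
      rw [map_mul]
  · rintro _ ⟨_, ⟨g, hg, rfl⟩, rfl⟩
    rw [LinearMap.mem_ker]
    change Ideal.Quotient.mk J' (f * g) = 0
    rw [Ideal.Quotient.eq_zero_iff_mem]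
    exact J'.mul_mem_right _ hf

lemma hb_double (L : ι → ℕ) {J J' : Ideal (MvPolynomial ι K)} (hJ : J ≤ J')
    {f : MvPolynomial ι K} (hf : f ∈ J') (hfb : f ∈ box K L 1)
    (hreg : ∀ g, f * g ∈ J → g ∈ J) (n : ℕ) :
    n * hb K L J' n ≤ hb K L J (2 * n) := by
  have key : ∀ k, k * hb K L J' n + hb K L J n ≤ hb K L J (n + k) := by
    intro k
    induction k with
    | zero => simp
    | succ k ih =>
      have h1 := hb_step K L hJ hf hfb hreg (n + k)
      have h2 : hb K L J' n ≤ hb K L J' (n + k + 1) := hb_mono K L J' (by omega)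
      have h3 : (k + 1) * hb K L J' n = k * hb K L J' n + hb K L J' n := by ring
      rw [h3, ← add_assoc n k 1]
      omega
  have := key n
  rw [← two_mul] at this
  omega

/-- Bezout type bound for the box Hilbert function. -/
theorem hb_chain (L : ι → ℕ) (h : ℕ) (J : ℕ → Ideal (MvPolynomial ι K))
    (f : ℕ → MvPolynomial ι K) (hmono : ∀ i < h, J i ≤ J (i + 1))
    (hf : ∀ i < h, f i ∈ J (i + 1)) (hfb : ∀ i < h, f i ∈ box K L 1)
    (hreg : ∀ i < h, ∀ g, f i * g ∈ J i → g ∈ J i) (n : ℕ) :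
    ∀ i ≤ h, n ^ i * hb K L (J i) n ≤ hb K L (J 0) (2 ^ i * n) := by
  intro i
  induction i generalizing n with
  | zero => intro _; simp
  | succ i ih =>
    intro hi
    have h1 := hb_double K L (hmono i (by omega)) (hf i (by omega)) (hfb i (by omega))
      (hreg i (by omega)) n
    calc n ^ (i + 1) * hb K L (J (i + 1)) n = n ^ i * (n * hb K L (J (i + 1)) n) := by ring
      _ ≤ n ^ i * hb K L (J i) (2 * n) := Nat.mul_le_mul_left _ h1
      _ ≤ (2 * n) ^ i * hb K L (J i) (2 * n) :=
          Nat.mul_le_mul_right _ (Nat.pow_le_pow_left (by omega) i)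
      _ ≤ hb K L (J 0) (2 ^ i * (2 * n)) := ih (2 * n) (by omega)
      _ = hb K L (J 0) (2 ^ (i + 1) * n) := by congr 1; ring

theorem bezout_box (L : ι → ℕ) (hL : ∀ j, 1 ≤ L j) (J : ℕ → Ideal (MvPolynomial ι K))
    (f : ℕ → MvPolynomial ι K) (hmono : ∀ i < Fintype.card ι, J i ≤ J (i + 1))
    (hf : ∀ i < Fintype.card ι, f i ∈ J (i + 1))
    (hfb : ∀ i < Fintype.card ι, f i ∈ box K L 1)
    (hreg : ∀ i < Fintype.card ι, ∀ g, f i * g ∈ J i → g ∈ J i)
    {κ : Type*} [Fintype κ] (u : κ → MvPolynomial ι K)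
    (hu : LinearIndependent K (fun k => Ideal.Quotient.mk (J (Fintype.card ι)) (u k))) :
    Fintype.card κ ≤ 2 ^ ((Fintype.card ι + 1) * Fintype.card ι) * ∏ j, L j := by
  classical
  set h := Fintype.card ι with hh
  -- choose n
  choose N hN1 hN2 using fun k => exists_mem_box K L hL (u k)
  set n : ℕ := (∑ k, N k) + 1 with hn
  have hnk : ∀ k, u k ∈ box K L n := fun k =>
    box_mono K L ((Finset.single_le_sum (fun i _ => Nat.zero_le _) (Finset.mem_univ k)).trans
      (Nat.le_succ _)) (hN2 k)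
  have h1 : Fintype.card κ ≤ hb K L (J h) n := by
    have hmem : ∀ k, Ideal.Quotient.mk (J h) (u k) ∈ WW K L (J h) n := fun k =>
      ⟨u k, hnk k, rfl⟩
    have hu' : LinearIndependent K (fun k => (⟨_, hmem k⟩ : WW K L (J h) n)) := by
      apply LinearIndependent.of_comp (WW K L (J h) n).subtype
      exact hu
    exact hu'.fintype_card_le_finrank
  have h2 := hb_chain K L h J f hmono hf hfb hreg n h le_rfl
  have h3 := hb_le K L (J 0) (2 ^ h * n)
  have h4 : ∏ j, (2 ^ h * n * L j + 1) ≤ ∏ j : ι, (2 ^ (h + 1) * n * L j) := by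
    apply Finset.prod_le_prod' 
    intro j _
    have : 1 ≤ 2 ^ h * n * L j := by
      have := hL j
      have h5 : 1 ≤ 2 ^ h := Nat.one_le_two_pow
      have h6 : 1 ≤ n := by omega
      exact Nat.one_le_iff_ne_zero.mpr (by positivity)
    calc 2 ^ h * n * L j + 1 ≤ 2 ^ h * n * L j + 2 ^ h * n * L j := by omega
      _ = _ := by ring
  have h5 : ∏ j : ι, (2 ^ (h + 1) * n * L j) = (2 ^ ((h + 1) * h) * ∏ j, L j) * n ^ h := by
    rw [Finset.prod_mul_distrib, Finset.prod_const, Finset.card_univ, ← hh, mul_pow, ← pow_mul]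
    ring
  have h6 : n ^ h * hb K L (J h) n ≤ n ^ h * (2 ^ ((h + 1) * h) * ∏ j, L j) := by
    calc _ ≤ _ := h2
      _ ≤ _ := h3
      _ ≤ _ := h4
      _ = _ := h5
      _ = _ := by ring
  have h7 : 0 < n ^ h := pow_pos (by omega) h
  exact h1.trans (Nat.le_of_mul_le_mul_left h6 h7)

end Box

end Pool.Agent.H364R2
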