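import Mathlib

open IsLocalRing RingTheory.Sequence Submodule MvPolynomial
open scoped Pointwise

namespace Pool.Agent.H364R2

universe u v

/-- weakly regular sequences on the ring itself -/
def WR (R : Type*) [CommRing R] (rs : List R) : Prop := IsWeaklyRegular R rs

lemma WR_nil (R : Type*) [CommRing R] : WR R [] := IsWeaklyRegular.nil R R

lemma WR_cons_of_surjective {R1 R2 : Type*} [CommRing R1] [CommRing R2]
    (φ : R1 →+* R2) (hφ : Function.Surjective φ) (c : R1)
    (hker : ∀ a, φ a = 0 ↔ c ∣ a) (hc : ∀ a b : R1, c * a = c * b → a = b) (rs : List R1)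
    (h : WR R2 (rs.map φ)) : WR R1 (c :: rs) := by
  unfold WR at h ⊢
  rw [isWeaklyRegular_cons_iff]
  refine ⟨fun a b hab => hc a b hab, ?_⟩
  have hct : (c • (⊤ : Submodule R1 R1)) = (RingHom.ker φ : Submodule R1 R1) := by
    ext a
    rw [Submodule.mem_smul_pointwise_iff_exists, RingHom.mem_ker, hker]
    constructor
    · rintro ⟨b, -, rfl⟩; exact ⟨b, rfl⟩
    · rintro ⟨b, rfl⟩; exact ⟨b, trivial, rfl⟩
  let e : QuotSMulTop c R1 ≃+ R2 :=
    (Submodule.quotEquivOfEq _ _ hct).toAddEquiv.trans
      (RingHom.quotientKerEquivOfSurjective hφ).toAddEquiv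
  have he : ∀ a : R1, e (Submodule.Quotient.mk a) = φ a := fun a => rfl
  have hl : List.Forall₂ (fun (r : R1) (s : R2) => ∀ x : QuotSMulTop c R1, e (r • x) = s • e x)
      rs (rs.map φ) := by
    rw [List.forall₂_map_right_iff, List.forall₂_same]
    intro r _ x
    obtain ⟨a, rfl⟩ := Submodule.Quotient.mk_surjective _ x
    rw [← Submodule.Quotient.mk_smul, he, he, smul_eq_mul, smul_eq_mul, map_mul]
  exact (AddEquiv.isWeaklyRegular_congr hl).mpr h

lemma WR_of_ringEquiv {R1 R2 : Type*} [CommRing R1] [CommRing R2] (e : R1 ≃+* R2)
    (rs : List R1) (h : WR R2 (rs.map e)) : WR R1 rs := by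
  have hl : List.Forall₂ (fun (r : R1) (s : R2) => ∀ x : R1, e.toAddEquiv (r • x) = s • e.toAddEquiv x)
      rs (rs.map e) := by
    rw [List.forall₂_map_right_iff, List.forall₂_same]
    intro r _ x
    simp
  exact (AddEquiv.isWeaklyRegular_congr hl).mpr h

lemma C_mul_inj_of_monic {σ : Type*} {B : Type*} [CommRing B] {g : Polynomial B}
    (hg : g.Monic) (p q : MvPolynomial σ (Polynomial B)) (hpq : C g * p = C g * q) : p = q := by
  ext1 m
  have := congrArg (coeff m) hpq
  simp only [coeff_C_mul] at this
  exact hg.isRegular.left this

/-- the univariate monic polynomials in distinct variables form a weakly regular sequence -/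
def UniP (ι : Type v) : Prop :=
  ∀ (B : Type u) [CommRing B] (g : ι → Polynomial B), (∀ i, (g i).Monic) →
    ∃ l : List ι, l.length = Nat.card ι ∧
      WR (MvPolynomial ι B)
        (l.map fun i => Polynomial.aeval (X i : MvPolynomial ι B) (g i))

theorem uniP (ι : Type v) [Finite ι] : UniP.{u, v} ι := by
  induction ι using Finite.induction_empty_option with
  | of_equiv e H =>
    rename_i α β
    intro B _ g hg
    obtain ⟨l, hl, hr⟩ := H B (fun i => g (e i)) (fun i => hg _)
    refine ⟨l.map e, by rw [List.length_map, hl]; exact Nat.card_congr e, ?_⟩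
    apply WR_of_ringEquiv (renameEquiv B e.symm).toRingEquiv
    rw [List.map_map, List.map_map]
    have : (fun i => Polynomial.aeval (X i : MvPolynomial α B) (g (e i))) =
      ((renameEquiv B e.symm).toRingEquiv ∘ fun i => Polynomial.aeval (X i : MvPolynomial β B) (g i)) ∘ e := by
      funext i
      simp only [Function.comp_apply]
      change _ = (renameEquiv B e.symm) (Polynomial.aeval (X (e i)) (g (e i)))
      rw [← Polynomial.aeval_algHom_apply]
      simp
    rw [← this]
    exact hr
  | h_empty =>
    intro B _ g hg
    exact ⟨[], by simp, WR_nil _⟩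
  | h_option IH =>
    rename_i α _
    intro B _ g hg
    -- the quotient by `g none`
    let B' := Polynomial B ⧸ Ideal.span {g none}
    let q : Polynomial B →+* B' := Ideal.Quotient.mk _
    obtain ⟨l, hl, hr⟩ := IH B' (fun i => (g (some i)).map (q.comp Polynomial.C))
      (fun i => (hg _).map _)
    refine ⟨none :: l.map some, by simp [hl], ?_⟩
    rw [List.map_cons, List.map_map]
    -- the surjection
    let φ : MvPolynomial (Option α) B →+* MvPolynomial α B' :=
      (MvPolynomial.map q).comp (optionEquivRight B α).toRingEquiv.toRingHom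
    have h1 : (optionEquivRight B α) (Polynomial.aeval (X none) (g none)) = C (g none) := by
      rw [← Polynomial.aeval_algHom_apply, optionEquivRight_X_none]
      have : (C Polynomial.X : MvPolynomial α (Polynomial B)) =
        algebraMap (Polynomial B) (MvPolynomial α (Polynomial B)) Polynomial.X := rfl
      rw [this, Polynomial.aeval_algebraMap_apply, Polynomial.aeval_X_left_apply]
      rfl
    refine WR_cons_of_surjective (R1 := MvPolynomial (Option α) B) (R2 := MvPolynomial α B')
      φ ?_ _ ?_ ?_ _ ?_
    · exact (MvPolynomial.map_surjective _ Ideal.Quotient.mk_surjective).comp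
        (optionEquivRight B α).surjective
    · have hk : RingHom.ker (MvPolynomial.map q : MvPolynomial α (Polynomial B) →+* _) =
          Ideal.span {C (g none)} := by
        rw [MvPolynomial.ker_map, Ideal.mk_ker, Ideal.map_span, Set.image_singleton]
      intro a
      change (MvPolynomial.map q) ((optionEquivRight B α) a) = 0 ↔ _
      rw [← RingHom.mem_ker, hk, ← h1, Ideal.mem_span_singleton]
      exact map_dvd_iff (optionEquivRight B α)
    · -- regularity
      intro a b hab
      have h2 := congrArg (optionEquivRight B α) hab
      rw [map_mul, map_mul, h1] at h2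
      exact (optionEquivRight B α).injective (C_mul_inj_of_monic (hg none) _ _ h2)
    · rw [List.map_map]
      have : (fun i => Polynomial.aeval (X i : MvPolynomial α B') ((g (some i)).map (q.comp Polynomial.C))) =
        φ ∘ (fun i => Polynomial.aeval (X i : MvPolynomial (Option α) B) (g i)) ∘ some := by
        funext i
        simp only [Function.comp_apply]
        change _ = (MvPolynomial.map q) ((optionEquivRight B α)
          (Polynomial.aeval (X (some i)) (g (some i))))
        rw [← Polynomial.aeval_algHom_apply, optionEquivRight_X_some]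
        rw [Polynomial.aeval_def, Polynomial.aeval_def, Polynomial.hom_eval₂, Polynomial.eval₂_map,
          MvPolynomial.map_X]
        congr 1
        apply RingHom.ext
        intro b
        change C (q (Polynomial.C b)) = (MvPolynomial.map q) (C (Polynomial.C b))
        rw [MvPolynomial.map_C]
      rw [← this]
      exact hr

end Pool.Agent.H364R2
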