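import Pool.Agent.H364R2.NR
import Pool.Agent.H364R2.Box
import Pool.Agent.H364R2.Uni

open IsLocalRing RingTheory.Sequence Submodule MvPolynomial

namespace Pool.Agent.H364R2

section Sat

variable {R : Type*} [CommRing R]

/-- saturation with respect to powers of `x` -/
def sat (x : R) (I : Ideal R) : Ideal R where
  carrier := {g | ∃ n : ℕ, x ^ n * g ∈ I}
  zero_mem' := ⟨0, by simp⟩
  add_mem' := by
    rintro a b ⟨m, hm⟩ ⟨n, hn⟩
    refine ⟨m + n, ?_⟩
    have h1 : x ^ (m + n) * (a + b) = x ^ n * (x ^ m * a) + x ^ m * (x ^ n * b) := by ring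
    rw [h1]
    exact I.add_mem (I.mul_mem_left _ hm) (I.mul_mem_left _ hn)
  smul_mem' := by
    rintro c a ⟨m, hm⟩
    refine ⟨m, ?_⟩
    have h1 : x ^ m * (c • a) = c * (x ^ m * a) := by rw [smul_eq_mul]; ring
    rw [h1]
    exact I.mul_mem_left _ hm

lemma mem_sat {x : R} {I : Ideal R} {g : R} : g ∈ sat x I ↔ ∃ n : ℕ, x ^ n * g ∈ I := Iff.rfl

lemma le_sat (x : R) (I : Ideal R) : I ≤ sat x I := fun g hg => ⟨0, by simpa using hg⟩

lemma sat_mono (x : R) {I J : Ideal R} (h : I ≤ J) : sat x I ≤ sat x J := by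
  rintro g ⟨n, hn⟩; exact ⟨n, h hn⟩

lemma mem_sat_of_mul {x : R} {I : Ideal R} {g : R} (h : x * g ∈ sat x I) : g ∈ sat x I := by
  obtain ⟨n, hn⟩ := h
  exact ⟨n + 1, by rw [pow_succ, mul_assoc]; exact hn⟩

lemma sat_le {x : R} {I J : Ideal R} (h : I ≤ J) (hx : ∀ g, x * g ∈ J → g ∈ J) : sat x I ≤ J := by
  rintro g ⟨n, hn⟩
  have : ∀ n : ℕ, x ^ n * g ∈ J → g ∈ J := by
    intro n
    induction n with
    | zero => intro h; simpa using h
    | succ n ih =>
      intro h
      apply ih
      apply hx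
      rw [← mul_assoc, ← pow_succ']
      exact h
  exact this n (h hn)

/-- good sequences -/
def Good (x : R) (fs : List R) : Prop :=
  ∀ i (h : i < fs.length), ∀ g, fs[i] * g ∈ sat x (Ideal.ofList (fs.take i)) →
    g ∈ sat x (Ideal.ofList (fs.take i))

lemma Good_nil (x : R) : Good x [] := fun i h => absurd h (by simp)

lemma Good.snoc {x : R} {fs : List R} (h : Good x fs) {f : R}
    (hf : ∀ g, f * g ∈ sat x (Ideal.ofList fs) → g ∈ sat x (Ideal.ofList fs)) :
    Good x (fs ++ [f]) := by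
  intro i hi g hg
  rw [List.length_append, List.length_singleton] at hi
  rcases Nat.lt_or_ge i fs.length with hlt | hge
  · rw [List.getElem_append_left hlt] at hg
    rw [List.take_append_of_le_length hlt.le] at hg ⊢
    exact h i hlt g hg
  · have : i = fs.length := by omega
    subst this
    simp only [List.getElem_append_right (le_refl _), Nat.sub_self, List.getElem_singleton,
      List.take_left'] at hg ⊢
    exact hf g hg

/-- A good sequence becomes weakly regular after localization at a prime not containing `x`. -/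
lemma Good.weaklyRegular {x : R} {fs : List R} (h : Good x fs) (Q : Ideal R) [Q.IsPrime]
    (hx : x ∉ Q) (A : Type*) [CommRing A] [Algebra R A] [IsLocalization.AtPrime A Q] :
    IsWeaklyRegular A (fs.map (algebraMap R A)) := by
  constructor
  intro i hi
  rw [List.length_map] at hi
  rw [isSMulRegular_quotient_iff_mem_of_smul_mem]
  rw [List.getElem_map, ← List.map_take, ← Ideal.map_ofList, smul_eq_mul, Ideal.mul_top]
  intro a ha
  obtain ⟨r, s, rfl⟩ := IsLocalization.exists_mk'_eq Q.primeCompl a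
  rw [smul_eq_mul, IsLocalization.mul_mk'_eq_mk'_of_mul,
    IsLocalization.mk'_mem_map_algebraMap_iff] at ha
  obtain ⟨t, ht, hmem⟩ := ha
  rw [IsLocalization.mk'_mem_map_algebraMap_iff]
  have h1 : fs[i] * (t * r) ∈ sat x (Ideal.ofList (fs.take i)) := by
    apply le_sat
    have : fs[i] * (t * r) = t * (fs[i] * r) := by ring
    rw [this]; exact hmem
  obtain ⟨n, hn⟩ := h i hi _ h1
  refine ⟨x ^ n * t, ?_, by rw [mul_assoc]; exact hn⟩
  intro hmem'
  rcases (‹Q.IsPrime›).mem_or_mem hmem' with h2 | h2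
  · exact hx ((‹Q.IsPrime›).mem_of_pow_mem _ h2)
  · exact ht h2

/-- Key: a prime containing a longer weakly regular sequence is not associated to a good one. -/
theorem not_annihilator [IsNoetherianRing R] {x : R} {fs gs : List R} (h : Good x fs)
    (Q : Ideal R) [Q.IsPrime] (hx : x ∉ Q) (hfs : ∀ f ∈ fs, f ∈ Q) (hgs : ∀ g ∈ gs, g ∈ Q)
    (hgr : WR R gs) (hlen : fs.length < gs.length) (z : R)
    (hz : ∀ t, t * z ∈ sat x (Ideal.ofList fs) ↔ t ∈ Q) : False := by
  let A := Localization.AtPrime Q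
  have h1 : IsWeaklyRegular A (fs.map (algebraMap R A)) := h.weaklyRegular Q hx A
  have h2 : IsWeaklyRegular A (gs.map (algebraMap R A)) := IsWeaklyRegular.of_flat hgr
  have hm : ∀ l : List R, (∀ f ∈ l, f ∈ Q) → ∀ a ∈ l.map (algebraMap R A), a ∈ maximalIdeal A := by
    intro l hl a ha
    rw [List.mem_map] at ha
    obtain ⟨f, hf, rfl⟩ := ha
    exact (IsLocalization.AtPrime.to_map_mem_maximal_iff A Q f).mpr (hl f hf)
  refine not_Zed_of_longer A _ _ (hm fs hfs) (hm gs hgs) h1 h2 (by simpa using hlen) ?_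
  refine ⟨Submodule.Quotient.mk (algebraMap R A z), ?_, ?_⟩
  · intro h0
    rw [Submodule.Quotient.mk_eq_zero, ← Ideal.map_ofList, smul_eq_mul, Ideal.mul_top,
      ← IsLocalization.mk'_one (M := Q.primeCompl) A z,
      IsLocalization.mk'_mem_map_algebraMap_iff] at h0
    obtain ⟨t, ht, hmem⟩ := h0
    exact ht ((hz t).mp (le_sat _ _ hmem))
  · intro a ha
    obtain ⟨q, s, rfl⟩ := IsLocalization.exists_mk'_eq Q.primeCompl a
    rw [IsLocalization.AtPrime.mk'_mem_maximal_iff A Q] at ha
    rw [← Submodule.Quotient.mk_smul, Submodule.Quotient.mk_eq_zero, ← Ideal.map_ofList,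
      smul_eq_mul, smul_eq_mul, Ideal.mul_top, mul_comm, IsLocalization.mul_mk'_eq_mk'_of_mul,
      IsLocalization.mk'_mem_map_algebraMap_iff]
    obtain ⟨n, hn⟩ := (hz q).mpr ha
    refine ⟨x ^ n, fun hmem => hx ((‹Q.IsPrime›).mem_of_pow_mem _ hmem), ?_⟩
    rw [mul_comm z q]; exact hn

end Sat

section Exist

variable {R : Type*} [CommRing R] [IsNoetherianRing R] {k : Type*} [Field k] [Infinite k]
  [Algebra k R]

/-- existence of the next element of the sequence in the `k`-space `S` -/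
theorem exists_next {x : R} (S : Submodule k R) (n : ℕ)
    (hQ : ∀ Q : Ideal R, Q.IsPrime → (∀ f ∈ S, f ∈ Q) → x ∉ Q →
      ∃ gs : List R, gs.length = n ∧ (∀ g ∈ gs, g ∈ Q) ∧ WR R gs)
    (fs : List R) (hfs : Good x fs) (hfS : ∀ f ∈ fs, f ∈ S) (hlen : fs.length < n) :
    ∃ f ∈ S, ∀ g, f * g ∈ sat x (Ideal.ofList fs) → g ∈ sat x (Ideal.ofList fs) := by
  classical
  by_contra hcon
  push Not at hcon
  set I := sat x (Ideal.ofList fs) with hI
  let s : Set (Ideal R) := associatedPrimes R (R ⧸ I)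
  have hfin : s.Finite := associatedPrimes.finite R (R ⧸ I)
  have hcov : ∀ f ∈ S, ∃ Q ∈ s, f ∈ Q := by
    intro f hf
    obtain ⟨g, hg1, hg2⟩ := hcon f hf
    have h1 : f ∈ ⋃ p ∈ associatedPrimes R (R ⧸ I), (p : Set R) := by
      rw [biUnion_associatedPrimes_eq_compl_regular]
      intro hreg
      apply hg2
      rw [← Ideal.Quotient.eq_zero_iff_mem]
      apply hreg
      change f • (Ideal.Quotient.mk I g) = f • (0 : R ⧸ I)
      rw [smul_zero]
      change Ideal.Quotient.mk I (f * g) = 0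
      rw [Ideal.Quotient.eq_zero_iff_mem]
      exact hg1
    simp only [Set.mem_iUnion] at h1
    obtain ⟨Q, hQ1, hQ2⟩ := h1
    exact ⟨Q, hQ1, hQ2⟩
  -- a finite union of subspaces
  let sub : Ideal R → Submodule k S := fun Q => (Q.restrictScalars k).comap S.subtype
  have htop : ∃ Q ∈ s, sub Q = ⊤ := by
    have h1 : ⋃ p ∈ hfin.toFinset.image sub, (p : Set S) = Set.univ := by
      rw [Set.eq_univ_iff_forall]
      rintro ⟨f, hf⟩
      obtain ⟨Q, hQ1, hQ2⟩ := hcov f hf
      simp only [Set.mem_iUnion]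
      exact ⟨sub Q, Finset.mem_image_of_mem _ (hfin.mem_toFinset.mpr hQ1), hQ2⟩
    have h2 := Subspace.top_mem_of_biUnion_eq_univ h1
    rw [Finset.mem_image] at h2
    obtain ⟨Q, hQ1, hQ2⟩ := h2
    exact ⟨Q, hfin.mem_toFinset.mp hQ1, hQ2⟩
  obtain ⟨Q, hQs, hQtop⟩ := htop
  have hSQ : ∀ f ∈ S, f ∈ Q := by
    intro f hf
    have : (⟨f, hf⟩ : S) ∈ sub Q := by rw [hQtop]; trivial
    exact this
  have hass : IsAssociatedPrime Q (R ⧸ I) := hQs
  rw [isAssociatedPrime_iff] at hass
  obtain ⟨hQp, zz, hzz⟩ := hass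
  obtain ⟨z, rfl⟩ := Ideal.Quotient.mk_surjective zz
  have hz : ∀ t, t * z ∈ I ↔ t ∈ Q := by
    intro t
    rw [hzz, Submodule.mem_colon_singleton, Submodule.mem_bot]
    change _ ↔ Ideal.Quotient.mk I (t * z) = 0
    rw [Ideal.Quotient.eq_zero_iff_mem]
  have hxQ : x ∉ Q := by
    intro hxQ
    have h1 := (hz x).mpr hxQ
    have h2 : z ∈ I := mem_sat_of_mul h1
    apply hQp.ne_top
    rw [Ideal.eq_top_iff_one, ← hz 1, one_mul]
    exact h2
  obtain ⟨gs, hgs1, hgs2, hgs3⟩ := hQ Q hQp hSQ hxQ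
  exact not_annihilator hfs Q hxQ (fun f hf => hSQ f (hfS f hf)) hgs2 hgs3 (by omega) z hz

theorem exists_good {x : R} (S : Submodule k R) (n : ℕ)
    (hQ : ∀ Q : Ideal R, Q.IsPrime → (∀ f ∈ S, f ∈ Q) → x ∉ Q →
      ∃ gs : List R, gs.length = n ∧ (∀ g ∈ gs, g ∈ Q) ∧ WR R gs) :
    ∀ m ≤ n, ∃ fs : List R, fs.length = m ∧ Good x fs ∧ ∀ f ∈ fs, f ∈ S := by
  intro m
  induction m with
  | zero => intro _; exact ⟨[], rfl, Good_nil x, by simp⟩
  | succ m ih =>
    intro hm
    obtain ⟨fs, hl, hg, hS⟩ := ih (by omega)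
    obtain ⟨f, hfS, hf⟩ := exists_next S n hQ fs hg hS (by omega)
    refine ⟨fs ++ [f], by simp [hl], hg.snoc hf, ?_⟩
    intro a ha
    rw [List.mem_append, List.mem_singleton] at ha
    rcases ha with ha | rfl
    · exact hS a ha
    · exact hfS

end Exist

section Bezout

variable {K : Type*} [Field K] {ι : Type*} [Fintype ι] [DecidableEq ι]
  {k : Type*} [Field k] [Infinite k] [Algebra k (MvPolynomial ι K)]

/-- **Bezout type theorem**: `S` is a `k`-space of polynomials of box degree `≤ L` such that any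
prime containing it (and not containing `x`) contains monic univariate polynomials in every
variable. Then the total number of conditions of pairwise coprime `x`-saturated ideals containing
`S` is bounded by a constant times `∏ L j`. -/
theorem bezout_main (L : ι → ℕ) (hL : ∀ j, 1 ≤ L j) (x : MvPolynomial ι K)
    (S : Submodule k (MvPolynomial ι K)) (hS : ∀ f ∈ S, f ∈ box K L 1)
    (hQ : ∀ Q : Ideal (MvPolynomial ι K), Q.IsPrime → (∀ f ∈ S, f ∈ Q) → x ∉ Q →
      ∀ j, ∃ g : Polynomial K, g.Monic ∧ Polynomial.aeval (X j : MvPolynomial ι K) g ∈ Q)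
    {Γ : Type*} [Fintype Γ] (a : Γ → Ideal (MvPolynomial ι K))
    (haS : ∀ γ, ∀ f ∈ S, f ∈ a γ) (hax : ∀ γ g, x * g ∈ a γ → g ∈ a γ)
    (hcop : Pairwise (Function.onFun IsCoprime a))
    {κ : Type*} [Fintype κ] (u : Γ → κ → MvPolynomial ι K)
    (hu : ∀ γ, LinearIndependent K (fun i => Ideal.Quotient.mk (a γ) (u γ i))) :
    Fintype.card Γ * Fintype.card κ ≤
      2 ^ ((Fintype.card ι + 1) * Fintype.card ι) * ∏ j, L j := by
  classical
  obtain ⟨fs, hlen, hgood, hfS⟩ := exists_good (x := x) S (Fintype.card ι) (by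
    intro Q hQp hQS hxQ
    choose g hgm hgQ using hQ Q hQp hQS hxQ
    obtain ⟨l, hl, hr⟩ := uniP ι K g hgm
    refine ⟨_, ?_, ?_, hr⟩
    · rw [List.length_map, hl, Nat.card_eq_fintype_card]
    · intro p hp
      rw [List.mem_map] at hp
      obtain ⟨i, -, rfl⟩ := hp
      exact hgQ i) (Fintype.card ι) le_rfl
  -- the chain of ideals
  let J : ℕ → Ideal (MvPolynomial ι K) := fun i => sat x (Ideal.ofList (fs.take i))
  let f : ℕ → MvPolynomial ι K := fun i => fs.getD i 0
  have hJ : J (Fintype.card ι) = sat x (Ideal.ofList fs) := by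
    simp only [J]; rw [← hlen, List.take_length]
  have hJa : ∀ γ, J (Fintype.card ι) ≤ a γ := by
    intro γ
    rw [hJ]
    apply sat_le _ (hax γ)
    rw [Ideal.ofList, Ideal.span_le]
    intro p hp
    exact haS γ p (hfS p hp)
  have hprod : Fintype.card Γ * Fintype.card κ = Fintype.card (Γ × κ) := by
    rw [Fintype.card_prod]
  rw [hprod]
  -- idempotent-like elements
  have hex : ∀ γ, ∃ r : MvPolynomial ι K, ∀ γ', r - (if γ' = γ then 1 else 0) ∈ a γ' := fun γ =>
    Ideal.exists_forall_sub_mem_ideal hcop (fun γ' => if γ' = γ then 1 else 0)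
  choose e he using hex
  refine bezout_box K L hL J f ?_ ?_ ?_ ?_ (fun p : Γ × κ => e p.1 * u p.1 p.2) ?_
  · intro i _
    apply sat_mono
    rw [Ideal.ofList, Ideal.ofList]
    apply Ideal.span_mono
    intro p hp
    exact List.take_subset_take_left _ (Nat.le_succ i) hp
  · intro i hi
    apply le_sat
    apply Ideal.subset_span
    have hi' : i < fs.length := by omega
    change fs.getD i 0 ∈ fs.take (i + 1)
    rw [List.getD_eq_getElem _ _ hi', List.mem_take_iff_getElem]
    exact ⟨i, by omega, rfl⟩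
  · intro i hi
    have hi' : i < fs.length := by omega
    change fs.getD i 0 ∈ _
    rw [List.getD_eq_getElem _ _ hi']
    exact hS _ (hfS _ (List.getElem_mem hi'))
  · intro i hi g hg
    have hi' : i < fs.length := by omega
    change fs.getD i 0 * g ∈ _ at hg
    rw [List.getD_eq_getElem _ _ hi'] at hg
    exact hgood i hi' g hg
  · rw [Fintype.linearIndependent_iff]
    intro c hc
    rintro ⟨γ, i⟩
    have h1 : (∑ p : Γ × κ, C (c p) * (e p.1 * u p.1 p.2)) ∈ J (Fintype.card ι) := by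
      rw [← Ideal.Quotient.eq_zero_iff_mem, map_sum, ← hc]
      apply Finset.sum_congr rfl
      intro p _
      rw [← MvPolynomial.smul_eq_C_mul]
      rfl
    have h2 := hJa γ h1
    have h3 : (∑ i : κ, C (c (γ, i)) * u γ i) ∈ a γ := by
      have h4 : (∑ p : Γ × κ, C (c p) * (e p.1 * u p.1 p.2)) - (∑ i : κ, C (c (γ, i)) * u γ i) ∈
          a γ := by
        have h5 : (∑ i : κ, C (c (γ, i)) * u γ i) =
            ∑ p : Γ × κ, C (c p) * ((if γ = p.1 then 1 else 0) * u p.1 p.2) := by
          rw [Fintype.sum_prod_type]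
          rw [Finset.sum_eq_single γ]
          · simp
          · intro γ' _ hne
            simp [Ne.symm hne]
          · simp
        rw [h5, ← Finset.sum_sub_distrib]
        apply Ideal.sum_mem
        intro p _
        have h6 : C (c p) * (e p.1 * u p.1 p.2) - C (c p) * ((if γ = p.1 then 1 else 0) * u p.1 p.2)
            = (C (c p) * u p.1 p.2) * (e p.1 - (if γ = p.1 then 1 else 0)) := by ring
        rw [h6]
        exact Ideal.mul_mem_left _ _ (he p.1 γ)
      have h7 := (a γ).sub_mem h2 h4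
      simpa using h7
    have h8 := Fintype.linearIndependent_iff.mp (hu γ) (fun i => c (γ, i)) (by
      rw [← Ideal.Quotient.eq_zero_iff_mem, map_sum] at h3
      rw [← h3]
      apply Finset.sum_congr rfl
      intro i _
      rw [← MvPolynomial.smul_eq_C_mul]
      rfl) i
    exact h8

end Bezout

end Pool.Agent.H364R2
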