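import Mathlib

/-!
Common definitions for the zero estimate on `G = Ga^{add} x Gm^{not add}` (TEAM-TR).
Coordinates are indexed by a finite type `σ`; `add j = true` means that `j` is an additive
coordinate, `add j = false` that it is a multiplicative coordinate.
-/

open MvPolynomial

namespace Pool.Agent.H364R2

variable {σ : Type}

/-- invariant derivation attached to the tangent vector `w`:
`w j * d/dX_j` for additive `j`, `w j * X_j * d/dX_j` for multiplicative `j`. -/
noncomputable def der (add : σ → Bool) (w : σ → ℂ) :
    Derivation ℂ (MvPolynomial σ ℂ) (MvPolynomial σ ℂ) :=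
  mkDerivation ℂ (fun j => if add j then C (w j) else C (w j) * X j)

/-- translation by the group element `g`: `X_j ↦ X_j + g j` resp. `X_j ↦ g j * X_j`. -/
noncomputable def tr (add : σ → Bool) (g : σ → ℂ) : MvPolynomial σ ℂ →ₐ[ℂ] MvPolynomial σ ℂ :=
  aeval (fun j => if add j then X j + C (g j) else C (g j) * X j)

/-- the neutral element -/
def gone (add : σ → Bool) : σ → ℂ := fun j => if add j then 0 else 1

/-- product of two group elements -/
def gmul (add : σ → Bool) (g h : σ → ℂ) : σ → ℂ := fun j => if add j then g j + h j else g j * h j

/-- being a group element -/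
def IsG (add : σ → Bool) (g : σ → ℂ) : Prop := ∀ j, add j = false → g j ≠ 0

/-- `B` is (algebraically) independent modulo the ideal `P`. -/
def Indep (P : Ideal (MvPolynomial σ ℂ)) (B : Set σ) : Prop :=
  ∀ f ∈ supported ℂ B, f ∈ P → f = 0

/-- a prime ideal that meets the open set where the multiplicative coordinates are invertible -/
def GPrime (add : σ → Bool) (P : Ideal (MvPolynomial σ ℂ)) : Prop :=
  P.IsPrime ∧ ∀ j, add j = false → X j ∉ P

/-- iterated derivation `D_1^{t_1} ... D_l^{t_l}` (in the order of the list of pairs) -/
noncomputable def derIter (add : σ → Bool) {l : ℕ} (W : Fin l → σ → ℂ) :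
    List (Fin l) → MvPolynomial σ ℂ → MvPolynomial σ ℂ
  | [], f => f
  | k :: ks, f => der add (W k) (derIter add W ks f)

end Pool.Agent.H364R2
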