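import Mathlib
import Pool.Agent.H43R2.Cplx.EMeas

namespace Pool.Agent.H364R2.EE

open Real Pool.Agent.H43R2.Cplx.EMeas

theorem q_odd : ∀ n : ℕ, (q n) % 2 = 1 ∧ (q (n + 1)) % 2 = 1 := by
  intro n
  induction n with
  | zero => simp [q]
  | succ n ih =>
    refine ⟨ih.2, ?_⟩
    rw [show n + 1 + 1 = n + 2 by ring]
    simp only [q]
    rw [Nat.add_mod, Nat.mul_mod, show (4 * n + 6) % 2 = 0 by omega]
    simp [ih.1]

theorem r_odd : ∀ n : ℕ, (r n) % 2 = 1 ∧ (r (n + 1)) % 2 = 1 := by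
  intro n
  induction n with
  | zero => simp [r]
  | succ n ih =>
    refine ⟨ih.2, ?_⟩
    rw [show n + 1 + 1 = n + 2 by ring]
    simp only [r]
    rw [Nat.add_mod, Nat.mul_mod, show (4 * n + 6) % 2 = 0 by omega]
    simp [ih.1]

theorem negpow_sq (n : ℕ) : ((-1 : ℤ) ^ n) * ((-1 : ℤ) ^ n) = 1 := by
  rw [← mul_pow]; simp

theorem coords (n : ℕ) (a b : ℤ) : ∃ X Y : ℤ, 2 * a = X * r n + Y * r (n + 1) ∧
    2 * b = X * q n + Y * q (n + 1) ∧
    (X : ℝ) = b * I (n + 1) + (-1) ^ n * (b * exp 1 - a) * q (n + 1) ∧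
    (Y : ℝ) = b * I n - (-1) ^ n * (b * exp 1 - a) * q n := by
  have hd := det n
  have hs := negpow_sq n
  refine ⟨(-1) ^ n * (b * r (n + 1) - a * q (n + 1)), (-1) ^ n * (a * q n - b * r n), ?_, ?_, ?_, ?_⟩
  · rw [pow_succ] at hd
    linear_combination ((-1) ^ n * (-a)) * (-1) * hd - 2 * a * hs
  · rw [pow_succ] at hd
    linear_combination ((-1) ^ n * b) * hd - 2 * b * hs
  · rw [(I_eq n).2]
    push_cast
    rw [pow_succ]
    ring
  · rw [(I_eq n).1]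
    push_cast
    ring

theorem parity (n : ℕ) {b X Y : ℤ} (h : 2 * b = X * q n + Y * q (n + 1)) : X % 2 = Y % 2 := by
  have h1 := (q_odd n).1
  have h2 := (q_odd n).2
  obtain ⟨u, hu⟩ : ∃ u : ℕ, q n = 2 * u + 1 := ⟨q n / 2, by omega⟩
  obtain ⟨v, hv⟩ : ∃ v : ℕ, q (n + 1) = 2 * v + 1 := ⟨q (n + 1) / 2, by omega⟩
  rw [hu, hv] at h
  push_cast at h
  have : X + Y = 2 * (b - X * u - Y * v) := by linarith
  omega

theorem I_bound (n : ℕ) : (4 * (n : ℝ) + 6) * I (n + 1) ≤ I n := by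
  have h1 := I_rec n
  have h2 := I_pos (n + 2)
  linarith

theorem q_rec (n : ℕ) (hn : 1 ≤ n) : ((q (n + 1) : ℕ) : ℝ) = (4 * (n : ℝ) + 2) * q n + q (n - 1) := by
  obtain ⟨k, rfl⟩ : ∃ k, n = k + 1 := ⟨n - 1, by omega⟩
  have h : q (k + 2) = (4 * k + 6) * q (k + 1) + q k := rfl
  rw [show k + 1 + 1 = k + 2 from rfl, show k + 1 - 1 = k from rfl, h]
  push_cast
  ring

theorem exists_index (b : ℤ) (hb : 71 ≤ b) : ∃ n : ℕ, 3 ≤ n ∧ (q n : ℤ) ≤ b ∧ b < q (n + 1) := by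
  classical
  have hex : ∃ n, b < q (n + 1) := by
    refine ⟨b.toNat, ?_⟩
    have h1 := q_growth b.toNat
    have h2 : b.toNat < 2 ^ b.toNat := Nat.lt_two_pow_self
    have h3 : (b.toNat : ℤ) = b := Int.toNat_of_nonneg (by omega)
    have h4 : b.toNat < q (b.toNat + 1) := lt_of_lt_of_le h2 h1
    have h5 : (b.toNat : ℤ) < (q (b.toNat + 1) : ℤ) := by exact_mod_cast h4
    omega
  set n := Nat.find hex with hn
  have h1 : b < q (n + 1) := Nat.find_spec hex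
  have h3 : 3 ≤ n := by
    by_contra hc
    have : n + 1 ≤ 3 := by omega
    have h2 : q (n + 1) ≤ q 3 := q_mono this
    have h4 : q 3 = 71 := by simp [q]
    omega
  refine ⟨n, h3, ?_, h1⟩
  have h2 : ¬ (b < q ((n - 1) + 1)) := Nat.find_min hex (by omega)
  rw [show n - 1 + 1 = n by omega] at h2
  omega


/-- basic inequalities at an index `n ≥ 3` -/
theorem basics (n : ℕ) (hn : 3 ≤ n) :
    0 < (q n : ℝ) ∧ 0 < I n ∧ 0 < I (n + 1) ∧ (q (n + 1) : ℝ) * I n + q n * I (n + 1) = 2 ∧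
    14 * (q n : ℝ) ≤ q (n + 1) ∧ 18 * I (n + 1) ≤ I n ∧ (q n : ℝ) * I n ≤ 1 / 7 ∧
    (q n : ℝ) * I (n + 1) ≤ 1 / 126 ∧ (q (n + 1) : ℝ) * I (n + 1) ≤ 1 / 9 := by
  have hq : 0 < (q n : ℝ) := by exact_mod_cast (q_pos n).1
  have hq0 : (0 : ℝ) ≤ q (n - 1) := by positivity
  have hi := I_pos n
  have hi' := I_pos (n + 1)
  have hqI := q_I n
  have hn' : (3 : ℝ) ≤ n := by exact_mod_cast hn
  have h1 : 14 * (q n : ℝ) ≤ q (n + 1) := by
    rw [q_rec n (by omega)]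
    nlinarith
  have h2 : 18 * I (n + 1) ≤ I n := by
    have := I_bound n
    nlinarith
  have h3 : (q n : ℝ) * I n ≤ 1 / 7 := by
    have : 0 < (q n : ℝ) * I (n + 1) := by positivity
    nlinarith
  have h4 : (q n : ℝ) * I (n + 1) ≤ 1 / 126 := by nlinarith
  have h5 : (q (n + 1) : ℝ) * I (n + 1) ≤ 1 / 9 := by
    have : 0 < (q n : ℝ) * I (n + 1) := by positivity
    have h6 : 0 < (q (n + 1) : ℝ) := by linarith
    nlinarith
  exact ⟨hq, hi, hi', hqI, h1, h2, h3, h4, h5⟩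

theorem absE (u v w θ g h : ℝ) (hu : 0 < u) (hw : 0 < w) (hv : v = 1 + u) (h1 : u * v = θ * g)
    (h2 : w * v = θ * (2 - h)) (hθ1 : 0.9 ≤ θ) (hθ2 : θ ≤ 0.95) (hg0 : 0 < g) (hg : g ≤ 1 / 7)
    (hh0 : 0 < h) (hh : h ≤ 1 / 126) : 1.5 < w ∧ w ≤ 1.9 := by
  have a1 : θ * g ≤ 0.95 * (1 / 7) := mul_le_mul hθ2 hg hg0.le (by norm_num)
  have a2 : u ≤ u * v := by rw [hv]; nlinarith only [hu]
  have a3 : u ≤ 0.136 := by linarith
  have a4 : θ * (2 - h) ≤ 0.95 * 2 := mul_le_mul hθ2 (by linarith) (by linarith) (by norm_num)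
  have a5 : 0.9 * (2 - 1 / 126) ≤ θ * (2 - h) :=
    mul_le_mul hθ1 (by linarith) (by norm_num) (by linarith)
  have a6 : w ≤ w * v := by rw [hv]; nlinarith only [hu, hw]
  have a7 : w * v ≤ w * 1.136 := mul_le_mul_of_nonneg_left (by linarith) hw.le
  constructor <;> linarith

theorem absO1 (u v w θ g h : ℝ) (hu : 0 < u) (hw : 0 < w) (hv : v = 1 - u) (h1 : u * v = θ * g)
    (h2 : w * v = θ * (2 - h)) (hθ1 : 0.9 ≤ θ) (hθ2 : θ ≤ 0.95) (hg0 : 0 < g) (hg : g ≤ 1 / 7)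
    (hh0 : 0 < h) (hh : h ≤ 1 / 126) (hu1 : u ≤ 0.634) : 1.78 ≤ w ∧ w ≤ 2.43 := by
  have a1 : θ * g ≤ 0.95 * (1 / 7) := mul_le_mul hθ2 hg hg0.le (by norm_num)
  have a4 : θ * (2 - h) ≤ 0.95 * 2 := mul_le_mul hθ2 (by linarith) (by linarith) (by norm_num)
  have a5 : 0.9 * (2 - 1 / 126) ≤ θ * (2 - h) :=
    mul_le_mul hθ1 (by linarith) (by norm_num) (by linarith)
  have b1 : u * 0.366 ≤ u * v := mul_le_mul_of_nonneg_left (by linarith) hu.le
  have b2 : u ≤ 0.371 := by linarith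
  have b3 : u * 0.629 ≤ u * v := mul_le_mul_of_nonneg_left (by linarith) hu.le
  have b4 : u ≤ 0.216 := by linarith
  have b5 : w * 0.784 ≤ w * v := mul_le_mul_of_nonneg_left (by linarith) hw.le
  have b6 : w * v ≤ w * 1 := mul_le_mul_of_nonneg_left (by linarith) hw.le
  constructor <;> linarith

theorem absO2 (u v w θ h : ℝ) (hu : 0 < u) (hw : 0 < w) (hv : v = 2 - u)
    (h2 : w * v = θ * (2 - h)) (hθ1 : 0.9 ≤ θ) (hθ2 : θ ≤ 0.95)
    (hh0 : 0 < h) (hh : h ≤ 1 / 126) (hu1 : u ≤ 0.95) : 0.8 ≤ w ∧ w ≤ 1.82 := by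
  have a4 : θ * (2 - h) ≤ 0.95 * 2 := mul_le_mul hθ2 (by linarith) (by linarith) (by norm_num)
  have a5 : 0.9 * (2 - 1 / 126) ≤ θ * (2 - h) :=
    mul_le_mul hθ1 (by linarith) (by norm_num) (by linarith)
  have b5 : w * 1.05 ≤ w * v := mul_le_mul_of_nonneg_left (by linarith) hw.le
  have b6 : w * v ≤ w * 2 := mul_le_mul_of_nonneg_left (by linarith) hw.le
  constructor <;> linarith

theorem q_lt (n : ℕ) (hn : 2 ≤ n) : (q (n - 1) : ℝ) < q n := by
  obtain ⟨k, rfl⟩ : ∃ k, n = k + 2 := ⟨n - 2, by omega⟩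
  have h := q_rec (k + 1) (by omega)
  have hp : 0 < (q (k + 1) : ℝ) := by exact_mod_cast (q_pos k).2
  have hp0 : 0 < (q (k + 1 - 1) : ℝ) := by exact_mod_cast (q_pos _).1
  rw [show k + 2 - 1 = k + 1 by omega, show k + 2 = k + 1 + 1 from rfl, h]
  push_cast
  nlinarith only [hp, hp0, mul_nonneg (Nat.cast_nonneg k : (0 : ℝ) ≤ k) hp.le]

/-- in the class `Y = 1` one has `3 Q ≤ 2 b` as soon as `Q ≤ b` -/
theorem b_ge (n : ℕ) (hn : 3 ≤ n) (b X : ℤ) (hbb : 2 * b = X * q n + 1 * q (n + 1))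
    (hqb : (q n : ℝ) ≤ b) (hX : X % 2 = 1) : (3 : ℝ) * q n ≤ 2 * b := by
  have hq : 0 < (q n : ℝ) := by exact_mod_cast (q_pos n).1
  have hrec := q_rec n (by omega)
  have hlt := q_lt n (by omega)
  have hq0 : 0 < (q (n - 1) : ℝ) := by exact_mod_cast (q_pos _).1
  have hbb' : (2 : ℝ) * b = (X + (4 * n + 2)) * q n + q (n - 1) := by
    have : (2 : ℝ) * b = X * q n + 1 * q (n + 1) := by exact_mod_cast hbb
    rw [this, hrec]; ring
  have hk1 : (1 : ℝ) < ((X + (4 * n + 2) : ℤ) : ℝ) := by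
    push_cast
    by_contra hc
    have hc' := not_lt.mp hc
    have : (X + (4 * (n : ℝ) + 2)) * q n ≤ 1 * q n := mul_le_mul_of_nonneg_right hc' hq.le
    linarith
  have hk2 : 1 < X + (4 * n + 2) := by exact_mod_cast hk1
  have hk3 : 3 ≤ X + (4 * n + 2) := by omega
  have hk4 : (3 : ℝ) ≤ ((X + (4 * n + 2) : ℤ) : ℝ) := by exact_mod_cast hk3
  push_cast at hk4
  have : 3 * (q n : ℝ) ≤ (X + (4 * (n : ℝ) + 2)) * q n := mul_le_mul_of_nonneg_right hk4 hq.le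
  linarith

/-- first level: the only approximations `a/b` of `e` with `b (b e - a)` near `e/3` are multiples
of the convergents `r n / q n` -/
theorem levelA (a b : ℤ) (hb : 71 ≤ b) (h1 : 0.9 ≤ (b : ℝ) * (b * exp 1 - a))
    (h2 : (b : ℝ) * (b * exp 1 - a) ≤ 0.95) :
    ∃ n : ℕ, 3 ≤ n ∧ b < q (n + 1) ∧ ∃ t : ℤ, a = t * r n ∧ b = t * q n := by
  obtain ⟨n, hn, hqb, hbq⟩ := exists_index b hb
  obtain ⟨hq, hi, hi', hqI, hT, hII, hG, hh, hG'⟩ := basics n hn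
  obtain ⟨X, Y, ha, hbb, hX, hY⟩ := coords n a b
  have hpar := parity n hbb
  have hbR : (0 : ℝ) < b := by exact_mod_cast (by omega : 0 < b)
  have hqbR : (q n : ℝ) ≤ b := by exact_mod_cast hqb
  have hbqR : (b : ℝ) < q (n + 1) := by exact_mod_cast hbq
  refine ⟨n, hn, hbq, ?_⟩
  -- it suffices that Y = 0
  have key : Y = 0 → ∃ t : ℤ, a = t * r n ∧ b = t * q n := by
    intro h0
    subst h0
    have h3 : X = 2 * (X / 2) := by omega
    refine ⟨X / 2, ?_, ?_⟩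
    · have : 2 * a = 2 * (X / 2 * r n) := by
        rw [ha, ← mul_assoc, ← h3]; ring
      linarith
    · have : 2 * b = 2 * (X / 2 * q n) := by
        rw [hbb, ← mul_assoc, ← h3]; ring
      linarith
  apply key
  have hεpos : 0 < (b : ℝ) * exp 1 - a := by
    by_contra hc
    have := mul_nonpos_of_nonneg_of_nonpos hbR.le (not_lt.mp hc)
    linarith
  generalize hε : (b : ℝ) * exp 1 - a = ε at *
  have hq'pos : 0 < (q (n + 1) : ℝ) := by linarith
  have hbi' : (b : ℝ) * I (n + 1) ≤ 1 / 9 :=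
    (mul_le_mul_of_nonneg_right hbqR.le hi'.le).trans hG'
  have hbi'0 : 0 < (b : ℝ) * I (n + 1) := mul_pos hbR hi'
  have hqi' : 0 < (q n : ℝ) * I (n + 1) := mul_pos hq hi'
  have hqi : 0 < (q n : ℝ) * I n := mul_pos hq hi
  have hbi2 : (b : ℝ) * I n < 2 := by
    have := mul_lt_mul_of_pos_right hbqR hi
    linarith
  have hεQ : ε * q n ≤ 0.95 := by
    have := mul_le_mul_of_nonneg_left hqbR hεpos.le
    linarith [mul_comm ε (b : ℝ)]
  have hεQ0 : 0 < ε * q n := mul_pos hεpos hq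
  have hw0 : 0 < ε * q (n + 1) := mul_pos hεpos hq'pos
  have hbi0 : 0 < (b : ℝ) * I n := mul_pos hbR hi
  have r1 : (ε * q n) * (b * I n) = (b * ε) * (q n * I n) := by ring
  have r2 : (ε * q (n + 1)) * (b * I n) = (b * ε) * (2 - q n * I (n + 1)) := by
    have : (2 : ℝ) - q n * I (n + 1) = q (n + 1) * I n := by linarith
    rw [this]; ring
  rcases Nat.even_or_odd n with he | ho
  · rw [he.neg_one_pow] at hX hY
    have hYlt : (Y : ℝ) < 2 := by rw [hY]; linarith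
    have hYgt : (-1 : ℝ) < Y := by rw [hY]; linarith
    have hY1 : Y < 2 := by exact_mod_cast hYlt
    have hY2 : -1 < Y := by exact_mod_cast hYgt
    by_contra hY0
    have hY3 : Y = 1 := by omega
    subst hY3
    push_cast at hY
    obtain ⟨e4, e3⟩ := absE _ _ _ _ _ _ hεQ0 hw0 (by linarith) r1 r2 h1 h2 hqi hG hqi' hh
    have hX1 : (1 : ℝ) < X := by rw [hX]; linarith
    have hX2 : (X : ℝ) < 3 := by rw [hX]; linarith
    have hX3 : 1 < X := by exact_mod_cast hX1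
    have hX4 : X < 3 := by exact_mod_cast hX2
    omega
  · rw [ho.neg_one_pow] at hX hY
    have hYlt : (Y : ℝ) < 3 := by rw [hY]; linarith
    have hYgt : (0 : ℝ) < Y := by rw [hY]; linarith
    have hY1 : Y < 3 := by exact_mod_cast hYlt
    have hY2 : 0 < Y := by exact_mod_cast hYgt
    exfalso
    rcases (by omega : Y = 1 ∨ Y = 2) with h | h
    · subst h
      push_cast at hY
      have hk := b_ge n hn b X hbb hqbR (by omega)
      have f1 : ε * q n ≤ 0.634 := by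
        have : ε * (3 * q n) ≤ ε * (2 * b) := mul_le_mul_of_nonneg_left hk hεpos.le
        linarith [mul_comm ε (b : ℝ)]
      obtain ⟨e4, e3⟩ := absO1 _ _ _ _ _ _ hεQ0 hw0 (by linarith) r1 r2 h1 h2 hqi hG hqi' hh f1
      have hX1 : (X : ℝ) < -1 := by rw [hX]; linarith
      have hX2 : (-3 : ℝ) < X := by rw [hX]; linarith
      have hX3 : X < -1 := by exact_mod_cast hX1
      have hX4 : -3 < X := by exact_mod_cast hX2
      omega
    · subst h
      push_cast at hY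
      obtain ⟨e4, e3⟩ := absO2 _ _ _ _ _ hεQ0 hw0 (by linarith) r2 h1 h2 hqi' hh hεQ
      have hX1 : (X : ℝ) < 0 := by rw [hX]; linarith
      have hX2 : (-2 : ℝ) < X := by rw [hX]; linarith
      have hX3 : X < 0 := by exact_mod_cast hX1
      have hX4 : -2 < X := by exact_mod_cast hX2
      omega

end Pool.Agent.H364R2.EE
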