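import Mathlib
import Pool.Agent.H364R2.EEa

namespace Pool.Agent.H364R2.EE

open Real Pool.Agent.H43R2.Cplx.EMeas

theorem log_bounds (b : ℝ) (hb : 2 ≤ b) :
    2 / b + 2 / (3 * b ^ 3) ≤ log ((b + 1) / (b - 1)) ∧
    log ((b + 1) / (b - 1)) ≤ 2 / b + 2 / (3 * b * (b ^ 2 - 1)) := by
  have hb0 : 0 < b := by linarith
  have hx1 : |1 / b| < 1 := by
    rw [abs_of_pos (by positivity), div_lt_one hb0]; linarith
  have hs := Real.hasSum_log_sub_log_of_abs_lt_one hx1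
  have hlog : log (1 + 1 / b) - log (1 - 1 / b) = log ((b + 1) / (b - 1)) := by
    have h1 : 1 + 1 / b = (b + 1) / b := by field_simp
    have h2 : 1 - 1 / b = (b - 1) / b := by field_simp
    rw [h1, h2, Real.log_div (by linarith) hb0.ne', Real.log_div (by linarith) hb0.ne',
      Real.log_div (by linarith) (by linarith)]
    ring
  rw [hlog] at hs
  constructor
  · have h := sum_le_hasSum (Finset.range 2) (fun k _ => by positivity) hs
    refine le_trans (le_of_eq ?_) h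
    simp [Finset.sum_range_succ]
    field_simp
    ring
  · have hx2 : 1 / b ^ 2 < 1 := by
      rw [div_lt_one (by positivity)]; nlinarith
    have hg : HasSum (fun k : ℕ => 2 / 3 * (1 / b) * (1 / b ^ 2) ^ k)
        (2 / 3 * (1 / b) * (1 - 1 / b ^ 2)⁻¹) :=
      (hasSum_geometric_of_lt_one (by positivity) hx2).mul_left _
    have hd : HasSum (fun k : ℕ => if k = 0 then 4 / 3 * (1 / b) else 0) (4 / 3 * (1 / b)) :=
      hasSum_ite_eq 0 _
    have hle := hasSum_le (fun k => ?_) hs (hg.add hd)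
    · refine hle.trans (le_of_eq ?_)
      have : b ^ 2 - 1 ≠ 0 := by nlinarith
      have hb1 : 1 - 1 / b ^ 2 = (b ^ 2 - 1) / b ^ 2 := by field_simp
      rw [hb1]
      field_simp
      ring
    · by_cases hk : k = 0
      · subst hk
        simp
        apply le_of_eq
        ring
      · simp only [hk, if_false, add_zero]
        have e1 : (1 / b) ^ (2 * k + 1) = (1 / b) * (1 / b ^ 2) ^ k := by
          rw [pow_succ, pow_mul]
          rw [one_div_pow]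
          ring
        rw [e1]
        have hk1 : (1 : ℝ) ≤ k := by exact_mod_cast Nat.one_le_iff_ne_zero.mpr hk
        have e2 : (2 : ℝ) * (1 / (2 * k + 1)) ≤ 2 / 3 := by
          rw [mul_one_div, div_le_div_iff₀ (by positivity) (by norm_num)]
          linarith
        have e3 : 0 ≤ (1 / b) * (1 / b ^ 2) ^ k := by positivity
        calc 2 * (1 / (2 * (k : ℝ) + 1)) * (1 / b * (1 / b ^ 2) ^ k)
            ≤ 2 / 3 * (1 / b * (1 / b ^ 2) ^ k) := mul_le_mul_of_nonneg_right e2 e3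
          _ = _ := by ring

/-- consequences of `e = m log ((b+1)/(b-1))` -/
theorem main_ineq (b m : ℕ) (hb : 2 ≤ b)
    (h : exp (exp 1) = (((b : ℝ) + 1) / ((b : ℝ) - 1)) ^ m) :
    2 * (m : ℝ) * (3 * (b : ℝ) ^ 2 + 1) ≤ 3 * (b : ℝ) ^ 3 * exp 1 ∧
    3 * (b : ℝ) * ((b : ℝ) ^ 2 - 1) * exp 1 ≤ 2 * (m : ℝ) * (3 * (b : ℝ) ^ 2 - 2) := by
  have hbR : (2 : ℝ) ≤ b := by exact_mod_cast hb
  obtain ⟨h1, h2⟩ := log_bounds b hbR
  have hpos : 0 < ((b : ℝ) + 1) / ((b : ℝ) - 1) := div_pos (by linarith) (by linarith)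
  have he : exp 1 = m * log (((b : ℝ) + 1) / ((b : ℝ) - 1)) := by
    have := congrArg Real.log h
    rw [Real.log_exp, Real.log_pow] at this
    exact this
  have hm : (0 : ℝ) ≤ m := by positivity
  have hb0 : (0 : ℝ) < b := by linarith
  have hb2 : (0 : ℝ) < (b : ℝ) ^ 2 - 1 := by nlinarith
  constructor
  · have h3 := mul_le_mul_of_nonneg_left h1 hm
    rw [← he] at h3
    have h4 : (m : ℝ) * (2 / b + 2 / (3 * (b : ℝ) ^ 3)) =
        2 * m * (3 * (b : ℝ) ^ 2 + 1) / (3 * (b : ℝ) ^ 3) := by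
      field_simp
    rw [h4, div_le_iff₀ (by positivity)] at h3
    linarith
  · have h3 := mul_le_mul_of_nonneg_left h2 hm
    rw [← he] at h3
    have h4 : (m : ℝ) * (2 / b + 2 / (3 * (b : ℝ) * ((b : ℝ) ^ 2 - 1))) =
        2 * m * (3 * (b : ℝ) ^ 2 - 2) / (3 * (b : ℝ) * ((b : ℝ) ^ 2 - 1)) := by
      field_simp
      ring
    rw [h4, le_div_iff₀ (by positivity)] at h3
    linarith

theorem small_check (b m : ℕ) (hb : 2 ≤ b) (hb2 : b < 71)
    (h : exp (exp 1) = (((b : ℝ) + 1) / ((b : ℝ) - 1)) ^ m) : False := by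
  obtain ⟨h1, h2⟩ := main_ineq b m hb h
  have e1 := Real.exp_one_gt_d9
  have e2 := Real.exp_one_lt_d9
  have hbR : (2 : ℝ) ≤ b := by exact_mod_cast hb
  have h3 : 2 * (m : ℝ) * (3 * (b : ℝ) ^ 2 + 1) ≤ 3 * (b : ℝ) ^ 3 * 2.7182818286 :=
    h1.trans (mul_le_mul_of_nonneg_left e2.le (by positivity))
  have h4 : 3 * (b : ℝ) * ((b : ℝ) ^ 2 - 1) * 2.7182818283 ≤ 2 * (m : ℝ) * (3 * (b : ℝ) ^ 2 - 2) :=
    le_trans (mul_le_mul_of_nonneg_left e1.le
      (mul_nonneg (by positivity) (by nlinarith))) h2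
  have h5 : (2 * (m : ℤ) * (3 * (b : ℤ) ^ 2 + 1)) * 10000000000 ≤ 3 * (b : ℤ) ^ 3 * 27182818286 := by
    have : (2 * (m : ℝ) * (3 * (b : ℝ) ^ 2 + 1)) * 10000000000 ≤ 3 * (b : ℝ) ^ 3 * 27182818286 := by
      linarith
    exact_mod_cast this
  have h6 : 3 * (b : ℤ) * ((b : ℤ) ^ 2 - 1) * 27182818283 ≤
      2 * (m : ℤ) * (3 * (b : ℤ) ^ 2 - 2) * 10000000000 := by
    have : 3 * (b : ℝ) * ((b : ℝ) ^ 2 - 1) * 27182818283 ≤
      2 * (m : ℝ) * (3 * (b : ℝ) ^ 2 - 2) * 10000000000 := by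
      linarith
    exact_mod_cast this
  clear h h1 h2 h3 h4 e1 e2 hbR
  interval_cases b <;> norm_num at h5 h6 <;> omega

/-- the value of the approximation -/
theorem theta_range (b m : ℕ) (hb : 71 ≤ b)
    (h : exp (exp 1) = (((b : ℝ) + 1) / ((b : ℝ) - 1)) ^ m) :
    0.9 ≤ (b : ℝ) * (b * exp 1 - 2 * m) ∧ (b : ℝ) * (b * exp 1 - 2 * m) ≤ 0.95 := by
  obtain ⟨h1, h2⟩ := main_ineq b m (by omega) h
  have e1 := Real.exp_one_gt_d9
  have e2 := Real.exp_one_lt_d9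
  have hbR : (71 : ℝ) ≤ b := by exact_mod_cast hb
  have hb2 : (5041 : ℝ) ≤ (b : ℝ) ^ 2 := by nlinarith
  constructor
  · -- b (b e - 2m) (3b^2+1) ≥ b^2 e
    have h3 : (b : ℝ) ^ 2 * exp 1 ≤ (b : ℝ) * (b * exp 1 - 2 * m) * (3 * (b : ℝ) ^ 2 + 1) := by
      have : (b : ℝ) * (2 * (m : ℝ) * (3 * (b : ℝ) ^ 2 + 1)) ≤ b * (3 * (b : ℝ) ^ 3 * exp 1) :=
        mul_le_mul_of_nonneg_left h1 (by positivity)
      nlinarith
    by_contra hc
    push Not at hc
    have h4 : (b : ℝ) * (b * exp 1 - 2 * m) * (3 * (b : ℝ) ^ 2 + 1) ≤ 0.9 * (3 * (b : ℝ) ^ 2 + 1) :=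
      mul_le_mul_of_nonneg_right hc.le (by positivity)
    nlinarith
  · have h3 : (b : ℝ) * (b * exp 1 - 2 * m) * (3 * (b : ℝ) ^ 2 - 2) ≤ (b : ℝ) ^ 2 * exp 1 := by
      have : (b : ℝ) * (3 * (b : ℝ) * ((b : ℝ) ^ 2 - 1) * exp 1) ≤
          b * (2 * (m : ℝ) * (3 * (b : ℝ) ^ 2 - 2)) :=
        mul_le_mul_of_nonneg_left h2 (by positivity)
      nlinarith
    by_contra hc
    push Not at hc
    have h4 : 0.95 * (3 * (b : ℝ) ^ 2 - 2) ≤ (b : ℝ) * (b * exp 1 - 2 * m) * (3 * (b : ℝ) ^ 2 - 2) :=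
      mul_le_mul_of_nonneg_right hc.le (by nlinarith)
    nlinarith

theorem odd_case (b m : ℕ) (hb : 2 ≤ b) (hodd : b % 2 = 1)
    (h : exp (exp 1) = (((b : ℝ) + 1) / ((b : ℝ) - 1)) ^ m) : False := by
  by_cases hb2 : b < 71
  · exact small_check b m hb hb2 h
  · push Not at hb2
    obtain ⟨h1, h2⟩ := theta_range b m hb2 h
    obtain ⟨n, hn, -, t, h3, h4⟩ := levelA (2 * m) b (by exact_mod_cast hb2)
      (by push_cast; exact h1) (by push_cast; exact h2)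
    have h5 := (r_odd n).1
    rcases Int.even_or_odd t with ⟨s, hs⟩ | ⟨s, hs⟩
    · subst hs
      have : (b : ℤ) = 2 * (s * q n) := by rw [h4]; ring
      omega
    · obtain ⟨u, hu⟩ : ∃ u : ℕ, r n = 2 * u + 1 := ⟨r n / 2, by omega⟩
      rw [hs, hu] at h3
      push_cast at h3
      have : 2 * ((m : ℤ) - 2 * s * u - s - u) = 1 := by linarith
      omega

theorem superparticular (n m : ℕ) (hn : 1 ≤ n) :
    exp (exp 1) ≠ (1 + 1 / (n : ℝ)) ^ m := by
  intro h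
  apply odd_case (2 * n + 1) m (by omega) (by omega)
  rw [h]
  congr 1
  have hn0 : (n : ℝ) ≠ 0 := by positivity
  push_cast
  field_simp
  ring

end Pool.Agent.H364R2.EE
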