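import Pool.Agent.H364R2.Vfil

open MvPolynomial

namespace Pool.Agent.H364R2

open Classical in
/-- the map `C[X_σ] → C(X_B)[X_{σ \ B}]` -/
noncomputable def phi {σ : Type} (B : Set σ) : MvPolynomial σ ℂ →ₐ[ℂ]
    MvPolynomial {j // j ∉ B} (FractionRing (MvPolynomial B ℂ)) :=
  aeval (fun j => if h : j ∈ B then C (algebraMap (MvPolynomial B ℂ) _ (X ⟨j, h⟩))
    else X ⟨j, h⟩)

variable {σ : Type} {B : Set σ}


lemma phi_X_mem {j : σ} (h : j ∈ B) :
    phi B (X j) = C (algebraMap (MvPolynomial B ℂ) (FractionRing (MvPolynomial B ℂ)) (X ⟨j, h⟩)) := by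
  simp [phi, h]

lemma phi_X_notMem {j : σ} (h : j ∉ B) : phi B (X j) = X ⟨j, h⟩ := by
  simp [phi, h]

lemma phi_C (a : ℂ) : phi B (C a) = C (algebraMap (MvPolynomial B ℂ) (FractionRing (MvPolynomial B ℂ)) (C a)) := by
  have h1 : phi B (C a) = algebraMap ℂ (MvPolynomial {j // j ∉ B} (FractionRing (MvPolynomial B ℂ))) a := (phi B).commutes a
  rw [h1, IsScalarTower.algebraMap_apply ℂ (FractionRing (MvPolynomial B ℂ)) (MvPolynomial {j // j ∉ B} (FractionRing (MvPolynomial B ℂ))), IsScalarTower.algebraMap_apply ℂ (MvPolynomial B ℂ) (FractionRing (MvPolynomial B ℂ))]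
  rfl

lemma phi_rename (a : (MvPolynomial B ℂ)) :
    phi B (rename Subtype.val a) = C (algebraMap (MvPolynomial B ℂ) (FractionRing (MvPolynomial B ℂ)) a) := by
  induction a using MvPolynomial.induction_on with
  | C a => rw [rename_C, phi_C]
  | add p q hp hq => rw [map_add, map_add, hp, hq, map_add, map_add]
  | mul_X p j hp =>
    rw [map_mul, map_mul, hp, rename_X, phi_X_mem j.2, map_mul, map_mul]

lemma exists_phi (g : (MvPolynomial {j // j ∉ B} (FractionRing (MvPolynomial B ℂ)))) : ∃ (a : (MvPolynomial B ℂ)) (r : MvPolynomial σ ℂ), a ≠ 0 ∧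
    C (algebraMap (MvPolynomial B ℂ) (FractionRing (MvPolynomial B ℂ)) a) * g = phi B r := by
  induction g using MvPolynomial.induction_on with
  | C k =>
    obtain ⟨⟨x, s⟩, h⟩ := IsLocalization.surj (nonZeroDivisors (MvPolynomial B ℂ)) k
    refine ⟨s, rename Subtype.val x, nonZeroDivisors.ne_zero s.2, ?_⟩
    rw [phi_rename, ← C_mul, mul_comm]
    exact congrArg C h
  | add p q hp hq =>
    obtain ⟨a1, r1, h1, e1⟩ := hp
    obtain ⟨a2, r2, h2, e2⟩ := hq
    refine ⟨a1 * a2, rename Subtype.val a2 * r1 + rename Subtype.val a1 * r2,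
      mul_ne_zero h1 h2, ?_⟩
    rw [map_add (phi B), map_mul (phi B), map_mul (phi B), ← e1, ← e2, phi_rename, phi_rename,
      map_mul, map_mul]
    ring
  | mul_X p j hp =>
    obtain ⟨a, r, h, e⟩ := hp
    refine ⟨a, r * X j.1, h, ?_⟩
    rw [map_mul (phi B), ← e, phi_X_notMem j.2]
    ring

lemma isUnit_C_algebraMap {a : (MvPolynomial B ℂ)} (ha : a ≠ 0) :
    IsUnit (C (algebraMap (MvPolynomial B ℂ) (FractionRing (MvPolynomial B ℂ)) a) : (MvPolynomial {j // j ∉ B} (FractionRing (MvPolynomial B ℂ)))) := by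
  apply IsUnit.map
  rw [isUnit_iff_ne_zero]
  intro h
  exact ha ((FaithfulSMul.algebraMap_injective (MvPolynomial B ℂ) (FractionRing (MvPolynomial B ℂ))) (by rw [h, map_zero]))

lemma phi_injective : Function.Injective (phi B) := by
  have hinj : Function.Injective ((algebraMap (MvPolynomial σ ℂ)
      (FractionRing (MvPolynomial σ ℂ))).comp
        ((rename (Subtype.val : B → σ) : (MvPolynomial B ℂ) →ₐ[ℂ] MvPolynomial σ ℂ) : (MvPolynomial B ℂ) →+* MvPolynomial σ ℂ)) := by
    intro x y h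
    exact rename_injective _ Subtype.val_injective
      (FaithfulSMul.algebraMap_injective _ (FractionRing (MvPolynomial σ ℂ)) h)
  let lam : (FractionRing (MvPolynomial B ℂ)) →+* FractionRing (MvPolynomial σ ℂ) := IsFractionRing.lift hinj
  let θ : (MvPolynomial {j // j ∉ B} (FractionRing (MvPolynomial B ℂ))) →+* FractionRing (MvPolynomial σ ℂ) := eval₂Hom lam
    (fun j => algebraMap (MvPolynomial σ ℂ) (FractionRing (MvPolynomial σ ℂ)) (X j))
  have hθ : ∀ f, θ (phi B f) = algebraMap (MvPolynomial σ ℂ)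
      (FractionRing (MvPolynomial σ ℂ)) f := by
    intro f
    induction f using MvPolynomial.induction_on with
    | C a =>
      rw [phi_C]
      simp only [θ, coe_eval₂Hom, eval₂_C, lam]
      rw [IsFractionRing.lift_algebraMap]
      simp
    | add p q hp hq => rw [map_add, map_add, hp, hq, map_add]
    | mul_X p j hp =>
      rw [map_mul, map_mul, hp, map_mul]
      by_cases hj : j ∈ B
      · rw [phi_X_mem hj]
        simp only [θ, coe_eval₂Hom, eval₂_C, lam]
        rw [IsFractionRing.lift_algebraMap]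
        simp
      · rw [phi_X_notMem hj]
        simp only [θ, coe_eval₂Hom, eval₂_X]
  intro f g hfg
  apply FaithfulSMul.algebraMap_injective (MvPolynomial σ ℂ) (FractionRing (MvPolynomial σ ℂ))
  rw [← hθ, ← hθ, hfg]

lemma mem_map_phi {I : Ideal (MvPolynomial σ ℂ)} {g : (MvPolynomial {j // j ∉ B} (FractionRing (MvPolynomial B ℂ)))} :
    g ∈ I.map (phi B : MvPolynomial σ ℂ →+* (MvPolynomial {j // j ∉ B} (FractionRing (MvPolynomial B ℂ)))) ↔
      ∃ (a : (MvPolynomial B ℂ)) (r : MvPolynomial σ ℂ), a ≠ 0 ∧ r ∈ I ∧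
        C (algebraMap (MvPolynomial B ℂ) (FractionRing (MvPolynomial B ℂ)) a) * g = phi B r := by
  constructor
  · intro hg
    refine Submodule.span_induction (hx := hg) ?_ ?_ ?_ ?_
    · rintro _ ⟨r, hr, rfl⟩
      exact ⟨1, r, one_ne_zero, hr, by simp⟩
    · exact ⟨1, 0, one_ne_zero, I.zero_mem, by simp⟩
    · rintro x y _ _ ⟨a1, r1, h1, hr1, e1⟩ ⟨a2, r2, h2, hr2, e2⟩
      refine ⟨a1 * a2, rename Subtype.val a2 * r1 + rename Subtype.val a1 * r2,
        mul_ne_zero h1 h2, I.add_mem (I.mul_mem_left _ hr1) (I.mul_mem_left _ hr2), ?_⟩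
      rw [map_add (phi B), map_mul (phi B), map_mul (phi B), ← e1, ← e2, phi_rename, phi_rename,
        map_mul, map_mul]
      ring
    · rintro h x _ ⟨a1, r1, h1, hr1, e1⟩
      obtain ⟨a2, r2, h2, e2⟩ := exists_phi h
      refine ⟨a2 * a1, r2 * r1, mul_ne_zero h2 h1, I.mul_mem_left _ hr1, ?_⟩
      rw [map_mul (phi B), ← e1, ← e2, map_mul, map_mul, smul_eq_mul]
      ring
  · rintro ⟨a, r, ha, hr, e⟩
    have h1 : C (algebraMap (MvPolynomial B ℂ) (FractionRing (MvPolynomial B ℂ)) a) * g ∈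
        I.map (phi B : MvPolynomial σ ℂ →+* (MvPolynomial {j // j ∉ B} (FractionRing (MvPolynomial B ℂ)))) := by
      rw [e]
      exact Ideal.mem_map_of_mem (phi B : MvPolynomial σ ℂ →+* (MvPolynomial {j // j ∉ B} (FractionRing (MvPolynomial B ℂ)))) hr
    obtain ⟨u, hu⟩ := isUnit_C_algebraMap ha
    rw [← hu] at h1
    have h2 := Ideal.mul_mem_left _ (↑u⁻¹ : (MvPolynomial {j // j ∉ B} (FractionRing (MvPolynomial B ℂ)))) h1
    simpa using h2

lemma exists_rename_of_mem_supported {f : MvPolynomial σ ℂ} (hf : f ∈ supported ℂ B) :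
    ∃ a : (MvPolynomial B ℂ), rename Subtype.val a = f := by
  rw [supported_eq_range_rename] at hf
  exact hf

lemma rename_mem_supported (a : (MvPolynomial B ℂ)) : rename Subtype.val a ∈ supported ℂ B := by
  rw [supported_eq_range_rename]
  exact ⟨a, rfl⟩

lemma rename_ne_zero {a : (MvPolynomial B ℂ)} (ha : a ≠ 0) : (rename Subtype.val a : MvPolynomial σ ℂ) ≠ 0 := by
  intro h
  apply ha
  apply rename_injective (Subtype.val : B → σ) Subtype.val_injective
  rw [h, map_zero]

/-- contraction of the extension of a saturated ideal -/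
lemma mem_of_phi_mem_map {I : Ideal (MvPolynomial σ ℂ)}
    (hI : ∀ f ∈ supported ℂ B, f ≠ 0 → ∀ g, f * g ∈ I → g ∈ I) {g : MvPolynomial σ ℂ}
    (hg : phi B g ∈ I.map (phi B : MvPolynomial σ ℂ →+* (MvPolynomial {j // j ∉ B} (FractionRing (MvPolynomial B ℂ))))) : g ∈ I := by
  obtain ⟨a, r, ha, hr, e⟩ := mem_map_phi.mp hg
  rw [← phi_rename, ← map_mul] at e
  have h1 := phi_injective e
  exact hI _ (rename_mem_supported a) (rename_ne_zero ha) g (by rw [h1]; exact hr)

lemma indep_comap {Q : Ideal (MvPolynomial {j // j ∉ B} (FractionRing (MvPolynomial B ℂ)))} (hQ : Q ≠ ⊤) :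
    Indep (Q.comap (phi B : MvPolynomial σ ℂ →+* (MvPolynomial {j // j ∉ B} (FractionRing (MvPolynomial B ℂ))))) B := by
  intro f hf hfQ
  obtain ⟨a, rfl⟩ := exists_rename_of_mem_supported hf
  by_contra h0
  have ha : a ≠ 0 := fun h => h0 (by rw [h, map_zero])
  apply hQ
  rw [Ideal.mem_comap] at hfQ
  have h1 : C (algebraMap (MvPolynomial B ℂ) (FractionRing (MvPolynomial B ℂ)) a) ∈ Q := by
    rw [← phi_rename]; exact hfQ
  exact Ideal.eq_top_of_isUnit_mem Q h1 (isUnit_C_algebraMap ha)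

/-- monic polynomials in each variable -/
lemma exists_monic {Q : Ideal (MvPolynomial {j // j ∉ B} (FractionRing (MvPolynomial B ℂ)))} (j : {j // j ∉ B})
    (h : ¬ Indep (Q.comap (phi B : MvPolynomial σ ℂ →+* (MvPolynomial {j // j ∉ B} (FractionRing (MvPolynomial B ℂ))))) (insert j.1 B)) :
    ∃ g : Polynomial (FractionRing (MvPolynomial B ℂ)), g.Monic ∧ Polynomial.aeval (X j : (MvPolynomial {j // j ∉ B} (FractionRing (MvPolynomial B ℂ)))) g ∈ Q := by
  unfold Indep at h
  push Not at h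
  obtain ⟨f, hf, hfQ, hf0⟩ := h
  have h1 : ∃ F : Polynomial (FractionRing (MvPolynomial B ℂ)), Polynomial.aeval (X j : (MvPolynomial {j // j ∉ B} (FractionRing (MvPolynomial B ℂ)))) F = phi B f := by
    rw [supported] at hf
    refine Algebra.adjoin_induction (hx := hf) ?_ ?_ ?_ ?_
    · rintro _ ⟨i, hi, rfl⟩
      rcases hi with rfl | hi
      · refine ⟨Polynomial.X, ?_⟩
        rw [Polynomial.aeval_X, phi_X_notMem j.2]
      · refine ⟨Polynomial.C (algebraMap (MvPolynomial B ℂ) (FractionRing (MvPolynomial B ℂ)) (X ⟨i, hi⟩)), ?_⟩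
        rw [Polynomial.aeval_C, phi_X_mem hi]
        rfl
    · intro r
      refine ⟨Polynomial.C (algebraMap (MvPolynomial B ℂ) (FractionRing (MvPolynomial B ℂ)) (C r)), ?_⟩
      rw [Polynomial.aeval_C]
      exact (phi_C r).symm
    · rintro x y _ _ ⟨F1, h1⟩ ⟨F2, h2⟩
      exact ⟨F1 + F2, by rw [map_add, map_add, h1, h2]⟩
    · rintro x y _ _ ⟨F1, h1⟩ ⟨F2, h2⟩
      exact ⟨F1 * F2, by rw [map_mul, map_mul, h1, h2]⟩
  obtain ⟨F, hF⟩ := h1
  have hF0 : F ≠ 0 := by
    rintro rfl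
    apply hf0
    apply phi_injective (B := B)
    rw [← hF, map_zero, map_zero]
  refine ⟨F * Polynomial.C F.leadingCoeff⁻¹, Polynomial.monic_mul_leadingCoeff_inv hF0, ?_⟩
  rw [map_mul, hF]
  exact Ideal.mul_mem_right _ _ hfQ

/-! ### box degrees -/

lemma phi_mem_box [Fintype σ] [DecidableEq σ] {L : σ → ℕ} {n : ℕ} {f : MvPolynomial σ ℂ}
    (hf : f ∈ box ℂ L n) : phi B f ∈ box (FractionRing (MvPolynomial B ℂ)) (fun j : {j // j ∉ B} => L j.1) n := by
  classical
  refine box_map_mem (phi B : MvPolynomial σ ℂ →+* (MvPolynomial {j // j ∉ B} (FractionRing (MvPolynomial B ℂ)))).toAddMonoidHom (fun m hm a => ?_) hf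
  change phi B (monomial m a) ∈ _
  rw [mem_box]
  have key : ∀ i : {j // j ∉ B}, degreeOf i (phi B (monomial m a)) ≤ m i.1 := by
    intro i
    rw [monomial_eq, map_mul, phi_C]
    refine (degreeOf_C_mul_le _ _ _).trans ?_
    rw [Finsupp.prod, map_prod]
    refine (degreeOf_prod_le _ _ _).trans ?_
    have h1 : ∀ j ∈ m.support, degreeOf i (phi B (X j ^ m j)) ≤ if i.1 = j then m j else 0 := by
      intro j _
      rw [map_pow]
      refine (degreeOf_pow_le _ _ _).trans ?_
      by_cases hj : j ∈ B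
      · rw [phi_X_mem hj, degreeOf_C, mul_zero]
        exact Nat.zero_le _
      · rw [phi_X_notMem hj, degreeOf_X]
        by_cases hij : i = ⟨j, hj⟩
        · have : i.1 = j := by rw [hij]
          rw [if_pos hij, if_pos this, mul_one]
        · rw [if_neg hij, mul_zero]
          exact Nat.zero_le _
    refine (Finset.sum_le_sum h1).trans ?_
    rw [Finset.sum_ite_eq]
    split_ifs
    · exact le_rfl
    · exact Nat.zero_le _
  intro m' hm' j
  exact ((degreeOf_le_iff.mp (key j)) m' hm').trans (hm j.1)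

end Pool.Agent.H364R2
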