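import Pool.Agent.H364R2.Loc
import Pool.Agent.H364R2.Chain

open MvPolynomial

namespace Pool.Agent.H364R2

variable {σ : Type} {B : Set σ}


/-- a prime in which each variable satisfies a monic equation is maximal -/
lemma isMaximal_of_monic {Q : Ideal (MvPolynomial {j // j ∉ B} (FractionRing (MvPolynomial B ℂ)))} (hQ : Q.IsPrime)
    (h : ∀ j, ∃ g : Polynomial (FractionRing (MvPolynomial B ℂ)), g.Monic ∧ Polynomial.aeval (X j : (MvPolynomial {j // j ∉ B} (FractionRing (MvPolynomial B ℂ)))) g ∈ Q) :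
    Q.IsMaximal := by
  have hint : Algebra.IsIntegral (FractionRing (MvPolynomial B ℂ)) ((MvPolynomial {j // j ∉ B} (FractionRing (MvPolynomial B ℂ))) ⧸ Q) := by
    refine ⟨fun y => ?_⟩
    obtain ⟨g, rfl⟩ := Ideal.Quotient.mk_surjective y
    induction g using MvPolynomial.induction_on with
    | C a => exact isIntegral_algebraMap (R := (FractionRing (MvPolynomial B ℂ))) (A := (MvPolynomial {j // j ∉ B} (FractionRing (MvPolynomial B ℂ))) ⧸ Q) (x := a)
    | add p q hp hq =>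
      rw [map_add]
      exact @IsIntegral.add (FractionRing (MvPolynomial B ℂ)) ((MvPolynomial {j // j ∉ B} (FractionRing (MvPolynomial B ℂ))) ⧸ Q) _ (Ideal.Quotient.commRing Q) _ _ _ hp hq
    | mul_X p j hp =>
      rw [map_mul]
      refine @IsIntegral.mul (FractionRing (MvPolynomial B ℂ)) ((MvPolynomial {j // j ∉ B} (FractionRing (MvPolynomial B ℂ))) ⧸ Q) _ (Ideal.Quotient.commRing Q) _ _ _ hp ?_
      obtain ⟨g, hg, hgQ⟩ := h j
      refine ⟨g, hg, ?_⟩
      have h1 : Polynomial.aeval (Ideal.Quotient.mkₐ (FractionRing (MvPolynomial B ℂ)) Q (X j : (MvPolynomial {j // j ∉ B} (FractionRing (MvPolynomial B ℂ))))) g =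
          Ideal.Quotient.mkₐ (FractionRing (MvPolynomial B ℂ)) Q (Polynomial.aeval (X j : (MvPolynomial {j // j ∉ B} (FractionRing (MvPolynomial B ℂ)))) g) :=
        Polynomial.aeval_algHom_apply _ _ _
      have h2 : Ideal.Quotient.mkₐ (FractionRing (MvPolynomial B ℂ)) Q (Polynomial.aeval (X j : (MvPolynomial {j // j ∉ B} (FractionRing (MvPolynomial B ℂ)))) g) = 0 := by
        rw [Ideal.Quotient.mkₐ_eq_mk]
        exact Ideal.Quotient.eq_zero_iff_mem.mpr hgQ
      rw [h2] at h1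
      exact h1
  have hfield : IsField ((MvPolynomial {j // j ∉ B} (FractionRing (MvPolynomial B ℂ))) ⧸ Q) :=
    isField_of_isIntegral_of_isField' (R := (FractionRing (MvPolynomial B ℂ))) (S := (MvPolynomial {j // j ∉ B} (FractionRing (MvPolynomial B ℂ))) ⧸ Q) (Field.toIsField (FractionRing (MvPolynomial B ℂ)))
  exact Ideal.Quotient.maximal_of_isField Q hfield

lemma sat_of_indep {P : Ideal (MvPolynomial σ ℂ)} (hB : Indep P B)
    (f : MvPolynomial σ ℂ) (hf : f ∈ supported ℂ B) (hf0 : f ≠ 0) : f ∉ P :=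
  fun h => hf0 (hB f hf h)

lemma prime_map {P : Ideal (MvPolynomial σ ℂ)} (hP : P.IsPrime) (hB : Indep P B) :
    (P.map (phi B : MvPolynomial σ ℂ →+* (MvPolynomial {j // j ∉ B} (FractionRing (MvPolynomial B ℂ))))).IsPrime := by
  have hsat : ∀ f ∈ supported ℂ B, f ≠ 0 → ∀ g, f * g ∈ P → g ∈ P := fun f hf hf0 g hg =>
    (hP.mem_or_mem hg).resolve_left (sat_of_indep hB f hf hf0)
  constructor
  · intro h
    apply hP.ne_top
    rw [Ideal.eq_top_iff_one]
    apply mem_of_phi_mem_map hsat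
    rw [h]
    exact Submodule.mem_top
  · intro x y hxy
    obtain ⟨a1, r1, h1, e1⟩ := exists_phi x
    obtain ⟨a2, r2, h2, e2⟩ := exists_phi y
    have h3 : phi B (r1 * r2) ∈ P.map (phi B : MvPolynomial σ ℂ →+* (MvPolynomial {j // j ∉ B} (FractionRing (MvPolynomial B ℂ)))) := by
      rw [map_mul, ← e1, ← e2]
      have : C (algebraMap (MvPolynomial B ℂ) (FractionRing (MvPolynomial B ℂ)) a1) * x *
          (C (algebraMap (MvPolynomial B ℂ) (FractionRing (MvPolynomial B ℂ)) a2) * y) =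
          (C (algebraMap (MvPolynomial B ℂ) (FractionRing (MvPolynomial B ℂ)) a1) * C (algebraMap (MvPolynomial B ℂ) (FractionRing (MvPolynomial B ℂ)) a2)) *
            (x * y) := by ring
      rw [this]
      exact Ideal.mul_mem_left _ _ hxy
    rcases hP.mem_or_mem (mem_of_phi_mem_map hsat h3) with h4 | h4
    · left; exact mem_map_phi.mpr ⟨a1, r1, h1, h4, e1⟩
    · right; exact mem_map_phi.mpr ⟨a2, r2, h2, h4, e2⟩

lemma comap_map_phi {P : Ideal (MvPolynomial σ ℂ)} (hP : P.IsPrime) (hB : Indep P B) :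
    (P.map (phi B : MvPolynomial σ ℂ →+* (MvPolynomial {j // j ∉ B} (FractionRing (MvPolynomial B ℂ))))).comap (phi B : MvPolynomial σ ℂ →+* (MvPolynomial {j // j ∉ B} (FractionRing (MvPolynomial B ℂ)))) = P := by
  have hsat : ∀ f ∈ supported ℂ B, f ≠ 0 → ∀ g, f * g ∈ P → g ∈ P := fun f hf hf0 g hg =>
    (hP.mem_or_mem hg).resolve_left (sat_of_indep hB f hf hf0)
  apply le_antisymm
  · intro g hg
    exact mem_of_phi_mem_map hsat hg
  · exact Ideal.le_comap_map

lemma maximal_map {P : Ideal (MvPolynomial σ ℂ)} (hP : P.IsPrime) (hB : Indep P B)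
    (hd : ∀ j ∉ B, ¬ Indep P (insert j B)) :
    (P.map (phi B : MvPolynomial σ ℂ →+* (MvPolynomial {j // j ∉ B} (FractionRing (MvPolynomial B ℂ))))).IsMaximal := by
  apply isMaximal_of_monic (prime_map hP hB)
  intro j
  apply exists_monic
  rw [comap_map_phi hP hB]
  exact hd j.1 j.2

lemma coprime_V {P P' : Ideal (MvPolynomial σ ℂ)} (add : σ → Bool) {l : ℕ} (W : Fin l → σ → ℂ)
    (hP : P.IsPrime) (hB : Indep P B)
    (hd : ∀ j ∉ B, ¬ Indep P (insert j B)) (hP' : P'.IsPrime) (hB' : Indep P' B)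
    (hd' : ∀ j ∉ B, ¬ Indep P' (insert j B)) (hne : P ≠ P') (m : ℕ) :
    IsCoprime ((V add W P m).map (phi B : MvPolynomial σ ℂ →+* (MvPolynomial {j // j ∉ B} (FractionRing (MvPolynomial B ℂ)))))
      ((V add W P' m).map (phi B : MvPolynomial σ ℂ →+* (MvPolynomial {j // j ∉ B} (FractionRing (MvPolynomial B ℂ))))) := by
  have h1 := maximal_map hP hB hd
  have h2 := maximal_map hP' hB' hd'
  have hne' : P.map (phi B : MvPolynomial σ ℂ →+* (MvPolynomial {j // j ∉ B} (FractionRing (MvPolynomial B ℂ)))) ≠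
      P'.map (phi B : MvPolynomial σ ℂ →+* (MvPolynomial {j // j ∉ B} (FractionRing (MvPolynomial B ℂ)))) := by
    intro h
    apply hne
    rw [← comap_map_phi hP hB, ← comap_map_phi hP' hB', h]
  have h3 : IsCoprime (P.map (phi B : MvPolynomial σ ℂ →+* (MvPolynomial {j // j ∉ B} (FractionRing (MvPolynomial B ℂ)))))
      (P'.map (phi B : MvPolynomial σ ℂ →+* (MvPolynomial {j // j ∉ B} (FractionRing (MvPolynomial B ℂ))))) := by
    rw [Ideal.isCoprime_iff_sup_eq]
    exact Ideal.IsMaximal.coprime_of_ne h1 h2 hne'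
  have h4 : IsCoprime ((P.map (phi B : MvPolynomial σ ℂ →+* (MvPolynomial {j // j ∉ B} (FractionRing (MvPolynomial B ℂ))))) ^ m)
      ((P'.map (phi B : MvPolynomial σ ℂ →+* (MvPolynomial {j // j ∉ B} (FractionRing (MvPolynomial B ℂ))))) ^ m) := IsCoprime.pow h3
  rw [Ideal.isCoprime_iff_sup_eq] at h4 ⊢
  rw [← top_le_iff, ← h4, ← Ideal.map_pow, ← Ideal.map_pow]
  exact sup_le_sup (Ideal.map_mono (pow_le_V add W m)) (Ideal.map_mono (pow_le_V add W m))

lemma phi_mem_map {I : Ideal (MvPolynomial σ ℂ)} {g : MvPolynomial σ ℂ} (hg : g ∈ I) :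
    phi B g ∈ I.map (phi B : MvPolynomial σ ℂ →+* (MvPolynomial {j // j ∉ B} (FractionRing (MvPolynomial B ℂ)))) :=
  mem_map_phi.mpr ⟨1, g, one_ne_zero, hg, by simp⟩

/-- the multiplicity estimate -/
theorem mult_bound [Fintype σ] [DecidableEq σ] (add : σ → Bool) {l : ℕ} (W : Fin l → σ → ℂ)
    (B : Set σ) [DecidablePred (· ∈ B)] (L : σ → ℕ) (hL : ∀ j, 1 ≤ L j)
    (S : Submodule ℂ (MvPolynomial σ ℂ)) (hS : ∀ f ∈ S, f ∈ box ℂ L 1)
    (hdim : ∀ Q, GPrime add Q → (∀ f ∈ S, f ∈ Q) → Indep Q B → ∀ j ∉ B, ¬ Indep Q (insert j B))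
    {Γ : Type*} [Fintype Γ] (P : Γ → Ideal (MvPolynomial σ ℂ)) (hP : ∀ γ, GPrime add (P γ))
    (hB : ∀ γ, Indep (P γ) B) (hinj : Function.Injective P)
    (T : ℕ) (hV : ∀ γ, ∀ f ∈ S, f ∈ V add W (P γ) (T + 1))
    (f : Γ → Fin l → MvPolynomial σ ℂ) (hf : ∀ γ k, f γ k ∈ P γ)
    (hf1 : ∀ γ k, der add (W k) (f γ k) ∉ P γ)
    (hf2 : ∀ γ k k', k ≠ k' → der add (W k) (f γ k') ∈ P γ) :
    Fintype.card Γ * (T / l + 1) ^ l ≤
      2 ^ ((Fintype.card {j // j ∉ B} + 1) * Fintype.card {j // j ∉ B}) *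
        ∏ j : {j // j ∉ B}, L j.1 := by
  classical
  have hSP : ∀ γ, ∀ f ∈ S, f ∈ P γ := fun γ f hf => V_succ_le add W T (hV γ f hf)
  have hd : ∀ γ, ∀ j ∉ B, ¬ Indep (P γ) (insert j B) := fun γ => hdim _ (hP γ) (hSP γ) (hB γ)
  let x' : MvPolynomial σ ℂ := ∏ j : {j // j ∉ B}, (if add j.1 then 1 else X j.1)
  let x : MvPolynomial {j // j ∉ B} (FractionRing (MvPolynomial B ℂ)) :=
    ∏ j : {j // j ∉ B}, (if add j.1 then 1 else X j)
  have hx : x = phi B x' := by
    simp only [x, x']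
    rw [map_prod]
    apply Finset.prod_congr rfl
    intro j _
    split_ifs
    · rw [map_one]
    · rw [phi_X_notMem j.2]
  have hx' : ∀ γ, x' ∉ P γ := by
    intro γ h
    have := (Ideal.IsPrime.prod_mem_iff (hp := (hP γ).1)).mp h
    obtain ⟨j, -, hj⟩ := this
    split_ifs at hj with h1
    · exact (hP γ).1.ne_top ((Ideal.eq_top_iff_one _).mpr hj)
    · exact (hP γ).2 j.1 (by simpa using h1) hj
  have hsat : ∀ γ, ∀ f ∈ supported ℂ B, f ≠ 0 → ∀ g, f * g ∈ V add W (P γ) (T + 1) →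
      g ∈ V add W (P γ) (T + 1) := fun γ f hf hf0 g hg =>
    V_sat add W (hP γ).1 (sat_of_indep (hB γ) f hf hf0) hg
  have hcard : Fintype.card (Fin l → Fin (T / l + 1)) = (T / l + 1) ^ l := by
    rw [Fintype.card_fun, Fintype.card_fin, Fintype.card_fin]
  rw [← hcard]
  refine bezout_main (K := FractionRing (MvPolynomial B ℂ)) (k := ℂ)
    (fun j : {j // j ∉ B} => L j.1) (fun j => hL j.1) x
    (S.map (phi B : MvPolynomial σ ℂ →ₐ[ℂ] _).toLinearMap) ?_ ?_
    (fun γ => (V add W (P γ) (T + 1)).map (phi B : MvPolynomial σ ℂ →+* _)) ?_ ?_ ?_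
    (fun γ a => phi B (∏ k, f γ k ^ (a k : ℕ))) ?_
  · rintro _ ⟨g, hg, rfl⟩
    exact phi_mem_box (hS g hg)
  · intro Q hQ hSQ hxQ j
    have hI := indep_comap (B := B) hQ.ne_top
    have hG : GPrime add (Q.comap (phi B : MvPolynomial σ ℂ →+* _)) := by
      refine ⟨Ideal.IsPrime.comap _, fun i hi h => ?_⟩
      by_cases hiB : i ∈ B
      · have := hI (X i) (Algebra.subset_adjoin ⟨i, hiB, rfl⟩) h
        exact X_ne_zero i this
      · rw [Ideal.mem_comap] at h
        have h1 : (X ⟨i, hiB⟩ : MvPolynomial {j // j ∉ B} (FractionRing (MvPolynomial B ℂ))) ∈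
            Q := by
          rw [← phi_X_notMem hiB]; exact h
        apply hxQ
        refine (Ideal.IsPrime.prod_mem_iff (hp := hQ)).mpr ⟨⟨i, hiB⟩, Finset.mem_univ _, ?_⟩
        rw [if_neg (by simp [hi])]
        exact h1
    apply exists_monic
    refine hdim _ hG ?_ hI j.1 j.2
    intro g hg
    rw [Ideal.mem_comap]
    exact hSQ _ ⟨g, hg, rfl⟩
  · rintro γ _ ⟨g, hg, rfl⟩
    exact phi_mem_map (hV γ g hg)
  · intro γ g hg
    obtain ⟨a, r, ha, e⟩ := exists_phi g
    refine mem_map_phi.mpr ⟨a, r, ha, ?_, e⟩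
    apply V_sat add W (hP γ).1 (hx' γ)
    apply mem_of_phi_mem_map (hsat γ)
    rw [map_mul, ← hx, ← e, mul_left_comm]
    exact Ideal.mul_mem_left _ _ hg
  · intro γ γ' hne
    exact coprime_V add W (hP γ).1 (hB γ) (hd γ) (hP γ').1 (hB γ') (hd γ')
      (fun h => hne (hinj h)) (T + 1)
  · intro γ
    rw [Fintype.linearIndependent_iff]
    intro c hc a0
    obtain ⟨b, hb⟩ := IsLocalization.exist_integer_multiples_of_finite
      (nonZeroDivisors (MvPolynomial B ℂ)) c
    choose c' hc' using hb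
    have hb0 : (b : MvPolynomial B ℂ) ≠ 0 := nonZeroDivisors.ne_zero b.2
    have h1 : phi B (∑ a : Fin l → Fin (T / l + 1), rename Subtype.val (c' a) *
        ∏ k, f γ k ^ (a k : ℕ)) ∈ (V add W (P γ) (T + 1)).map
          (phi B : MvPolynomial σ ℂ →+* _) := by
      have h2 : phi B (∑ a : Fin l → Fin (T / l + 1), rename Subtype.val (c' a) *
        ∏ k, f γ k ^ (a k : ℕ)) = C (algebraMap (MvPolynomial B ℂ)
          (FractionRing (MvPolynomial B ℂ)) b) *
          ∑ a : Fin l → Fin (T / l + 1), C (c a) * phi B (∏ k, f γ k ^ (a k : ℕ)) := by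
        rw [map_sum, Finset.mul_sum]
        apply Finset.sum_congr rfl
        intro a _
        rw [map_mul, phi_rename, hc' a, ← mul_assoc, ← C_mul, Algebra.smul_def]
      rw [h2]
      apply Ideal.mul_mem_left
      rw [← Ideal.Quotient.eq_zero_iff_mem, map_sum, ← hc]
      apply Finset.sum_congr rfl
      intro a _
      rw [← MvPolynomial.smul_eq_C_mul]
      rfl
    have h3 := mem_of_phi_mem_map (hsat γ) h1
    let em : (Fin l → Fin (T / l + 1)) ↪ (Fin l → ℕ) :=
      ⟨fun a k => (a k : ℕ), fun a a' h => by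
        funext k; exact Fin.ext (congrFun h k)⟩
    let cc : (Fin l → ℕ) → MvPolynomial σ ℂ := fun v =>
      if h : ∀ k, v k < T / l + 1 then rename Subtype.val (c' (fun k => ⟨v k, h k⟩)) else 0
    have hcc : ∀ a, cc (em a) = rename Subtype.val (c' a) := by
      intro a
      have : ∀ k, em a k < T / l + 1 := fun k => (a k).2
      simp only [cc]
      rw [dif_pos this]
      rfl
    have h4 : ∑ v ∈ Finset.univ.map em, cc v * ∏ k, f γ k ^ v k ∈ V add W (P γ) (T + 1) := by
      rw [Finset.sum_map]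
      convert h3 using 1
      apply Finset.sum_congr rfl
      intro a _
      rw [hcc]
      rfl
    have h5 := V_indep add W (P γ) (hP γ).1 (f γ) (hf γ) (hf1 γ) (hf2 γ) (hB γ) T
      (Finset.univ.map em) cc (by
        intro v hv
        obtain ⟨a, -, rfl⟩ := Finset.mem_map.mp hv
        rw [hcc]
        exact rename_mem_supported _) (by
        intro v hv
        obtain ⟨a, -, rfl⟩ := Finset.mem_map.mp hv
        calc ∑ k, em a k ≤ ∑ _k : Fin l, T / l := Finset.sum_le_sum (fun k _ => by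
              have : (a k : ℕ) < T / l + 1 := (a k).2
              change (a k : ℕ) ≤ T / l
              omega)
          _ = l * (T / l) := by simp
          _ ≤ T := Nat.mul_div_le T l) h4 (em a0) (Finset.mem_map_of_mem em (Finset.mem_univ _))
    rw [hcc] at h5
    have h6 : c' a0 = 0 := by
      by_contra h
      exact rename_ne_zero h h5
    have h7 := hc' a0
    rw [h6, map_zero, Algebra.smul_def] at h7
    have h8 : algebraMap (MvPolynomial B ℂ) (FractionRing (MvPolynomial B ℂ)) b ≠ 0 := by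
      intro h
      exact hb0 ((FaithfulSMul.algebraMap_injective (MvPolynomial B ℂ)
        (FractionRing (MvPolynomial B ℂ))) (by rw [h, map_zero]))
    exact (mul_eq_zero.mp h7.symm).resolve_left h8

end Pool.Agent.H364R2
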