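import Pool.Agent.H364R2.N1ZE
import Pool.Agent.H301R2.TR.N1

namespace Pool.Agent.H364R2

open Pool.Agent.H301R2.TR

theorem ze1 : ZE1 := by
  obtain ⟨c, hc, h⟩ := N1Est.zero_estimate_N1
  exact ⟨c, hc, h⟩

/-- `π e`, `e ^ e` and `π ^ e` are not all algebraic -/
theorem N1 : ¬ (IsAlgebraic ℚ (Real.pi * Real.exp 1) ∧
    IsAlgebraic ℚ (Real.exp 1 ^ Real.exp 1) ∧ IsAlgebraic ℚ (Real.pi ^ Real.exp 1)) :=
  N1_of_ZE1 ze1

end Pool.Agent.H364R2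

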