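import Pool.Agent.H364R2.N1Est

open MvPolynomial

namespace Pool.Agent.H364R2.N1Est

open Pool.Agent.H364R2 Pool.Agent.H340R2.Stab

variable {A D r q : ℂ} {P : Ideal (MvPolynomial (Fin 4) ℂ)}

lemma der_eq_zero_of_supported {σ : Type} (add : σ → Bool) (w : σ → ℂ) {B : Set σ}
    (hw : ∀ j ∈ B, w j = 0) {f : MvPolynomial σ ℂ} (hf : f ∈ supported ℂ B) :
    der add w f = 0 := by
  rw [supported] at hf
  refine Algebra.adjoin_induction (hx := hf) ?_ ?_ ?_ ?_
  · rintro _ ⟨j, hj, rfl⟩
    rw [der_X, hw j hj]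
    split_ifs <;> simp
  · intro r
    rw [(der add w).map_algebraMap]
  · intro x y _ _ hx hy
    rw [map_add, hx, hy, add_zero]
  · intro x y hx' hy' hx hy
    rw [Derivation.leibniz, hx, hy, smul_zero, smul_zero, add_zero]

/-- two transversal elements -/
lemma tr2 (hP : GPrime ad P) (h02 : ¬ Indep P ({0, 2} : Set (Fin 4)))
    (h13 : ¬ Indep P ({1, 3} : Set (Fin 4))) :
    ∃ f : Fin 2 → MvPolynomial (Fin 4) ℂ, (∀ k, f k ∈ P) ∧ (∀ k, der ad (WW k) (f k) ∉ P) ∧
      (∀ k k', k ≠ k' → der ad (WW k) (f k') ∈ P) := by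
  obtain ⟨f0, hf0s, hf0P, k, hk, hf0⟩ := exists_der_notMem ad WW P hP {0, 2} {0} (by
      intro j hj hadj
      have hj' : j = 0 ∨ j = 2 := by simpa using hj
      rcases hj' with rfl | rfl
      · refine ⟨0, by simp, by simp [WW], ?_⟩
        intro j' hj' ha' hne
        have hj'' : j' = 0 ∨ j' = 2 := by simpa using hj'
        rcases hj'' with rfl | rfl
        · exact absurd rfl hne
        · simp [ad] at ha'
      · simp [ad] at hadj) (by
      intro b hb hsum
      have h1 := hsum 0 (by simp)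
      rw [Fin.sum_univ_four] at h1
      have h0 : b 0 = 0 := hb 0 (Or.inr (by simp [ad]))
      have h1' : b 1 = 0 := hb 1 (Or.inr (by simp [ad]))
      have h3' : b 3 = 0 := hb 3 (Or.inl (by simp))
      simp [WW, h0, h1', h3'] at h1
      intro j
      fin_cases j
      · exact h0
      · exact h1'
      · exact h1
      · exact h3') h02
  obtain ⟨f1, hf1s, hf1P, k1, hk1, hf1⟩ := exists_der_notMem ad WW P hP {1, 3} {1} (by
      intro j hj hadj
      have hj' : j = 1 ∨ j = 3 := by simpa using hj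
      rcases hj' with rfl | rfl
      · refine ⟨1, by simp, by simp [WW], ?_⟩
        intro j' hj' ha' hne
        have hj'' : j' = 1 ∨ j' = 3 := by simpa using hj'
        rcases hj'' with rfl | rfl
        · exact absurd rfl hne
        · simp [ad] at ha'
      · simp [ad] at hadj) (by
      intro b hb hsum
      have h1 := hsum 1 (by simp)
      rw [Fin.sum_univ_four] at h1
      have h0 : b 0 = 0 := hb 0 (Or.inr (by simp [ad]))
      have h1' : b 1 = 0 := hb 1 (Or.inr (by simp [ad]))
      have h2' : b 2 = 0 := hb 2 (Or.inl (by simp))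
      simp [WW, h0, h1', h2'] at h1
      intro j
      fin_cases j
      · exact h0
      · exact h1'
      · exact h2'
      · exact h1) h13
  have hk' : k = 0 := by simpa using hk
  have hk1' : k1 = 1 := by simpa using hk1
  subst hk' hk1'
  refine ⟨![f0, f1], ?_, ?_, ?_⟩
  · intro k
    fin_cases k
    · exact hf0P
    · exact hf1P
  · intro k
    fin_cases k
    · exact hf0
    · exact hf1
  · intro k k' hne
    fin_cases k <;> fin_cases k'
    · exact absurd rfl hne
    · change der ad (WW 0) f1 ∈ P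
      rw [der_eq_zero_of_supported ad (WW 0) (B := {1, 3}) _ hf1s]
      · exact P.zero_mem
      · intro j hj
        have hj' : j = 1 ∨ j = 3 := by simpa using hj
        rcases hj' with rfl | rfl <;> simp [WW]
    · change der ad (WW 1) f0 ∈ P
      rw [der_eq_zero_of_supported ad (WW 1) (B := {0, 2}) _ hf0s]
      · exact P.zero_mem
      · intro j hj
        have hj' : j = 0 ∨ j = 2 := by simpa using hj
        rcases hj' with rfl | rfl <;> simp [WW]
    · exact absurd rfl hne

/-- one transversal element -/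
lemma tr1 (hP : GPrime ad P) (hu : ¬ Indep P (Set.univ : Set (Fin 4))) :
    ∃ (k : Fin 2), ∃ f ∈ P, der ad (WW k) f ∉ P := by
  obtain ⟨f0, -, hf0P, k, -, hf0⟩ := exists_der_notMem ad WW P hP Set.univ Finset.univ (by
      intro j _ hadj
      fin_cases j
      · refine ⟨0, by simp, by simp [WW], ?_⟩
        intro j' _ ha' hne
        fin_cases j'
        · exact absurd rfl hne
        · simp [WW]
        · simp [ad] at ha'
        · simp [ad] at ha'
      · refine ⟨1, by simp, by simp [WW], ?_⟩
        intro j' _ ha' hne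
        fin_cases j'
        · simp [WW]
        · exact absurd rfl hne
        · simp [ad] at ha'
        · simp [ad] at ha'
      · simp [ad] at hadj
      · simp [ad] at hadj) (by
      intro b hb hsum
      have h0 : b 0 = 0 := hb 0 (Or.inr (by simp [ad]))
      have h1' : b 1 = 0 := hb 1 (Or.inr (by simp [ad]))
      have h1 := hsum 0 (by simp)
      have h2 := hsum 1 (by simp)
      rw [Fin.sum_univ_four] at h1 h2
      simp [WW, h0, h1'] at h1 h2
      intro j
      fin_cases j
      · exact h0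
      · exact h1'
      · exact h1
      · exact h2) hu
  exact ⟨k, f0, hf0P, hf0⟩

/-- product over a complement -/
lemma prodL (K M : ℕ) (B : Finset (Fin 4)) :
    ∏ j ∈ Finset.univ \ B, (![K, K, M, M] : Fin 4 → ℕ) j =
      (if 0 ∈ B then 1 else K) * (if 1 ∈ B then 1 else K) * (if 2 ∈ B then 1 else M) *
        (if 3 ∈ B then 1 else M) := by
  have h1 : ∏ j ∈ Finset.univ \ B, (![K, K, M, M] : Fin 4 → ℕ) j =
      ∏ j, (if j ∈ B then 1 else (![K, K, M, M] : Fin 4 → ℕ) j) := by
    rw [Finset.prod_ite]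
    simp only [Finset.prod_const_one, one_mul]
    apply Finset.prod_congr
    · ext j; simp
    · intros; rfl
  rw [h1, Fin.prod_univ_four]
  rfl

/-- the box of indices -/
def bx (S : ℕ) : Finset (ℕ × ℕ × ℕ) :=
  Finset.range (S + 1) ×ˢ (Finset.range (S + 1) ×ˢ Finset.range (S + 1))

noncomputable def ptn (A D r q : ℂ) (s : ℕ × ℕ × ℕ) : Fin 4 → ℂ :=
  pt A D r q (s.1 : ℤ) (s.2.1 : ℤ) (s.2.2 : ℤ)

open Classical in
noncomputable def G1 (A D r q : ℂ) (S : ℕ) : Finset (Fin 4 → ℂ) := (bx S).image (ptn A D r q)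

open Classical in
/-- the counting inequality -/
lemma count (h : Hyp A D r q) {S : ℕ} (I : Finset (ℕ × ℕ × ℕ)) (hI : I ⊆ bx S)
    (hst : ∀ s ∈ I, ∀ s' ∈ I, s ≠ s' →
      ¬ St A D r q P ((s.1 : ℤ) - s'.1) ((s.2.1 : ℤ) - s'.2.1) ((s.2.2 : ℤ) - s'.2.2)) :
    ∃ Δ : Finset (Fin 4 → ℂ), Δ ⊆ G1 A D r q S ∧ Δ.card = I.card ∧
      ∀ g ∈ Δ, ∀ g' ∈ Δ, trI ad g P = trI ad g' P → g = g' := by
  refine ⟨I.image (ptn A D r q), Finset.image_subset_image hI, ?_, ?_⟩
  · apply Finset.card_image_of_injOn
    intro s hs s' hs' he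
    by_contra hne
    exact hst s hs s' hs' hne (st_of_eq h (by
      change trI ad (ptn A D r q s) P = trI ad (ptn A D r q s') P
      rw [he]))
  · intro g hg g' hg' he
    obtain ⟨s, hs, rfl⟩ := Finset.mem_image.mp hg
    obtain ⟨s', hs', rfl⟩ := Finset.mem_image.mp hg'
    by_contra hne
    exact hst s hs s' hs' (fun e => hne (by rw [e])) (st_of_eq h he)

end Pool.Agent.H364R2.N1Est
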