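import Pool.Agent.H364R2.Pigeon
import Pool.Agent.H340R2.Stab

open MvPolynomial

namespace Pool.Agent.H364R2.N1Est

open Pool.Agent.H364R2 Pool.Agent.H340R2.Stab

/-- coordinates `X1, X2` additive, `Y1, Y2` multiplicative -/
def ad : Fin 4 → Bool := ![true, true, false, false]

/-- the two invariant derivations -/
noncomputable def WW : Fin 2 → Fin 4 → ℂ := ![![1, 0, -1, 0], ![0, 1, 0, -1]]

/-- the points -/
noncomputable def pt (A D r q : ℂ) (a b c : ℤ) : Fin 4 → ℂ :=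
  ![(a : ℂ), q * b, (-1) ^ b * r ^ c, A ^ a * D ^ c]

structure Hyp (A D r q : ℂ) : Prop where
  hA0 : A ≠ 0
  hD0 : D ≠ 0
  hr0 : r ≠ 0
  hq0 : q ≠ 0
  hA : ∀ n : ℤ, A ^ n = 1 → n = 0
  hrD : ∀ m n : ℤ, r ^ m * D ^ n = 1 → m = 0 ∧ n = 0

variable {A D r q : ℂ}

lemma isG_pt (h : Hyp A D r q) (a b c : ℤ) : IsG ad (pt A D r q a b c) := by
  intro j hj
  fin_cases j
  · simp [ad] at hj
  · simp [ad] at hj
  · simp only [pt]
    exact mul_ne_zero (zpow_ne_zero _ (by norm_num)) (zpow_ne_zero _ h.hr0)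
  · simp only [pt]
    exact mul_ne_zero (zpow_ne_zero _ h.hA0) (zpow_ne_zero _ h.hD0)

lemma gmul_pt (h : Hyp A D r q) (a b c a' b' c' : ℤ) :
    gmul ad (pt A D r q a b c) (pt A D r q a' b' c') = pt A D r q (a + a') (b + b') (c + c') := by
  funext j
  fin_cases j
  · simp [gmul, ad, pt]
  · simp [gmul, ad, pt]; ring
  · simp only [gmul, ad, pt]
    change (-1 : ℂ) ^ b * r ^ c * ((-1) ^ b' * r ^ c') = (-1) ^ (b + b') * r ^ (c + c')
    rw [zpow_add₀ (by norm_num), zpow_add₀ h.hr0]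
    ring
  · simp only [gmul, ad, pt]
    change A ^ a * D ^ c * (A ^ a' * D ^ c') = A ^ (a + a') * D ^ (c + c')
    rw [zpow_add₀ h.hA0, zpow_add₀ h.hD0]
    ring

lemma gone_pt : gone ad = pt A D r q 0 0 0 := by
  funext j
  fin_cases j <;> simp [gone, ad, pt]

lemma ginv_pt (_ : Hyp A D r q) (a b c : ℤ) :
    ginv ad (pt A D r q a b c) = pt A D r q (-a) (-b) (-c) := by
  funext j
  fin_cases j
  · simp [ginv, ad, pt]
  · simp [ginv, ad, pt]
  · simp only [ginv, ad, pt]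
    change ((-1 : ℂ) ^ b * r ^ c)⁻¹ = (-1) ^ (-b) * r ^ (-c)
    rw [zpow_neg, zpow_neg, mul_inv]
  · simp only [ginv, ad, pt]
    change (A ^ a * D ^ c)⁻¹ = A ^ (-a) * D ^ (-c)
    rw [zpow_neg, zpow_neg, mul_inv]

lemma stab_of_eq {σ : Type} (add : σ → Bool) {P : Ideal (MvPolynomial σ ℂ)} {g g' : σ → ℂ}
    (hg' : IsG add g') (h : trI add g P = trI add g' P) :
    ∀ f ∈ P, tr add (gmul add g (ginv add g')) f ∈ P := by
  intro f hf
  rw [← tr_tr]
  have h1 : tr add (ginv add g') f ∈ trI add g' P := by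
    rw [mem_trI, tr_tr_ginv add hg']
    exact hf
  rw [← h, mem_trI] at h1
  exact h1

/-- the point with parameters `(a, b, c)` stabilises `P` -/
def St (A D r q : ℂ) (P : Ideal (MvPolynomial (Fin 4) ℂ)) (a b c : ℤ) : Prop :=
  ∀ f ∈ P, tr ad (pt A D r q a b c) f ∈ P

variable {P : Ideal (MvPolynomial (Fin 4) ℂ)}

lemma st_of_eq (h : Hyp A D r q) {a b c a' b' c' : ℤ}
    (he : trI ad (pt A D r q a b c) P = trI ad (pt A D r q a' b' c') P) :
    St A D r q P (a - a') (b - b') (c - c') := by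
  have h1 := stab_of_eq ad (isG_pt h a' b' c') he
  rw [ginv_pt h, gmul_pt h] at h1
  exact h1

lemma indep_gen (h : Hyp A D r q) (hP : GPrime ad P) (E Ea : Finset (Fin 4))
    (hEa : ∀ j ∈ E, ad j = true → j ∈ Ea) (hadd : Indep P (Ea : Set (Fin 4))) {a b c : ℤ}
    (hs : St A D r q P a b c)
    (hchar : ∀ n2 n3 : ℤ, ((2 : Fin 4) ∉ E → n2 = 0) → ((3 : Fin 4) ∉ E → n3 = 0) →
      ((-1 : ℂ) ^ b * r ^ c) ^ n2 * (A ^ a * D ^ c) ^ n3 = 1 → n2 = 0 ∧ n3 = 0) :
    Indep P (E : Set (Fin 4)) := by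
  refine indep_of_stab ad P hP (E : Set (Fin 4)) {pt A D r q a b c} ?_ ?_ ?_ ?_
  · intro δ hδ
    rw [Finset.mem_singleton] at hδ
    rw [hδ]
    exact isG_pt h a b c
  · intro δ hδ
    rw [Finset.mem_singleton] at hδ
    rw [hδ]
    exact hs
  · refine hadd.mono ?_
    rintro j ⟨hj1, hj2⟩
    exact hEa j hj1 hj2
  · intro n hn h1
    have h2 := h1 _ (Finset.mem_singleton_self _)
    rw [Fin.prod_univ_four] at h2
    have h3 : ((-1 : ℂ) ^ b * r ^ c) ^ (n 2) * (A ^ a * D ^ c) ^ (n 3) = 1 := by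
      have e : (if ad 0 then (1 : ℂ) else pt A D r q a b c 0 ^ n 0) *
        (if ad 1 then (1 : ℂ) else pt A D r q a b c 1 ^ n 1) *
        (if ad 2 then (1 : ℂ) else pt A D r q a b c 2 ^ n 2) *
        (if ad 3 then (1 : ℂ) else pt A D r q a b c 3 ^ n 3) =
        ((-1 : ℂ) ^ b * r ^ c) ^ (n 2) * (A ^ a * D ^ c) ^ (n 3) := by
        simp [ad, pt]
      rw [← e]
      exact h2
    obtain ⟨h4, h5⟩ := hchar (n 2) (n 3) (fun h => hn 2 (Or.inl (by simpa using h)))
      (fun h => hn 3 (Or.inl (by simpa using h))) h3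
    intro j
    fin_cases j
    · exact hn 0 (Or.inr (by simp [ad]))
    · exact hn 1 (Or.inr (by simp [ad]))
    · exact h4
    · exact h5

lemma indep_0 (hP : GPrime ad P) {a b c : ℤ} (hs : St A D r q P a b c) (ha : a ≠ 0) :
    Indep P (({0} : Finset (Fin 4)) : Set (Fin 4)) := by
  refine indep_of_stab_add ad P hP _ ?_ {pt A D r q a b c} ?_ ?_
  · intro j hj
    have : j = 0 := by simpa using hj
    rw [this]; rfl
  · intro δ hδ
    rw [Finset.mem_singleton] at hδ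
    rw [hδ]
    exact hs
  · intro j hj
    have hj0 : j = 0 := by simpa using hj
    refine ⟨_, Finset.mem_singleton_self _, ?_, ?_⟩
    · rw [hj0]
      simpa [pt] using ha
    · intro j' hj' hne
      have : j' = 0 := by simpa using hj'
      exact absurd (this.trans hj0.symm) hne

lemma indep_1 (h : Hyp A D r q) (hP : GPrime ad P) {a b c : ℤ} (hs : St A D r q P a b c)
    (hb : b ≠ 0) : Indep P (({1} : Finset (Fin 4)) : Set (Fin 4)) := by
  refine indep_of_stab_add ad P hP _ ?_ {pt A D r q a b c} ?_ ?_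
  · intro j hj
    have : j = 1 := by simpa using hj
    rw [this]; rfl
  · intro δ hδ
    rw [Finset.mem_singleton] at hδ
    rw [hδ]
    exact hs
  · intro j hj
    have hj0 : j = 1 := by simpa using hj
    refine ⟨_, Finset.mem_singleton_self _, ?_, ?_⟩
    · rw [hj0]
      have := h.hq0
      simp [pt, this, hb]
    · intro j' hj' hne
      have : j' = 1 := by simpa using hj'
      exact absurd (this.trans hj0.symm) hne

lemma indep_01 (h : Hyp A D r q) (hP : GPrime ad P) {a c b c' : ℤ} (hs : St A D r q P a 0 c)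
    (hs' : St A D r q P 0 b c') (ha : a ≠ 0) (hb : b ≠ 0) :
    Indep P (({0, 1} : Finset (Fin 4)) : Set (Fin 4)) := by
  refine indep_of_stab_add ad P hP _ ?_ {pt A D r q a 0 c, pt A D r q 0 b c'} ?_ ?_
  · intro j hj
    have : j = 0 ∨ j = 1 := by simpa using hj
    rcases this with rfl | rfl <;> rfl
  · intro δ hδ
    rw [Finset.mem_insert, Finset.mem_singleton] at hδ
    rcases hδ with rfl | rfl
    · exact hs
    · exact hs'
  · intro j hj
    have hj0 : j = 0 ∨ j = 1 := by simpa using hj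
    rcases hj0 with rfl | rfl
    · refine ⟨pt A D r q a 0 c, by simp, by simpa [pt] using ha, ?_⟩
      intro j' hj' hne
      have hj1 : j' = 0 ∨ j' = 1 := by simpa using hj'
      rcases hj1 with rfl | rfl
      · exact absurd rfl hne
      · simp [pt]
    · refine ⟨pt A D r q 0 b c', by simp, by have := h.hq0; simp [pt, this, hb], ?_⟩
      intro j' hj' hne
      have hj1 : j' = 0 ∨ j' = 1 := by simpa using hj'
      rcases hj1 with rfl | rfl
      · simp [pt]
      · exact absurd rfl hne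

/-- characters at a stabilising point with `c ≠ 0`, second multiplicative coordinate not
involving `A` -/
lemma char23 (h : Hyp A D r q) {b c : ℤ} (hc : c ≠ 0) {n2 n3 : ℤ}
    (h1 : ((-1 : ℂ) ^ b * r ^ c) ^ n2 * (A ^ (0 : ℤ) * D ^ c) ^ n3 = 1) : n2 = 0 ∧ n3 = 0 := by
  have h2 : r ^ (2 * (c * n2)) * D ^ (2 * (c * n3)) = 1 := by
    have e1 : (((-1 : ℂ) ^ b * r ^ c) ^ n2 * (A ^ (0 : ℤ) * D ^ c) ^ n3) ^ (2 : ℤ) = 1 := by
      rw [h1, one_zpow]
    rw [mul_zpow, zpow_zero, one_mul, mul_zpow, mul_zpow] at e1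
    have e2 : (((-1 : ℂ) ^ b) ^ n2) ^ (2 : ℤ) = 1 := by
      rw [← zpow_mul, ← zpow_mul, show b * (n2 * 2) = 2 * (b * n2) by ring, zpow_mul]
      norm_num
    rw [e2, one_mul, ← zpow_mul, ← zpow_mul, ← zpow_mul, ← zpow_mul] at e1
    rw [← e1]
    congr 1
    · congr 1; ring
    · congr 1; ring
  obtain ⟨h3, h4⟩ := h.hrD _ _ h2
  constructor
  · rcases mul_eq_zero.mp h3 with h5 | h5
    · norm_num at h5
    · exact (mul_eq_zero.mp h5).resolve_left hc
  · rcases mul_eq_zero.mp h4 with h5 | h5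
    · norm_num at h5
    · exact (mul_eq_zero.mp h5).resolve_left hc

lemma char2 (h : Hyp A D r q) {b c : ℤ} (hc : c ≠ 0) {n2 : ℤ}
    (h1 : ((-1 : ℂ) ^ b * r ^ c) ^ n2 = 1) : n2 = 0 :=
  (char23 h (n3 := 0) (b := b) hc (by rw [h1, zpow_zero, mul_one])).1

lemma char3 (h : Hyp A D r q) {a : ℤ} (ha : a ≠ 0) {n3 : ℤ}
    (h1 : (A ^ a * D ^ (0 : ℤ)) ^ n3 = 1) : n3 = 0 := by
  rw [zpow_zero, mul_one, ← zpow_mul] at h1
  exact (mul_eq_zero.mp (h.hA _ h1)).resolve_left ha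

end Pool.Agent.H364R2.N1Est
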