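import Pool.Agent.H364R2.N1Case

open MvPolynomial

namespace Pool.Agent.H364R2.N1Est

open Pool.Agent.H364R2 Pool.Agent.H340R2.Stab

variable {A D r q : ℂ} {P : Ideal (MvPolynomial (Fin 4) ℂ)}

/-- The abstract output used in the case analysis -/
def Out (A D r q : ℂ) (K M T S : ℕ) (P : Ideal (MvPolynomial (Fin 4) ℂ)) (β : ℕ) : Prop :=
  ∀ B : Finset (Fin 4), B.card = β → Indep P (B : Set (Fin 4)) →
    ∀ Δ : Finset (Fin 4 → ℂ), Δ ⊆ G1 A D r q S →
    (∀ g ∈ Δ, ∀ g' ∈ Δ, trI ad g P = trI ad g' P → g = g') →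
    ∀ (l' : ℕ) (e : Fin l' → Fin 2) (f : Fin l' → MvPolynomial (Fin 4) ℂ), (∀ k, f k ∈ P) →
    (∀ k, der ad (WW (e k)) (f k) ∉ P) →
    (∀ k k', k ≠ k' → der ad (WW (e k)) (f k') ∈ P) →
    Δ.card * (T / l' + 1) ^ l' ≤
      2 ^ ((4 - β + 1) * (4 - β)) * ∏ j ∈ Finset.univ \ B, (![K, K, M, M] : Fin 4 → ℕ) j

lemma out2 (h : Hyp A D r q) {K M T S β : ℕ} (hout : Out A D r q K M T S P β)
    (hP : GPrime ad P) (h02 : ¬ Indep P ({0, 2} : Set (Fin 4)))
    (h13 : ¬ Indep P ({1, 3} : Set (Fin 4))) (B : Finset (Fin 4)) (hBc : B.card = β)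
    (hB : Indep P (B : Set (Fin 4))) (I : Finset (ℕ × ℕ × ℕ)) (hI : I ⊆ bx S)
    (hst : ∀ s ∈ I, ∀ s' ∈ I, s ≠ s' →
      ¬ St A D r q P ((s.1 : ℤ) - s'.1) ((s.2.1 : ℤ) - s'.2.1) ((s.2.2 : ℤ) - s'.2.2)) :
    I.card * T ^ 2 ≤ 4 * (2 ^ ((4 - β + 1) * (4 - β)) *
      ∏ j ∈ Finset.univ \ B, (![K, K, M, M] : Fin 4 → ℕ) j) := by
  obtain ⟨Δ, hΔ1, hΔ2, hΔ3⟩ := count h I hI hst
  obtain ⟨f, hf1, hf2, hf3⟩ := tr2 hP h02 h13
  have h1 := hout B hBc hB Δ hΔ1 hΔ3 2 id f hf1 hf2 hf3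
  rw [hΔ2] at h1
  have h2 : T ≤ 2 * (T / 2 + 1) := by omega
  have h3 : T ^ 2 ≤ 4 * (T / 2 + 1) ^ 2 := by nlinarith
  calc I.card * T ^ 2 ≤ I.card * (4 * (T / 2 + 1) ^ 2) := Nat.mul_le_mul_left _ h3
    _ = 4 * (I.card * (T / 2 + 1) ^ 2) := by ring
    _ ≤ _ := Nat.mul_le_mul_left _ h1

lemma out1 (h : Hyp A D r q) {K M T S β : ℕ} (hout : Out A D r q K M T S P β)
    (hP : GPrime ad P) (hu : ¬ Indep P (Set.univ : Set (Fin 4))) (B : Finset (Fin 4))
    (hBc : B.card = β)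
    (hB : Indep P (B : Set (Fin 4))) (I : Finset (ℕ × ℕ × ℕ)) (hI : I ⊆ bx S)
    (hst : ∀ s ∈ I, ∀ s' ∈ I, s ≠ s' →
      ¬ St A D r q P ((s.1 : ℤ) - s'.1) ((s.2.1 : ℤ) - s'.2.1) ((s.2.2 : ℤ) - s'.2.2)) :
    I.card * T ≤ 2 ^ ((4 - β + 1) * (4 - β)) *
      ∏ j ∈ Finset.univ \ B, (![K, K, M, M] : Fin 4 → ℕ) j := by
  obtain ⟨Δ, hΔ1, hΔ2, hΔ3⟩ := count h I hI hst
  obtain ⟨k, f, hf1, hf2⟩ := tr1 hP hu
  have h1 := hout B hBc hB Δ hΔ1 hΔ3 1 (fun _ => k) (fun _ => f) (fun _ => hf1) (fun _ => hf2)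
    (fun k k' hne => absurd (Subsingleton.elim k k') hne)
  rw [hΔ2, Nat.div_one, pow_one] at h1
  exact (Nat.mul_le_mul_left _ (Nat.le_succ T)).trans h1

/-- index sets -/
def I0 : Finset (ℕ × ℕ × ℕ) := {(0, 0, 0)}

def I13 (S : ℕ) : Finset (ℕ × ℕ × ℕ) :=
  Finset.range (S + 1) ×ˢ (({0} : Finset ℕ) ×ˢ Finset.range (S + 1))

def I23 (S : ℕ) : Finset (ℕ × ℕ × ℕ) :=
  ({0} : Finset ℕ) ×ˢ (Finset.range (S + 1) ×ˢ Finset.range (S + 1))

lemma card_bx (S : ℕ) : (bx S).card = (S + 1) * ((S + 1) * (S + 1)) := by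
  simp [bx]

lemma card_I13 (S : ℕ) : (I13 S).card = (S + 1) * (S + 1) := by
  simp [I13]

lemma card_I23 (S : ℕ) : (I23 S).card = (S + 1) * (S + 1) := by
  simp [I23]

lemma I0_sub (S : ℕ) : I0 ⊆ bx S := by
  intro s hs
  simp only [I0, Finset.mem_singleton] at hs
  subst hs
  simp [bx]

lemma I13_sub (S : ℕ) : I13 S ⊆ bx S := by
  intro s hs
  simp only [I13, bx, Finset.mem_product, Finset.mem_singleton, Finset.mem_range] at hs ⊢
  exact ⟨hs.1, by omega, hs.2.2⟩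

lemma I23_sub (S : ℕ) : I23 S ⊆ bx S := by
  intro s hs
  simp only [I23, bx, Finset.mem_product, Finset.mem_singleton, Finset.mem_range] at hs ⊢
  exact ⟨by omega, hs.2.1, hs.2.2⟩

lemma hst_I0 : ∀ s ∈ I0, ∀ s' ∈ I0, s ≠ s' →
      ¬ St A D r q P ((s.1 : ℤ) - s'.1) ((s.2.1 : ℤ) - s'.2.1) ((s.2.2 : ℤ) - s'.2.2) := by
  intro s hs s' hs' hne
  simp only [I0, Finset.mem_singleton] at hs hs'
  exact absurd (hs.trans hs'.symm) hne

lemma hst_I13 (S : ℕ) (hno : ∀ a c : ℤ, St A D r q P a 0 c → a = 0 ∧ c = 0) :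
    ∀ s ∈ I13 S, ∀ s' ∈ I13 S, s ≠ s' →
      ¬ St A D r q P ((s.1 : ℤ) - s'.1) ((s.2.1 : ℤ) - s'.2.1) ((s.2.2 : ℤ) - s'.2.2) := by
  rintro ⟨s1, s2, s3⟩ hs ⟨s1', s2', s3'⟩ hs' hne hst
  simp only [I13, Finset.mem_product, Finset.mem_singleton, Finset.mem_range] at hs hs'
  obtain ⟨-, rfl, -⟩ := hs
  obtain ⟨-, rfl, -⟩ := hs'
  simp only at hst
  rw [sub_self] at hst
  obtain ⟨h1, h2⟩ := hno _ _ hst
  apply hne
  have e1 : s1 = s1' := by omega
  have e2 : s3 = s3' := by omega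
  rw [e1, e2]

lemma hst_I23 (S : ℕ) (hno : ∀ b c : ℤ, St A D r q P 0 b c → b = 0 ∧ c = 0) :
    ∀ s ∈ I23 S, ∀ s' ∈ I23 S, s ≠ s' →
      ¬ St A D r q P ((s.1 : ℤ) - s'.1) ((s.2.1 : ℤ) - s'.2.1) ((s.2.2 : ℤ) - s'.2.2) := by
  rintro ⟨s1, s2, s3⟩ hs ⟨s1', s2', s3'⟩ hs' hne hst
  simp only [I23, Finset.mem_product, Finset.mem_singleton, Finset.mem_range] at hs hs'
  obtain ⟨rfl, -, -⟩ := hs
  obtain ⟨rfl, -, -⟩ := hs'
  simp only at hst
  rw [sub_self] at hst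
  obtain ⟨h1, h2⟩ := hno _ _ hst
  apply hne
  have e1 : s2 = s2' := by omega
  have e2 : s3 = s3' := by omega
  rw [e1, e2]

lemma hst_bx (S : ℕ) (hno : ∀ a b c : ℤ, St A D r q P a b c → a = 0 ∧ b = 0 ∧ c = 0) :
    ∀ s ∈ bx S, ∀ s' ∈ bx S, s ≠ s' →
      ¬ St A D r q P ((s.1 : ℤ) - s'.1) ((s.2.1 : ℤ) - s'.2.1) ((s.2.2 : ℤ) - s'.2.2) := by
  rintro ⟨s1, s2, s3⟩ hs ⟨s1', s2', s3'⟩ hs' hne hst
  obtain ⟨h1, h2, h3⟩ := hno _ _ _ hst
  simp only at h1 h2 h3
  apply hne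
  have e1 : s1 = s1' := by omega
  have e2 : s2 = s2' := by omega
  have e3 : s3 = s3' := by omega
  rw [e1, e2, e3]

lemma hno13 (h : Hyp A D r q) (hP : GPrime ad P) {β : ℕ}
    (hmax : ∀ B : Finset (Fin 4), Indep P (B : Set (Fin 4)) → B.card ≤ β)
    (hβ1 : β ≤ 1) (a c : ℤ) (hst : St A D r q P a 0 c) : a = 0 ∧ c = 0 := by
  have hempty : Indep P (((∅ : Finset (Fin 4))) : Set (Fin 4)) := by
    rw [Finset.coe_empty]; exact indep_empty hP.1.ne_top
  have c02 : ({0, 2} : Finset (Fin 4)).card = 2 := by decide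
  have c23 : ({2, 3} : Finset (Fin 4)).card = 2 := by decide
  have c03 : ({0, 3} : Finset (Fin 4)).card = 2 := by decide
  by_cases ha : a = 0
  · subst ha
    refine ⟨rfl, ?_⟩
    by_contra hc
    have := hmax {2, 3} (indep_gen h hP {2, 3} ∅ (by decide) hempty hst
      (fun n2 n3 _ _ hh => char23 h hc hh))
    omega
  · exfalso
    have h0 := indep_0 hP hst ha
    by_cases hc : c = 0
    · subst hc
      have := hmax {0, 3} (indep_gen h hP {0, 3} {0} (by decide) h0 hst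
        (fun n2 n3 hn2 _ hh => by
          have e2 : n2 = 0 := hn2 (by decide)
          subst e2
          rw [zpow_zero (((-1 : ℂ) ^ (0 : ℤ) * r ^ (0 : ℤ))), one_mul] at hh
          exact ⟨rfl, char3 h ha hh⟩))
      omega
    · have := hmax {0, 2} (indep_gen h hP {0, 2} {0} (by decide) h0 hst
        (fun n2 n3 _ hn3 hh => by
          have e3 : n3 = 0 := hn3 (by decide)
          subst e3
          rw [zpow_zero (A ^ a * D ^ c), mul_one] at hh
          exact ⟨char2 h hc hh, rfl⟩))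
      omega

lemma key23 (h : Hyp A D r q) (hP : GPrime ad P)
    (hmax : ∀ B : Finset (Fin 4), Indep P (B : Set (Fin 4)) → B.card ≤ 2)
    (i : Fin 4) (hi : i = 0 ∨ i = 1) (hind : Indep P (({i} : Finset (Fin 4)) : Set _))
    (b c : ℤ) (hc : c ≠ 0) (hst : St A D r q P 0 b c) : False := by
  have := hmax {i, 2, 3} (indep_gen h hP {i, 2, 3} {i} (by
      intro j hj hadj
      simp only [Finset.mem_insert, Finset.mem_singleton] at hj
      rcases hj with rfl | rfl | rfl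
      · simp
      · simp [ad] at hadj
      · simp [ad] at hadj) hind hst (fun n2 n3 _ _ hh => char23 h hc hh))
  have hc3 : ({i, 2, 3} : Finset (Fin 4)).card = 3 := by
    rcases hi with rfl | rfl <;> decide
  omega

lemma key2 (h : Hyp A D r q) (hP : GPrime ad P)
    (hmax : ∀ B : Finset (Fin 4), Indep P (B : Set (Fin 4)) → B.card ≤ 2)
    (i : Fin 4) (hi : i = 0 ∨ i = 1) (hind : Indep P (({i} : Finset (Fin 4)) : Set _))
    (a c b c' : ℤ) (hst : St A D r q P a 0 c) (hne : a ≠ 0 ∨ c ≠ 0)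
    (hst' : St A D r q P 0 b c') (hne' : b ≠ 0 ∨ c' ≠ 0) : False := by
  by_cases ha : a = 0
  · subst ha
    exact key23 h hP hmax i hi hind 0 c (hne.resolve_left (fun hh => hh rfl)) hst
  by_cases hc' : c' = 0
  · subst hc'
    have hb : b ≠ 0 := hne'.resolve_right (fun hh => hh rfl)
    have h01 := indep_01 h hP hst hst' ha hb
    by_cases hc : c = 0
    · subst hc
      have := hmax {0, 1, 3} (indep_gen h hP {0, 1, 3} {0, 1} (by decide) h01 hst
        (fun n2 n3 hn2 _ hh => by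
          have e2 : n2 = 0 := hn2 (by decide)
          subst e2
          rw [zpow_zero (((-1 : ℂ) ^ (0 : ℤ) * r ^ (0 : ℤ))), one_mul] at hh
          exact ⟨rfl, char3 h ha hh⟩))
      have hc3 : ({0, 1, 3} : Finset (Fin 4)).card = 3 := by decide
      omega
    · have := hmax {0, 1, 2} (indep_gen h hP {0, 1, 2} {0, 1} (by decide) h01 hst
        (fun n2 n3 _ hn3 hh => by
          have e3 : n3 = 0 := hn3 (by decide)
          subst e3
          rw [zpow_zero (A ^ a * D ^ c), mul_one] at hh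
          exact ⟨char2 h hc hh, rfl⟩))
      have hc3 : ({0, 1, 2} : Finset (Fin 4)).card = 3 := by decide
      omega
  · exact key23 h hP hmax i hi hind b c' hc' hst'

/-- dichotomy when `β = 2` and one of the additive coordinates is transcendental -/
lemma hdich (h : Hyp A D r q) {K M T S : ℕ} (hP : GPrime ad P)
    (hmax : ∀ B : Finset (Fin 4), Indep P (B : Set (Fin 4)) → B.card ≤ 2)
    (hout : Out A D r q K M T S P 2) (hu : ¬ Indep P (Set.univ : Set (Fin 4)))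
    (i : Fin 4) (hi : i = 0 ∨ i = 1) (hind : Indep P (({i} : Finset (Fin 4)) : Set _))
    (B : Finset (Fin 4)) (hBc : B.card = 2) (hBi : Indep P (B : Set (Fin 4))) :
    S ^ 2 * T ≤ 2 ^ 6 * ∏ j ∈ Finset.univ \ B, (![K, K, M, M] : Fin 4 → ℕ) j := by
  have hsq : S ^ 2 ≤ (S + 1) * (S + 1) := by nlinarith
  have e6 : 2 ^ ((4 - 2 + 1) * (4 - 2)) = 2 ^ 6 := by norm_num
  by_cases hA13 : ∀ a c : ℤ, St A D r q P a 0 c → a = 0 ∧ c = 0
  · have := out1 h hout hP hu B hBc hBi (I13 S) (I13_sub S) (hst_I13 S hA13)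
    rw [card_I13, e6] at this
    exact (Nat.mul_le_mul_right _ hsq).trans this
  · push Not at hA13
    obtain ⟨a, c, hst, hne⟩ := hA13
    have hne' : a ≠ 0 ∨ c ≠ 0 := by
      by_cases ha : a = 0
      · right; exact hne ha
      · left; exact ha
    have hA23 : ∀ b c : ℤ, St A D r q P 0 b c → b = 0 ∧ c = 0 := by
      intro b c' hst'
      by_contra hcon
      apply key2 h hP hmax i hi hind a c b c' hst hne' hst'
      by_cases hb : b = 0
      · right; intro hc'; exact hcon ⟨hb, hc'⟩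
      · left; exact hb
    have := out1 h hout hP hu B hBc hBi (I23 S) (I23_sub S) (hst_I23 S hA23)
    rw [card_I23, e6] at this
    exact (Nat.mul_le_mul_right _ hsq).trans this

lemma case0 (h : Hyp A D r q) (K M T S : ℕ)
    (h3 : 2 ^ 22 * K ^ 2 * M ^ 2 < T ^ 2 * S ^ 3) (hP : GPrime ad P)
    (B0 : Finset (Fin 4)) (hB0c : B0.card = 0) (hB0 : Indep P (B0 : Set (Fin 4)))
    (hmax : ∀ B : Finset (Fin 4), Indep P (B : Set (Fin 4)) → B.card ≤ 0)
    (hout : Out A D r q K M T S P 0) : False := by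
  have h02 : ¬ Indep P ({0, 2} : Set (Fin 4)) := by
    intro hh
    have := hmax {0, 2} (by simpa using hh)
    have c02 : ({0, 2} : Finset (Fin 4)).card = 2 := by decide
    omega
  have h13 : ¬ Indep P ({1, 3} : Set (Fin 4)) := by
    intro hh
    have := hmax {1, 3} (by simpa using hh)
    have c13 : ({1, 3} : Finset (Fin 4)).card = 2 := by decide
    omega
  have hno : ∀ a b c : ℤ, St A D r q P a b c → a = 0 ∧ b = 0 ∧ c = 0 := by
    intro a b c hst
    have hb : b = 0 := by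
      by_contra hb
      have := hmax {1} (indep_1 h hP hst hb)
      simp at this
    subst hb
    obtain ⟨h8, h9⟩ := hno13 h hP hmax (by omega) a c hst
    exact ⟨h8, rfl, h9⟩
  have hB0e : B0 = ∅ := Finset.card_eq_zero.mp hB0c
  subst hB0e
  have h9 := out2 h hout hP h02 h13 ∅ rfl hB0 (bx S) (Finset.Subset.refl _) (hst_bx S hno)
  rw [card_bx, prodL] at h9
  simp only [Finset.notMem_empty, if_false] at h9
  have hcu : S ^ 3 ≤ (S + 1) * ((S + 1) * (S + 1)) := by nlinarith [sq_nonneg S]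
  have h10 : T ^ 2 * S ^ 3 ≤ 2 ^ 22 * K ^ 2 * M ^ 2 := by
    calc T ^ 2 * S ^ 3 = S ^ 3 * T ^ 2 := by ring
      _ ≤ (S + 1) * ((S + 1) * (S + 1)) * T ^ 2 := Nat.mul_le_mul_right _ hcu
      _ ≤ _ := h9
      _ = 2 ^ 22 * K ^ 2 * M ^ 2 := by norm_num; ring
  omega

lemma case1 (h : Hyp A D r q) (K M T S : ℕ)
    (h4 : 2 ^ 22 * K ^ 2 * M < T ^ 2 * S ^ 2)
    (h5 : 2 ^ 22 * K * M ^ 2 < T ^ 2 * S ^ 2) (hP : GPrime ad P)
    (B0 : Finset (Fin 4)) (hB0c : B0.card = 1) (hB0 : Indep P (B0 : Set (Fin 4)))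
    (hmax : ∀ B : Finset (Fin 4), Indep P (B : Set (Fin 4)) → B.card ≤ 1)
    (hout : Out A D r q K M T S P 1) : False := by
  have h02 : ¬ Indep P ({0, 2} : Set (Fin 4)) := by
    intro hh
    have := hmax {0, 2} (by simpa using hh)
    have c02 : ({0, 2} : Finset (Fin 4)).card = 2 := by decide
    omega
  have h13 : ¬ Indep P ({1, 3} : Set (Fin 4)) := by
    intro hh
    have := hmax {1, 3} (by simpa using hh)
    have c13 : ({1, 3} : Finset (Fin 4)).card = 2 := by decide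
    omega
  have hsq : S ^ 2 ≤ (S + 1) * (S + 1) := by nlinarith
  obtain ⟨j, rfl⟩ := Finset.card_eq_one.mp hB0c
  have h9 := out2 h hout hP h02 h13 {j} rfl hB0 (I13 S) (I13_sub S)
    (hst_I13 S (hno13 h hP hmax le_rfl))
  rw [card_I13, prodL] at h9
  have h10 : T ^ 2 * S ^ 2 ≤ (S + 1) * (S + 1) * T ^ 2 := by
    rw [mul_comm]
    exact Nat.mul_le_mul_right _ hsq
  have h11 := h10.trans h9
  have h12 : 2 ^ 14 * (K * M ^ 2) ≤ 2 ^ 22 * K * M ^ 2 := by
    rw [mul_assoc]; exact Nat.mul_le_mul_right _ (by norm_num)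
  have h13 : 2 ^ 14 * (K ^ 2 * M) ≤ 2 ^ 22 * K ^ 2 * M := by
    rw [mul_assoc]; exact Nat.mul_le_mul_right _ (by norm_num)
  have key : (if (0 : Fin 4) ∈ ({j} : Finset (Fin 4)) then 1 else K) *
      (if (1 : Fin 4) ∈ ({j} : Finset (Fin 4)) then 1 else K) *
      (if (2 : Fin 4) ∈ ({j} : Finset (Fin 4)) then 1 else M) *
      (if (3 : Fin 4) ∈ ({j} : Finset (Fin 4)) then 1 else M) = K * M ^ 2 ∨
      (if (0 : Fin 4) ∈ ({j} : Finset (Fin 4)) then 1 else K) *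
      (if (1 : Fin 4) ∈ ({j} : Finset (Fin 4)) then 1 else K) *
      (if (2 : Fin 4) ∈ ({j} : Finset (Fin 4)) then 1 else M) *
      (if (3 : Fin 4) ∈ ({j} : Finset (Fin 4)) then 1 else M) = K ^ 2 * M := by
    fin_cases j
    · left; simp; ring
    · left; simp; ring
    · right; simp [pow_two]
    · right; simp [pow_two]
  rcases key with hk | hk
  · rw [hk] at h11
    norm_num at h11 h12 h5
    omega
  · rw [hk] at h11
    norm_num at h11 h13 h4
    omega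

lemma case2 (h : Hyp A D r q) (K M T S : ℕ)
    (h1 : 2 ^ 22 * K < T) (h6 : 2 ^ 22 * K * M < T * S ^ 2)
    (h7 : 2 ^ 22 * M ^ 2 < T * S ^ 2) (hP : GPrime ad P)
    (B0 : Finset (Fin 4)) (hB0c : B0.card = 2) (hB0 : Indep P (B0 : Set (Fin 4)))
    (hmax : ∀ B : Finset (Fin 4), Indep P (B : Set (Fin 4)) → B.card ≤ 2)
    (hout : Out A D r q K M T S P 2) : False := by
  have hu : ¬ Indep P (Set.univ : Set (Fin 4)) := by
    intro hh
    have := hmax Finset.univ (by rw [Finset.coe_univ]; exact hh)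
    simp at this
  by_cases h0 : Indep P (({0} : Finset (Fin 4)) : Set (Fin 4)) ∨
      Indep P (({1} : Finset (Fin 4)) : Set (Fin 4))
  · obtain ⟨i, hi, hind⟩ : ∃ i : Fin 4, (i = 0 ∨ i = 1) ∧
        Indep P (({i} : Finset (Fin 4)) : Set (Fin 4)) := by
      rcases h0 with h0 | h0
      · exact ⟨0, Or.inl rfl, h0⟩
      · exact ⟨1, Or.inr rfl, h0⟩
    obtain ⟨j, k, hjk, rfl⟩ := Finset.card_eq_two.mp hB0c
    have hex : ∃ m : Fin 4, i ≠ m ∧ Indep P (({i, m} : Finset (Fin 4)) : Set (Fin 4)) := by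
      rcases indep_exchange P hP.1 i j k (by simpa using hind) (by simpa using hB0) hjk with
        ⟨h8, h9⟩ | ⟨h8, h9⟩
      · exact ⟨j, h8, by simpa using h9⟩
      · exact ⟨k, h8, by simpa using h9⟩
    obtain ⟨m, him, hm⟩ := hex
    have h9 := hdich h hP hmax hout hu i hi hind {i, m} (Finset.card_pair him) hm
    rw [prodL] at h9
    have h12 : 2 ^ 6 * (K * M) ≤ 2 ^ 22 * K * M := by
      rw [mul_assoc]; exact Nat.mul_le_mul_right _ (by norm_num)
    have h13 : 2 ^ 6 * M ^ 2 ≤ 2 ^ 22 * M ^ 2 := Nat.mul_le_mul_right _ (by norm_num)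
    have key : (if (0 : Fin 4) ∈ ({i, m} : Finset (Fin 4)) then 1 else K) *
      (if (1 : Fin 4) ∈ ({i, m} : Finset (Fin 4)) then 1 else K) *
      (if (2 : Fin 4) ∈ ({i, m} : Finset (Fin 4)) then 1 else M) *
      (if (3 : Fin 4) ∈ ({i, m} : Finset (Fin 4)) then 1 else M) = K * M ∨
      (if (0 : Fin 4) ∈ ({i, m} : Finset (Fin 4)) then 1 else K) *
      (if (1 : Fin 4) ∈ ({i, m} : Finset (Fin 4)) then 1 else K) *
      (if (2 : Fin 4) ∈ ({i, m} : Finset (Fin 4)) then 1 else M) *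
      (if (3 : Fin 4) ∈ ({i, m} : Finset (Fin 4)) then 1 else M) = M ^ 2 := by
      rcases hi with rfl | rfl
      · fin_cases m
        · exact absurd rfl him
        · right; simp; ring
        · left; simp
        · left; simp
      · fin_cases m
        · right; simp; ring
        · exact absurd rfl him
        · left; simp
        · left; simp
    rw [mul_comm (S ^ 2) T] at h9
    rcases key with hk | hk
    · rw [hk] at h9
      omega
    · rw [hk] at h9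
      omega
  · push Not at h0
    obtain ⟨h00, h01⟩ := h0
    have h02 : ¬ Indep P ({0, 2} : Set (Fin 4)) := fun hh => h00 (hh.mono (by simp))
    have h13 : ¬ Indep P ({1, 3} : Set (Fin 4)) := fun hh => h01 (hh.mono (by simp))
    have n0 : (0 : Fin 4) ∉ B0 := fun hh => h00 (hB0.mono (by simpa using hh))
    have n1 : (1 : Fin 4) ∉ B0 := fun hh => h01 (hB0.mono (by simpa using hh))
    have hB023 : B0 = {2, 3} := by
      apply Finset.eq_of_subset_of_card_le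
      · intro j hj
        fin_cases j
        · exact absurd hj n0
        · exact absurd hj n1
        · simp
        · simp
      · rw [hB0c]; decide
    subst hB023
    have h9 := out2 h hout hP h02 h13 {2, 3} hB0c hB0 I0 (I0_sub S) hst_I0
    rw [prodL] at h9
    have hk : (if (0 : Fin 4) ∈ ({2, 3} : Finset (Fin 4)) then 1 else K) *
      (if (1 : Fin 4) ∈ ({2, 3} : Finset (Fin 4)) then 1 else K) *
      (if (2 : Fin 4) ∈ ({2, 3} : Finset (Fin 4)) then 1 else M) *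
      (if (3 : Fin 4) ∈ ({2, 3} : Finset (Fin 4)) then 1 else M) = K ^ 2 := by
      simp; ring
    rw [hk] at h9
    have hc : I0.card = 1 := rfl
    rw [hc, one_mul] at h9
    have h14 : 16 * K < T := by omega
    have h15 : (16 * K) * (16 * K) < T * T := Nat.mul_lt_mul'' h14 h14
    have h16 : 4 * (2 ^ ((4 - 2 + 1) * (4 - 2)) * K ^ 2) = (16 * K) * (16 * K) := by
      norm_num; ring
    rw [h16] at h9
    nlinarith

lemma case3 (h : Hyp A D r q) (K M T S : ℕ)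
    (h1 : 2 ^ 22 * K < T) (h2 : 2 ^ 22 * M < T) (hP : GPrime ad P)
    (B0 : Finset (Fin 4)) (hB0c : B0.card = 3) (hB0 : Indep P (B0 : Set (Fin 4)))
    (hmax : ∀ B : Finset (Fin 4), Indep P (B : Set (Fin 4)) → B.card ≤ 3)
    (hout : Out A D r q K M T S P 3) : False := by
  have hu : ¬ Indep P (Set.univ : Set (Fin 4)) := by
    intro hh
    have := hmax Finset.univ (by rw [Finset.coe_univ]; exact hh)
    simp at this
  have h9 := out1 h hout hP hu B0 hB0c hB0 I0 (I0_sub S) hst_I0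
  have hcompl : (Finset.univ \ B0).card = 1 := by
    rw [Finset.card_sdiff_of_subset (Finset.subset_univ _), hB0c]
    simp
  obtain ⟨j, hj⟩ := Finset.card_eq_one.mp hcompl
  rw [hj, Finset.prod_singleton] at h9
  have hc : I0.card = 1 := rfl
  rw [hc, one_mul] at h9
  norm_num at h9
  have hj' : (![K, K, M, M] : Fin 4 → ℕ) j = K ∨ (![K, K, M, M] : Fin 4 → ℕ) j = M := by
    fin_cases j
    · left; rfl
    · left; rfl
    · right; rfl
    · right; rfl
  rcases hj' with hj' | hj' <;> rw [hj'] at h9 <;> omega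

theorem case_analysis (h : Hyp A D r q) (K M T S : ℕ)
    (h1 : 2 ^ 22 * K < T) (h2 : 2 ^ 22 * M < T)
    (h3 : 2 ^ 22 * K ^ 2 * M ^ 2 < T ^ 2 * S ^ 3) (h4 : 2 ^ 22 * K ^ 2 * M < T ^ 2 * S ^ 2)
    (h5 : 2 ^ 22 * K * M ^ 2 < T ^ 2 * S ^ 2) (h6 : 2 ^ 22 * K * M < T * S ^ 2)
    (h7 : 2 ^ 22 * M ^ 2 < T * S ^ 2) (β : ℕ) (hβ : β < 4) (hP : GPrime ad P)
    (hB : ∃ B : Finset (Fin 4), B.card = β ∧ Indep P (B : Set (Fin 4)))
    (hmax : ∀ B : Finset (Fin 4), Indep P (B : Set (Fin 4)) → B.card ≤ β)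
    (hout : Out A D r q K M T S P β) : False := by
  obtain ⟨B0, hB0c, hB0⟩ := hB
  have hβ' : β = 0 ∨ β = 1 ∨ β = 2 ∨ β = 3 := by omega
  rcases hβ' with rfl | rfl | rfl | rfl
  · exact case0 h K M T S h3 hP B0 hB0c hB0 hmax hout
  · exact case1 h K M T S h4 h5 hP B0 hB0c hB0 hmax hout
  · exact case2 h K M T S h1 h6 h7 hP B0 hB0c hB0 hmax hout
  · exact case3 h K M T S h1 h2 hP B0 hB0c hB0 hmax hout

end Pool.Agent.H364R2.N1Est
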