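import Pool.Agent.H364R2.N1Fin

open MvPolynomial

namespace Pool.Agent.H364R2.N1Est

open Pool.Agent.H364R2 Pool.Agent.H340R2.Stab

variable {A D r q : ℂ}

lemma der_iterate_comm {σ : Type} [Fintype σ] [DecidableEq σ] (add : σ → Bool) (w w' : σ → ℂ)
    (n : ℕ) (f : MvPolynomial σ ℂ) :
    der add w ((der add w')^[n] f) = (der add w')^[n] (der add w f) := by
  induction n generalizing f with
  | zero => rfl
  | succ n ih =>
    rw [Function.iterate_succ_apply, Function.iterate_succ_apply, ih, der_comm]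

lemma derIter_count (ks : List (Fin 2)) (F : MvPolynomial (Fin 4) ℂ) :
    derIter ad WW ks F = (der ad (WW 0))^[ks.count 0] ((der ad (WW 1))^[ks.count 1] F) := by
  induction ks with
  | nil => rfl
  | cons k ks ih =>
    have hk : k = 0 ∨ k = 1 := by fin_cases k <;> simp
    rcases hk with rfl | rfl
    · rw [List.count_cons_self, List.count_cons_of_ne (by decide), Function.iterate_succ_apply',
        ← ih]
      rfl
    · rw [List.count_cons_self, List.count_cons_of_ne (by decide), Function.iterate_succ_apply',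
        ← der_iterate_comm, ← ih]
      rfl

lemma count_add_count (ks : List (Fin 2)) : ks.count 0 + ks.count 1 = ks.length := by
  induction ks with
  | nil => rfl
  | cons k ks ih =>
    rw [List.length_cons, List.count_cons, List.count_cons]
    fin_cases k
    · simp; omega
    · simp; omega

lemma prodG_pt (h : Hyp A D r q) (S : ℕ) (gs : List (Fin 4 → ℂ))
    (hgs : ∀ g ∈ gs, g ∈ G1 A D r q S) :
    ∃ s1 s2 s3 : ℕ, s1 ≤ gs.length * S ∧ s2 ≤ gs.length * S ∧ s3 ≤ gs.length * S ∧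
      prodG ad gs = pt A D r q s1 s2 s3 := by
  classical
  induction gs with
  | nil => exact ⟨0, 0, 0, by simp, by simp, by simp, by simp [prodG, gone_pt (A := A) (D := D) (r := r) (q := q)]⟩
  | cons g gs ih =>
    obtain ⟨s1, s2, s3, h1, h2, h3, h4⟩ := ih (fun g' hg' => hgs g' (List.mem_cons_of_mem _ hg'))
    have hg := hgs g List.mem_cons_self
    obtain ⟨⟨a, b, c⟩, habc, rfl⟩ := Finset.mem_image.mp hg
    simp only [bx, Finset.mem_product, Finset.mem_range] at habc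
    refine ⟨a + s1, b + s2, c + s3, ?_, ?_, ?_, ?_⟩
    · rw [List.length_cons, add_mul, one_mul]; omega
    · rw [List.length_cons, add_mul, one_mul]; omega
    · rw [List.length_cons, add_mul, one_mul]; omega
    · change gmul ad (ptn A D r q (a, b, c)) (prodG ad gs) = _
      rw [h4, ptn, gmul_pt h]
      push_cast
      rfl

theorem N1_poly (h : Hyp A D r q) (K M T S : ℕ) (hK : 1 ≤ K) (hM : 1 ≤ M)
    (h1 : 2 ^ 22 * K < T) (h2 : 2 ^ 22 * M < T)
    (h3 : 2 ^ 22 * K ^ 2 * M ^ 2 < T ^ 2 * S ^ 3) (h4 : 2 ^ 22 * K ^ 2 * M < T ^ 2 * S ^ 2)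
    (h5 : 2 ^ 22 * K * M ^ 2 < T ^ 2 * S ^ 2) (h6 : 2 ^ 22 * K * M < T * S ^ 2)
    (h7 : 2 ^ 22 * M ^ 2 < T * S ^ 2) (F : MvPolynomial (Fin 4) ℂ)
    (hF : F ∈ box ℂ (![K, K, M, M] : Fin 4 → ℕ) 1)
    (hvan : ∀ t1 t2 s1 s2 s3 : ℕ, t1 + t2 ≤ 4 * T → s1 ≤ 4 * S → s2 ≤ 4 * S → s3 ≤ 4 * S →
      eval (pt A D r q s1 s2 s3) ((der ad (WW 0))^[t1] ((der ad (WW 1))^[t2] F)) = 0) :
    F = 0 := by
  by_contra hF0
  obtain ⟨P, β, hP, hβ, hB, hmax, hmain⟩ := zero_estimate_abs ad WW (G1 A D r q S) T F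
    (![K, K, M, M] : Fin 4 → ℕ) (by
      intro j
      fin_cases j
      · exact hK
      · exact hK
      · exact hM
      · exact hM) (by
      intro g hg
      classical
      obtain ⟨s, -, rfl⟩ := Finset.mem_image.mp hg
      exact isG_pt h _ _ _) hF0 hF (by
      intro ks gs hks hgs hgs'
      rw [Fintype.card_fin] at hks hgs
      obtain ⟨s1, s2, s3, e1, e2, e3, e4⟩ := prodG_pt h S gs hgs'
      rw [e4, derIter_count]
      have hle : gs.length * S ≤ 4 * S := Nat.mul_le_mul_right _ hgs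
      exact hvan _ _ _ _ _ (by rw [count_add_count]; exact hks) (e1.trans hle) (e2.trans hle)
        (e3.trans hle))
  rw [Fintype.card_fin] at hβ hmain
  exact case_analysis h K M T S h1 h2 h3 h4 h5 h6 h7 β hβ hP hB hmax hmain

/-! ### explicit form -/

/-- `Φ(u, v) = u(X_0) v(X_1) X_2^{m1} X_3^{m2}` -/
noncomputable def Phi (m1 m2 : ℕ) (u v : Polynomial ℂ) : MvPolynomial (Fin 4) ℂ :=
  Polynomial.aeval (X 0 : MvPolynomial (Fin 4) ℂ) u *
    Polynomial.aeval (X 1 : MvPolynomial (Fin 4) ℂ) v * X 2 ^ m1 * X 3 ^ m2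

/-- the operator `d/dx - m` -/
noncomputable def LL (m : ℕ) (u : Polynomial ℂ) : Polynomial ℂ :=
  Polynomial.derivative u - Polynomial.C (m : ℂ) * u

lemma der0_Phi (m1 m2 : ℕ) (u v : Polynomial ℂ) :
    der ad (WW 0) (Phi m1 m2 u v) = Phi m1 m2 (LL m1 u) v := by
  have hX0 : der ad (WW 0) (X 0) = 1 := by rw [der_X]; simp [ad, WW]
  have hX1 : der ad (WW 0) (X 1) = 0 := by rw [der_X]; simp [ad, WW]
  have hX2 : der ad (WW 0) (X 2) = - X 2 := by rw [der_X]; simp [ad, WW]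
  have hX3 : der ad (WW 0) (X 3) = 0 := by rw [der_X]; simp [ad, WW]
  have hpow : der ad (WW 0) (X 2 ^ m1) = - (m1 : MvPolynomial (Fin 4) ℂ) * X 2 ^ m1 := by
    rw [Derivation.leibniz_pow, hX2]
    rcases m1 with _ | m
    · simp
    · rw [smul_eq_mul, nsmul_eq_mul, Nat.add_sub_cancel, pow_succ]
      ring
  unfold Phi LL
  rw [Derivation.leibniz, Derivation.leibniz, Derivation.leibniz, hpow,
    Derivation.map_aeval, Derivation.map_aeval, Derivation.leibniz_pow _ (X 3), hX0, hX1, hX3]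
  simp only [smul_eq_mul, mul_one, mul_zero, smul_zero, add_zero, zero_add, map_sub, map_mul,
    map_natCast]
  ring

lemma der1_Phi (m1 m2 : ℕ) (u v : Polynomial ℂ) :
    der ad (WW 1) (Phi m1 m2 u v) = Phi m1 m2 u (LL m2 v) := by
  have hX0 : der ad (WW 1) (X 0) = 0 := by rw [der_X]; simp [ad, WW]
  have hX1 : der ad (WW 1) (X 1) = 1 := by rw [der_X]; simp [ad, WW]
  have hX2 : der ad (WW 1) (X 2) = 0 := by rw [der_X]; simp [ad, WW]
  have hX3 : der ad (WW 1) (X 3) = - X 3 := by rw [der_X]; simp [ad, WW]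
  have hpow : der ad (WW 1) (X 3 ^ m2) = - (m2 : MvPolynomial (Fin 4) ℂ) * X 3 ^ m2 := by
    rw [Derivation.leibniz_pow, hX3]
    rcases m2 with _ | m
    · simp
    · rw [smul_eq_mul, nsmul_eq_mul, Nat.add_sub_cancel, pow_succ]
      ring
  unfold Phi LL
  rw [Derivation.leibniz, Derivation.leibniz, Derivation.leibniz, hpow,
    Derivation.map_aeval, Derivation.map_aeval, Derivation.leibniz_pow _ (X 2), hX0, hX1, hX2]
  simp only [smul_eq_mul, mul_one, mul_zero, smul_zero, add_zero, zero_add, map_sub, map_mul,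
    map_natCast]
  ring

lemma der0_iter_Phi (m1 m2 t : ℕ) (u v : Polynomial ℂ) :
    (der ad (WW 0))^[t] (Phi m1 m2 u v) = Phi m1 m2 ((LL m1)^[t] u) v := by
  induction t generalizing u with
  | zero => rfl
  | succ t ih => rw [Function.iterate_succ_apply, Function.iterate_succ_apply, der0_Phi, ih]

lemma der1_iter_Phi (m1 m2 t : ℕ) (u v : Polynomial ℂ) :
    (der ad (WW 1))^[t] (Phi m1 m2 u v) = Phi m1 m2 u ((LL m2)^[t] v) := by
  induction t generalizing v with
  | zero => rfl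
  | succ t ih => rw [Function.iterate_succ_apply, Function.iterate_succ_apply, der1_Phi, ih]

noncomputable def Lam (a b t : ℕ) (x : ℂ) : ℂ :=
  ∑ j ∈ Finset.range (t + 1), (t.choose j : ℂ) * (-(b : ℂ)) ^ (t - j) *
    (a.descFactorial j : ℂ) * x ^ (a - j)

lemma eval_LL (a b t : ℕ) (x : ℂ) :
    ((LL b)^[t] ((Polynomial.X : Polynomial ℂ) ^ a)).eval x = Lam a b t x := by
  let Dd : Module.End ℂ (Polynomial ℂ) := Polynomial.derivative
  let c : Module.End ℂ (Polynomial ℂ) := algebraMap ℂ _ (-(b : ℂ))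
  have h1 : ∀ u, (LL b)^[t] u = ((Dd + c) ^ t) u := by
    intro u
    rw [Module.End.pow_apply]
    congr 1
    funext u
    change Polynomial.derivative u - Polynomial.C (b : ℂ) * u =
      Polynomial.derivative u + (-(b : ℂ)) • u
    rw [Polynomial.smul_eq_C_mul, Polynomial.C_neg]
    ring
  have hcomm : Commute Dd c := (Algebra.commutes (-(b : ℂ)) Dd).symm
  rw [h1, hcomm.add_pow]
  rw [LinearMap.sum_apply, Polynomial.eval_finsetSum, Lam]
  apply Finset.sum_congr rfl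
  intro j _
  have h2 : (Dd ^ j * c ^ (t - j) * (t.choose j : Module.End ℂ (Polynomial ℂ)))
      ((Polynomial.X : Polynomial ℂ) ^ a) = (Dd ^ j) (((-(b : ℂ)) ^ (t - j)) •
        ((t.choose j : ℂ) • (Polynomial.X : Polynomial ℂ) ^ a)) := by
    rw [Module.End.mul_apply, Module.End.mul_apply]
    congr 1
    rw [← map_pow, Module.algebraMap_end_apply]
    congr 1
    rw [Module.End.natCast_apply, Nat.cast_smul_eq_nsmul]
  change Polynomial.eval x ((Dd ^ j * c ^ (t - j) * (t.choose j : Module.End ℂ (Polynomial ℂ)))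
      ((Polynomial.X : Polynomial ℂ) ^ a)) = _
  rw [h2, map_smul, map_smul, Module.End.pow_apply]
  simp only [Dd]
  rw [Polynomial.iterate_derivative_X_pow_eq_smul]
  simp only [Polynomial.eval_smul, Polynomial.eval_pow, Polynomial.eval_X, smul_eq_mul]
  ring

lemma eval_Phi (m1 m2 : ℕ) (u v : Polynomial ℂ) (y : Fin 4 → ℂ) :
    eval y (Phi m1 m2 u v) = u.eval (y 0) * v.eval (y 1) * y 2 ^ m1 * y 3 ^ m2 := by
  unfold Phi
  have e : ∀ (j : Fin 4) (u : Polynomial ℂ),
      eval y (Polynomial.aeval (X j : MvPolynomial (Fin 4) ℂ) u) = u.eval (y j) := by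
    intro j u
    induction u using Polynomial.induction_on' with
    | add p q hp hq => rw [map_add, map_add, hp, hq, Polynomial.eval_add]
    | monomial n a =>
      rw [Polynomial.aeval_monomial, map_mul, map_pow, eval_X, Polynomial.eval_monomial]
      congr 1
      exact eval_C a
  rw [map_mul, map_mul, map_mul, map_pow, map_pow, eval_X, eval_X, e, e]

/-- the exponent vector -/
noncomputable def ex (k1 k2 m1 m2 : ℕ) : Fin 4 →₀ ℕ := Finsupp.equivFunOnFinite.symm ![k1, k2, m1, m2]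

lemma monomial_ex (k1 k2 m1 m2 : ℕ) (a : ℂ) :
    monomial (ex k1 k2 m1 m2) a = C a * Phi m1 m2 (Polynomial.X ^ k1) (Polynomial.X ^ k2) := by
  unfold Phi
  rw [monomial_eq, Finsupp.prod_fintype _ _ (by simp), Fin.prod_univ_four]
  simp [ex]

lemma ex_inj {k1 k2 m1 m2 k1' k2' m1' m2' : ℕ} (h : ex k1 k2 m1 m2 = ex k1' k2' m1' m2') :
    k1 = k1' ∧ k2 = k2' ∧ m1 = m1' ∧ m2 = m2' := by
  have h0 := DFunLike.congr_fun h 0
  have h1 := DFunLike.congr_fun h 1
  have h2 := DFunLike.congr_fun h 2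
  have h3 := DFunLike.congr_fun h 3
  simp [ex] at h0 h1 h2 h3
  exact ⟨h0, h1, h2, h3⟩

lemma der_C_mul {σ : Type} (add : σ → Bool) (w : σ → ℂ) (a : ℂ) (f : MvPolynomial σ ℂ) :
    der add w (C a * f) = C a * der add w f := by
  rw [← smul_eq_C_mul, Derivation.map_smul, smul_eq_C_mul]

lemma der_iter_C_mul {σ : Type} (add : σ → Bool) (w : σ → ℂ) (n : ℕ) (a : ℂ)
    (f : MvPolynomial σ ℂ) :
    (der add w)^[n] (C a * f) = C a * (der add w)^[n] f := by
  induction n generalizing f with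
  | zero => rfl
  | succ n ih => rw [Function.iterate_succ_apply, Function.iterate_succ_apply, der_C_mul, ih]

lemma der_iter_sum {σ : Type} (add : σ → Bool) (w : σ → ℂ) (n : ℕ) {ι : Type*} (s : Finset ι)
    (f : ι → MvPolynomial σ ℂ) :
    (der add w)^[n] (∑ i ∈ s, f i) = ∑ i ∈ s, (der add w)^[n] (f i) := by
  induction n generalizing f with
  | zero => rfl
  | succ n ih =>
    rw [Function.iterate_succ_apply, map_sum, ih]
    rfl

theorem zero_estimate_N1 : ∃ c : ℕ, 0 < c ∧ ∀ (A D r q : ℂ), A ≠ 0 → D ≠ 0 → r ≠ 0 → q ≠ 0 →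
    (∀ n : ℤ, A ^ n = 1 → n = 0) → (∀ m n : ℤ, r ^ m * D ^ n = 1 → m = 0 ∧ n = 0) →
    ∀ K M T S : ℕ, 1 ≤ K → 1 ≤ M → 1 ≤ T → 1 ≤ S → c * K < T → c * M < T →
    c * K ^ 2 * M ^ 2 < T ^ 2 * S ^ 3 → c * K ^ 2 * M < T ^ 2 * S ^ 2 →
    c * K * M ^ 2 < T ^ 2 * S ^ 2 → c * K * M < T * S ^ 2 → c * M ^ 2 < T * S ^ 2 →
    ∀ p : ℕ → ℕ → ℕ → ℕ → ℂ,
    (∀ t1 t2 s1 s2 s3 : ℕ, t1 + t2 ≤ 4 * T → s1 ≤ 4 * S → s2 ≤ 4 * S → s3 ≤ 4 * S →
      ∑ k1 ∈ Finset.range (K + 1), ∑ k2 ∈ Finset.range (K + 1),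
        ∑ m1 ∈ Finset.range (M + 1), ∑ m2 ∈ Finset.range (M + 1),
        p k1 k2 m1 m2 * (Lam k1 m1 t1 (s1 : ℂ) * Lam k2 m2 t2 (q * s2) *
          ((-1) ^ s2 * r ^ s3) ^ m1 * (A ^ s1 * D ^ s3) ^ m2) = 0) →
    ∀ k1 ≤ K, ∀ k2 ≤ K, ∀ m1 ≤ M, ∀ m2 ≤ M, p k1 k2 m1 m2 = 0 := by
  refine ⟨2 ^ 22, by norm_num, ?_⟩
  intro A D r q hA0 hD0 hr0 hq0 hA hrD K M T S hK hM _ _ h1 h2 h3 h4 h5 h6 h7 p hp
  have h : Hyp A D r q := ⟨hA0, hD0, hr0, hq0, hA, hrD⟩
  let F : MvPolynomial (Fin 4) ℂ := ∑ k1 ∈ Finset.range (K + 1), ∑ k2 ∈ Finset.range (K + 1),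
        ∑ m1 ∈ Finset.range (M + 1), ∑ m2 ∈ Finset.range (M + 1),
          monomial (ex k1 k2 m1 m2) (p k1 k2 m1 m2)
  have hF0 : F = 0 := by
    refine N1_poly h K M T S hK hM h1 h2 h3 h4 h5 h6 h7 F ?_ ?_
    · refine Submodule.sum_mem _ fun k1 hk1 => Submodule.sum_mem _ fun k2 hk2 =>
        Submodule.sum_mem _ fun m1 hm1 => Submodule.sum_mem _ fun m2 hm2 => ?_
      rw [Finset.mem_range] at hk1 hk2 hm1 hm2
      apply monomial_mem_box
      intro j
      fin_cases j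
      · simp [ex]; omega
      · simp [ex]; omega
      · simp [ex]; omega
      · simp [ex]; omega
    · intro t1 t2 s1 s2 s3 ht hs1 hs2 hs3
      rw [← hp t1 t2 s1 s2 s3 ht hs1 hs2 hs3]
      simp only [F, der_iter_sum, map_sum]
      refine Finset.sum_congr rfl fun k1 _ => Finset.sum_congr rfl fun k2 _ =>
        Finset.sum_congr rfl fun m1 _ => Finset.sum_congr rfl fun m2 _ => ?_
      rw [monomial_ex, der_iter_C_mul, der_iter_C_mul, der1_iter_Phi, der0_iter_Phi, map_mul,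
        eval_C, eval_Phi]
      congr 1
      simp only [pt]
      have e0 : (![((s1 : ℤ) : ℂ), q * ((s2 : ℤ) : ℂ), (-1) ^ (s2 : ℤ) * r ^ (s3 : ℤ),
        A ^ (s1 : ℤ) * D ^ (s3 : ℤ)] : Fin 4 → ℂ) = ![(s1 : ℂ), q * (s2 : ℂ),
          (-1) ^ s2 * r ^ s3, A ^ s1 * D ^ s3] := by
        simp only [Int.cast_natCast, zpow_natCast]
      rw [e0]
      change Polynomial.eval (s1 : ℂ) _ * Polynomial.eval (q * (s2 : ℂ)) _ *
        ((-1) ^ s2 * r ^ s3) ^ m1 * (A ^ s1 * D ^ s3) ^ m2 = _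
      rw [eval_LL, eval_LL]
  intro k1 hk1 k2 hk2 m1 hm1 m2 hm2
  have h8 : coeff (ex k1 k2 m1 m2) F = p k1 k2 m1 m2 := by
    simp only [F, coeff_sum, coeff_monomial]
    rw [Finset.sum_eq_single k1, Finset.sum_eq_single k2, Finset.sum_eq_single m1,
      Finset.sum_eq_single m2]
    · simp
    · intro b _ hb
      rw [if_neg]
      intro he
      exact hb (ex_inj he).2.2.2
    · intro hn; exact absurd (Finset.mem_range.mpr (by omega)) hn
    · intro b _ hb
      apply Finset.sum_eq_zero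
      intro b' _
      rw [if_neg]
      intro he
      exact hb (ex_inj he).2.2.1
    · intro hn; exact absurd (Finset.mem_range.mpr (by omega)) hn
    · intro b _ hb
      apply Finset.sum_eq_zero
      intro b' _
      apply Finset.sum_eq_zero
      intro b'' _
      rw [if_neg]
      intro he
      exact hb (ex_inj he).2.1
    · intro hn; exact absurd (Finset.mem_range.mpr (by omega)) hn
    · intro b _ hb
      apply Finset.sum_eq_zero
      intro b' _
      apply Finset.sum_eq_zero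
      intro b'' _
      apply Finset.sum_eq_zero
      intro b''' _
      rw [if_neg]
      intro he
      exact hb (ex_inj he).1
    · intro hn; exact absurd (Finset.mem_range.mpr (by omega)) hn
  rw [← h8, hF0, coeff_zero]

end Pool.Agent.H364R2.N1Est
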