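import Mathlib

open IsLocalRing RingTheory.Sequence Submodule

namespace Pool.Agent.H364R2

variable {A : Type*} [CommRing A]

/-- the maximal ideal is associated to `M` (elementwise form) -/
def Zed (A : Type*) [CommRing A] [IsLocalRing A] (M : Type*) [AddCommGroup M] [Module A M] : Prop :=
  ∃ z : M, z ≠ 0 ∧ ∀ a ∈ maximalIdeal A, a • z = 0

lemma Zed.congr [IsLocalRing A] {M N : Type*} [AddCommGroup M] [Module A M] [AddCommGroup N]
    [Module A N] (e : M ≃ₗ[A] N) (h : Zed A M) : Zed A N := by
  obtain ⟨z, hz, hz'⟩ := h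
  refine ⟨e z, by simpa using hz, fun a ha => ?_⟩
  rw [← map_smul, hz' a ha, map_zero]

lemma not_regular_of_Zed [IsLocalRing A] {M : Type*} [AddCommGroup M] [Module A M]
    (h : Zed A M) {c : A} (hc : c ∈ maximalIdeal A) : ¬ IsSMulRegular M c := by
  obtain ⟨z, hz, hz'⟩ := h
  intro hr
  apply hz
  apply hr
  simpa using hz' c hc

/-- exchange lemma -/
lemma Zed.exchange [IsLocalRing A] {M : Type*} [AddCommGroup M] [Module A M] {x y : A}
    (hxm : x ∈ maximalIdeal A) (hym : y ∈ maximalIdeal A)
    (hx : IsSMulRegular M x) (hy : IsSMulRegular M y)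
    (h : Zed A (QuotSMulTop x M)) : Zed A (QuotSMulTop y M) := by
  obtain ⟨z, hz, hz'⟩ := h
  obtain ⟨z, rfl⟩ := Submodule.Quotient.mk_surjective _ z
  have key : ∀ a ∈ maximalIdeal A, ∃ w : M, a • z = x • w := by
    intro a ha
    have := hz' a ha
    rw [← Submodule.Quotient.mk_smul, Submodule.Quotient.mk_eq_zero,
      Submodule.mem_smul_pointwise_iff_exists] at this
    obtain ⟨w, -, hw⟩ := this
    exact ⟨w, hw.symm⟩
  obtain ⟨w, hw⟩ := key y hym
  refine ⟨Submodule.Quotient.mk w, ?_, ?_⟩
  · intro h0
    rw [Submodule.Quotient.mk_eq_zero, Submodule.mem_smul_pointwise_iff_exists] at h0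
    obtain ⟨w', -, hw'⟩ := h0
    apply hz
    rw [Submodule.Quotient.mk_eq_zero, Submodule.mem_smul_pointwise_iff_exists]
    refine ⟨w', trivial, ?_⟩
    apply hy
    change y • (x • w') = y • z
    rw [hw, ← hw', smul_comm]
  · intro a ha
    rw [← Submodule.Quotient.mk_smul, Submodule.Quotient.mk_eq_zero,
      Submodule.mem_smul_pointwise_iff_exists]
    obtain ⟨v, hv⟩ := key a ha
    refine ⟨v, trivial, ?_⟩
    apply hx
    change x • (y • v) = x • (a • w)
    rw [smul_comm x y, ← hv, smul_comm x a, ← hw, smul_comm]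

/-- a common regular element in the maximal ideal -/
lemma exists_common_regular [IsLocalRing A] [IsNoetherianRing A] {M N : Type*}
    [AddCommGroup M] [Module A M] [Module.Finite A M]
    [AddCommGroup N] [Module A N] [Module.Finite A N] {x y : A}
    (hxm : x ∈ maximalIdeal A) (hym : y ∈ maximalIdeal A)
    (hx : IsSMulRegular M x) (hy : IsSMulRegular N y) :
    ∃ c ∈ maximalIdeal A, IsSMulRegular M c ∧ IsSMulRegular N c := by
  by_contra hcon
  push Not at hcon
  have hfin : (associatedPrimes A M ∪ associatedPrimes A N).Finite :=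
    (associatedPrimes.finite A M).union (associatedPrimes.finite A N)
  have hsub : ((maximalIdeal A : Ideal A) : Set A) ⊆
      ⋃ i ∈ (associatedPrimes A M ∪ associatedPrimes A N), ((id i : Ideal A) : Set A) := by
    intro c hc
    by_cases h1 : IsSMulRegular M c
    · have h2 := hcon c hc h1
      have h3 : c ∈ ⋃ p ∈ associatedPrimes A N, (p : Set A) := by
        rw [biUnion_associatedPrimes_eq_compl_regular]
        exact h2
      simp only [Set.mem_iUnion] at h3 ⊢
      obtain ⟨p, hp, hcp⟩ := h3
      exact ⟨p, Or.inr hp, hcp⟩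
    · have h3 : c ∈ ⋃ p ∈ associatedPrimes A M, (p : Set A) := by
        rw [biUnion_associatedPrimes_eq_compl_regular]
        exact h1
      simp only [Set.mem_iUnion] at h3 ⊢
      obtain ⟨p, hp, hcp⟩ := h3
      exact ⟨p, Or.inl hp, hcp⟩
  obtain ⟨P, hP, hle⟩ := ((maximalIdeal A).subset_union_prime_finite hfin (f := id) 0 0
    (fun i hi _ _ => by
      rcases hi with hi | hi
      · exact hi.isPrime
      · exact hi.isPrime)).1 hsub
  rcases hP with hP | hP
  · have : x ∈ ⋃ p ∈ associatedPrimes A M, (p : Set A) := by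
      simp only [Set.mem_iUnion]
      exact ⟨P, hP, hle hxm⟩
    rw [biUnion_associatedPrimes_eq_compl_regular] at this
    exact this hx
  · have : y ∈ ⋃ p ∈ associatedPrimes A N, (p : Set A) := by
      simp only [Set.mem_iUnion]
      exact ⟨P, hP, hle hym⟩
    rw [biUnion_associatedPrimes_eq_compl_regular] at this
    exact this hy

lemma ofList_perm {xs ys : List A} (h : xs.Perm ys) : Ideal.ofList xs = Ideal.ofList ys := by
  unfold Ideal.ofList
  congr 1
  ext a
  exact h.mem_iff

/-- Northcott–Rees: all weakly regular sequences of the same length in the maximal ideal of a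
noetherian local ring behave the same with respect to `Zed`. -/
theorem northcott_rees [IsLocalRing A] [IsNoetherianRing A] :
    ∀ (n : ℕ) (M : Type _) [AddCommGroup M] [Module A M] [Module.Finite A M] (xs ys : List A),
      xs.length = n → ys.length = n → (∀ x ∈ xs, x ∈ maximalIdeal A) →
      (∀ y ∈ ys, y ∈ maximalIdeal A) → IsWeaklyRegular M xs → IsWeaklyRegular M ys →
      Zed A (M ⧸ (Ideal.ofList xs • (⊤ : Submodule A M))) →
      Zed A (M ⧸ (Ideal.ofList ys • (⊤ : Submodule A M))) := by
  intro n
  induction n with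
  | zero =>
    intro M _ _ _ xs ys hx hy _ _ _ _ h
    rw [List.length_eq_zero_iff] at hx hy
    subst hx; subst hy; exact h
  | succ n ih =>
    intro M _ _ _ xs ys hx hy hxm hym hxr hyr h
    match xs, hx with
    | x :: xs', hx =>
    match ys, hy with
    | y :: ys', hy =>
    have hx1 : xs'.length = n := by simpa using hx
    have hy1 : ys'.length = n := by simpa using hy
    have hxm0 : x ∈ maximalIdeal A := hxm x (by simp)
    have hym0 : y ∈ maximalIdeal A := hym y (by simp)
    have hxm' : ∀ a ∈ xs', a ∈ maximalIdeal A := fun a ha => hxm a (by simp [ha])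
    have hym' : ∀ a ∈ ys', a ∈ maximalIdeal A := fun a ha => hym a (by simp [ha])
    have hxp : IsWeaklyRegular M (xs' ++ [x]) :=
      IsLocalRing.isWeaklyRegular_of_perm_of_subset_maximalIdeal hxr
        (List.perm_append_singleton x xs').symm hxm
    have hyp : IsWeaklyRegular M (ys' ++ [y]) :=
      IsLocalRing.isWeaklyRegular_of_perm_of_subset_maximalIdeal hyr
        (List.perm_append_singleton y ys').symm hym
    rw [isWeaklyRegular_append_iff, isWeaklyRegular_singleton_iff] at hxp hyp
    obtain ⟨c, hc, hcx, hcy⟩ := exists_common_regular hxm0 hym0 hxp.2 hyp.2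
    have hxc : IsWeaklyRegular M (c :: xs') := by
      refine IsLocalRing.isWeaklyRegular_of_perm_of_subset_maximalIdeal (rs := xs' ++ [c]) ?_
        (List.perm_append_singleton c xs') ?_
      · rw [isWeaklyRegular_append_iff, isWeaklyRegular_singleton_iff]
        exact ⟨hxp.1, hcx⟩
      · intro a ha
        rw [List.mem_append, List.mem_singleton] at ha
        rcases ha with ha | rfl
        · exact hxm' a ha
        · exact hc
    have hyc : IsWeaklyRegular M (c :: ys') := by
      refine IsLocalRing.isWeaklyRegular_of_perm_of_subset_maximalIdeal (rs := ys' ++ [c]) ?_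
        (List.perm_append_singleton c ys') ?_
      · rw [isWeaklyRegular_append_iff, isWeaklyRegular_singleton_iff]
        exact ⟨hyp.1, hcy⟩
      · intro a ha
        rw [List.mem_append, List.mem_singleton] at ha
        rcases ha with ha | rfl
        · exact hym' a ha
        · exact hc
    rw [isWeaklyRegular_cons_iff] at hxc hyc
    -- transport
    have h1 : Zed A (QuotSMulTop x (M ⧸ (Ideal.ofList xs' • (⊤ : Submodule A M)))) :=
      h.congr (quotOfListConsSMulTopEquivQuotSMulTopOuter M x xs')
    have h2 : Zed A (QuotSMulTop c (M ⧸ (Ideal.ofList xs' • (⊤ : Submodule A M)))) :=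
      h1.exchange hxm0 hc hxp.2 hcx
    have h3 : Zed A (M ⧸ (Ideal.ofList (c :: xs') • (⊤ : Submodule A M))) :=
      h2.congr (quotOfListConsSMulTopEquivQuotSMulTopOuter M c xs').symm
    have h4 : Zed A (QuotSMulTop c M ⧸ (Ideal.ofList xs' • (⊤ : Submodule A (QuotSMulTop c M)))) :=
      h3.congr (quotOfListConsSMulTopEquivQuotSMulTopInner M c xs')
    have h5 := ih (QuotSMulTop c M) xs' ys' hx1 hy1 hxm' hym' hxc.2 hyc.2 h4
    have h6 : Zed A (M ⧸ (Ideal.ofList (c :: ys') • (⊤ : Submodule A M))) :=
      h5.congr (quotOfListConsSMulTopEquivQuotSMulTopInner M c ys').symm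
    have h7 : Zed A (QuotSMulTop c (M ⧸ (Ideal.ofList ys' • (⊤ : Submodule A M)))) :=
      h6.congr (quotOfListConsSMulTopEquivQuotSMulTopOuter M c ys')
    have h8 : Zed A (QuotSMulTop y (M ⧸ (Ideal.ofList ys' • (⊤ : Submodule A M)))) :=
      h7.exchange hc hym0 hcy hyp.2
    exact h8.congr (quotOfListConsSMulTopEquivQuotSMulTopOuter M y ys').symm

/-- If the maximal ideal contains a weakly regular sequence of length `> k` then it is not
associated to the quotient by any weakly regular sequence of length `k` in it. -/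
theorem not_Zed_of_longer [IsLocalRing A] [IsNoetherianRing A] (M : Type*) [AddCommGroup M]
    [Module A M] [Module.Finite A M] (fs gs : List A)
    (hf : ∀ x ∈ fs, x ∈ maximalIdeal A) (hg : ∀ y ∈ gs, y ∈ maximalIdeal A)
    (hfr : IsWeaklyRegular M fs) (hgr : IsWeaklyRegular M gs) (hlen : fs.length < gs.length) :
    ¬ Zed A (M ⧸ (Ideal.ofList fs • (⊤ : Submodule A M))) := by
  intro h
  set k := fs.length with hk
  have hgs : gs = gs.take k ++ gs.drop k := (List.take_append_drop k gs).symm
  have h1 : IsWeaklyRegular M (gs.take k) := by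
    rw [hgs, isWeaklyRegular_append_iff] at hgr
    exact hgr.1
  have h2 : IsWeaklyRegular (M ⧸ (Ideal.ofList (gs.take k) • (⊤ : Submodule A M))) (gs.drop k) := by
    rw [hgs, isWeaklyRegular_append_iff] at hgr
    exact hgr.2
  have h3 := northcott_rees k M fs (gs.take k) rfl (by simp; omega) hf
    (fun y hy => hg y (List.mem_of_mem_take hy)) hfr h1 h
  have hne : gs.drop k ≠ [] := by
    intro h0
    rw [List.drop_eq_nil_iff] at h0
    omega
  obtain ⟨g, gs', hgs'⟩ := List.exists_cons_of_ne_nil hne
  rw [hgs', isWeaklyRegular_cons_iff] at h2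
  have hgm : g ∈ maximalIdeal A := hg g (List.mem_of_mem_drop (by rw [hgs']; simp))
  exact not_regular_of_Zed h3 hgm h2.1

end Pool.Agent.H364R2
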