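import Pool.Agent.H364R2.Defs
import Pool.Agent.H364R2.Box

open MvPolynomial

namespace Pool.Agent.H364R2

variable {σ : Type} (add : σ → Bool)

lemma der_X (w : σ → ℂ) (j : σ) :
    der add w (X j) = if add j then C (w j) else C (w j) * X j := by
  simp [der]

@[simp] lemma der_C (w : σ → ℂ) (a : ℂ) : der add w (C a) = 0 := by
  simp [der]

lemma tr_X (g : σ → ℂ) (j : σ) :
    tr add g (X j) = if add j then X j + C (g j) else C (g j) * X j := by
  simp [tr]

@[simp] lemma tr_C (g : σ → ℂ) (a : ℂ) : tr add g (C a) = C a := by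
  simp [tr]

lemma der_tr (w g : σ → ℂ) (f : MvPolynomial σ ℂ) :
    der add w (tr add g f) = tr add g (der add w f) := by
  induction f using MvPolynomial.induction_on with
  | C a => simp
  | add p q hp hq => simp [hp, hq]
  | mul_X p j hp =>
    rw [map_mul, Derivation.leibniz, Derivation.leibniz, map_add, smul_eq_mul, smul_eq_mul,
      smul_eq_mul, smul_eq_mul, map_mul, map_mul, hp]
    have h1 : der add w (tr add g (X j)) = tr add g (der add w (X j)) := by
      rw [tr_X, der_X]
      split_ifs with h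
      · simp [der_X, h]
      · rw [Derivation.leibniz, smul_eq_mul, smul_eq_mul, der_C, der_X, map_mul (tr add g), tr_C,
          tr_X]
        simp only [h, Bool.false_eq_true, if_false]
        ring
    rw [h1]

lemma tr_tr (g h : σ → ℂ) (f : MvPolynomial σ ℂ) :
    tr add g (tr add h f) = tr add (gmul add g h) f := by
  induction f using MvPolynomial.induction_on with
  | C a => simp
  | add p q hp hq => simp [hp, hq]
  | mul_X p j hp =>
    rw [map_mul, map_mul, map_mul, hp]
    have h1 : tr add g (tr add h (X j)) = tr add (gmul add g h) (X j) := by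
      rw [tr_X, tr_X]
      unfold gmul
      split_ifs with h
      · rw [map_add, tr_C, tr_X, C_add]
        simp only [h, if_true]
        ring
      · rw [map_mul, tr_C, tr_X, C_mul]
        simp only [h, Bool.false_eq_true, if_false]
        ring
    rw [h1]

lemma tr_gone (f : MvPolynomial σ ℂ) : tr add (gone add) f = f := by
  induction f using MvPolynomial.induction_on with
  | C a => simp
  | add p q hp hq => simp [hp, hq]
  | mul_X p j hp =>
    have h1 : tr add (gone add) (X j) = X j := by
      rw [tr_X]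
      unfold gone
      split_ifs with h
      · simp
      · simp
    rw [map_mul, hp, h1]

lemma eval_tr (p g : σ → ℂ) (f : MvPolynomial σ ℂ) :
    eval p (tr add g f) = eval (gmul add p g) f := by
  induction f using MvPolynomial.induction_on with
  | C a => simp
  | add p q hp hq => simp [hp, hq]
  | mul_X q j hp =>
    have h1 : eval p (tr add g (X j)) = eval (gmul add p g) (X j) := by
      rw [tr_X, eval_X]
      unfold gmul
      split_ifs with h
      · rw [map_add, eval_X, eval_C]
      · rw [map_mul, eval_X, eval_C, mul_comm]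
    rw [map_mul, map_mul, map_mul, hp, h1]

lemma gmul_gone (g : σ → ℂ) : gmul add g (gone add) = g := by
  funext j
  unfold gmul gone
  split_ifs <;> simp

lemma gone_gmul (g : σ → ℂ) : gmul add (gone add) g = g := by
  funext j
  unfold gmul gone
  split_ifs <;> simp

lemma gmul_comm (g h : σ → ℂ) : gmul add g h = gmul add h g := by
  funext j
  unfold gmul
  split_ifs
  · ring
  · ring

lemma gmul_assoc (g h k : σ → ℂ) : gmul add (gmul add g h) k = gmul add g (gmul add h k) := by
  funext j
  unfold gmul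
  split_ifs
  · ring
  · ring

/-- the inverse element -/
noncomputable def ginv (g : σ → ℂ) : σ → ℂ := fun j => if add j then - g j else (g j)⁻¹

lemma gmul_ginv {g : σ → ℂ} (hg : IsG add g) : gmul add g (ginv add g) = gone add := by
  funext j
  unfold gmul gone ginv
  split_ifs with h
  · ring
  · exact mul_inv_cancel₀ (hg j (by simpa using h))

lemma ginv_gmul {g : σ → ℂ} (hg : IsG add g) : gmul add (ginv add g) g = gone add := by
  rw [gmul_comm, gmul_ginv add hg]

lemma isG_gone : IsG add (gone add) := by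
  intro j hj
  unfold gone
  simp [hj]

lemma isG_gmul {g h : σ → ℂ} (hg : IsG add g) (hh : IsG add h) : IsG add (gmul add g h) := by
  intro j hj
  unfold gmul
  simp [hj, hg j hj, hh j hj]

lemma isG_ginv {g : σ → ℂ} (hg : IsG add g) : IsG add (ginv add g) := by
  intro j hj
  unfold ginv
  simp [hj, hg j hj]

lemma tr_ginv_tr {g : σ → ℂ} (hg : IsG add g) (f : MvPolynomial σ ℂ) :
    tr add (ginv add g) (tr add g f) = f := by
  rw [tr_tr, ginv_gmul add hg, tr_gone]

lemma tr_tr_ginv {g : σ → ℂ} (hg : IsG add g) (f : MvPolynomial σ ℂ) :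
    tr add g (tr add (ginv add g) f) = f := by
  rw [tr_tr, gmul_ginv add hg, tr_gone]

lemma tr_mem_supported (g : σ → ℂ) {B : Set σ} {f : MvPolynomial σ ℂ}
    (hf : f ∈ supported ℂ B) : tr add g f ∈ supported ℂ B := by
  rw [supported] at hf
  refine Algebra.adjoin_induction (hx := hf) ?_ ?_ ?_ ?_
  · rintro _ ⟨j, hj, rfl⟩
    rw [tr_X]
    have hX : (X j : MvPolynomial σ ℂ) ∈ supported ℂ B := Algebra.subset_adjoin ⟨j, hj, rfl⟩
    split_ifs
    · exact Subalgebra.add_mem _ hX (Subalgebra.algebraMap_mem _ (g j))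
    · exact Subalgebra.mul_mem _ (Subalgebra.algebraMap_mem _ (g j)) hX
  · intro r
    have : tr add g (algebraMap ℂ (MvPolynomial σ ℂ) r) = algebraMap ℂ (MvPolynomial σ ℂ) r :=
      (tr add g).commutes r
    rw [this]
    exact Subalgebra.algebraMap_mem _ r
  · intro x y _ _ hx hy
    rw [map_add]
    exact Subalgebra.add_mem _ hx hy
  · intro x y _ _ hx hy
    rw [map_mul]
    exact Subalgebra.mul_mem _ hx hy

lemma der_mem_supported (w : σ → ℂ) {B : Set σ} {f : MvPolynomial σ ℂ}
    (hf : f ∈ supported ℂ B) : der add w f ∈ supported ℂ B := by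
  rw [supported] at hf
  refine Algebra.adjoin_induction (hx := hf) ?_ ?_ ?_ ?_
  · rintro _ ⟨j, hj, rfl⟩
    rw [der_X]
    have hX : (X j : MvPolynomial σ ℂ) ∈ supported ℂ B := Algebra.subset_adjoin ⟨j, hj, rfl⟩
    split_ifs
    · exact Subalgebra.algebraMap_mem _ (w j)
    · exact Subalgebra.mul_mem _ (Subalgebra.algebraMap_mem _ (w j)) hX
  · intro r
    rw [(der add w).map_algebraMap]
    exact Subalgebra.zero_mem _
  · intro x y _ _ hx hy
    rw [map_add]
    exact Subalgebra.add_mem _ hx hy
  · intro x y hx' hy' hx hy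
    rw [Derivation.leibniz, smul_eq_mul, smul_eq_mul]
    exact Subalgebra.add_mem _ (Subalgebra.mul_mem _ hx' hy) (Subalgebra.mul_mem _ hy' hx)

/-- translate of an ideal -/
noncomputable def trI (g : σ → ℂ) (P : Ideal (MvPolynomial σ ℂ)) : Ideal (MvPolynomial σ ℂ) :=
  P.comap (tr add g).toRingHom

lemma mem_trI {g : σ → ℂ} {P : Ideal (MvPolynomial σ ℂ)} {f : MvPolynomial σ ℂ} :
    f ∈ trI add g P ↔ tr add g f ∈ P := Iff.rfl

lemma GPrime.trI {P : Ideal (MvPolynomial σ ℂ)} (hP : GPrime add P) (g : σ → ℂ)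
    (hg : IsG add g) : GPrime add (trI add g P) := by
  obtain ⟨h1, h2⟩ := hP
  refine ⟨Ideal.IsPrime.comap _, fun j hj h => h2 j hj ?_⟩
  rw [mem_trI, tr_X] at h
  simp only [hj, Bool.false_eq_true, if_false] at h
  have h3 := P.mul_mem_left (C (g j)⁻¹) h
  rw [← mul_assoc, ← C_mul, inv_mul_cancel₀ (hg j hj), C_1, one_mul] at h3
  exact h3

lemma Indep.trI {P : Ideal (MvPolynomial σ ℂ)} {B : Set σ} (hB : Indep P B) (g : σ → ℂ)
    (hg : IsG add g) : Indep (trI add g P) B := by
  intro f hf hfP
  rw [mem_trI] at hfP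
  have h1 := hB _ (tr_mem_supported add g hf) hfP
  have h2 := tr_ginv_tr add hg f
  rw [h1, map_zero] at h2
  exact h2.symm

lemma Indep.mono {P : Ideal (MvPolynomial σ ℂ)} {B B' : Set σ} (hB : Indep P B) (h : B' ⊆ B) :
    Indep P B' := fun f hf hfP => hB f (supported_mono h hf) hfP

/-! ### box degrees -/

variable [Fintype σ] [DecidableEq σ]

omit [Fintype σ] [DecidableEq σ] in
lemma box_map_mem {L : σ → ℕ} {n : ℕ} {K : Type*} [Field K] {τ : Type*}
    {L' : τ → ℕ} (T : MvPolynomial σ ℂ →+ MvPolynomial τ K)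
    (hT : ∀ m : σ →₀ ℕ, (∀ j, m j ≤ n * L j) → ∀ a, T (monomial m a) ∈ box K L' n)
    {f : MvPolynomial σ ℂ} (hf : f ∈ box ℂ L n) : T f ∈ box K L' n := by
  rw [f.as_sum, map_sum]
  apply Submodule.sum_mem
  intro m hm
  exact hT m ((mem_box ℂ).mp hf m hm) _

omit [Fintype σ] [DecidableEq σ] in
lemma monomial_mem_box {L : σ → ℕ} {n : ℕ} {K : Type*} [Field K] {m : σ →₀ ℕ}
    (h : ∀ j, m j ≤ n * L j) (a : K) : monomial m a ∈ box K L n := by
  classical
  rw [mem_box]
  intro m' hm' j
  rw [support_monomial] at hm'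
  split_ifs at hm' with h0
  · simp at hm'
  · rw [Finset.mem_singleton] at hm'
    rw [hm']; exact h j

omit [Fintype σ] in
lemma degreeOf_tr_X (g : σ → ℂ) (i j : σ) :
    degreeOf i (tr add g (X j)) ≤ if i = j then 1 else 0 := by
  rw [tr_X]
  have hX : degreeOf i (X j : MvPolynomial σ ℂ) ≤ if i = j then 1 else 0 := by
    rw [degreeOf_X]
  by_cases h1 : add j = true
  · rw [if_pos h1]
    refine (degreeOf_add_le _ _ _).trans ?_
    rw [degreeOf_C]
    exact max_le hX (Nat.zero_le _)
  · rw [if_neg h1]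
    exact (degreeOf_C_mul_le _ _ _).trans hX

omit [Fintype σ] in
lemma tr_monomial_box (g : σ → ℂ) {L : σ → ℕ} {n : ℕ} (m : σ →₀ ℕ) (h : ∀ j, m j ≤ n * L j)
    (a : ℂ) : tr add g (monomial m a) ∈ box ℂ L n := by
  rw [mem_box]
  have key : ∀ i, degreeOf i (tr add g (monomial m a)) ≤ m i := by
    intro i
    rw [monomial_eq, map_mul, tr_C]
    refine (degreeOf_C_mul_le _ _ _).trans ?_
    rw [Finsupp.prod, map_prod]
    refine (degreeOf_prod_le _ _ _).trans ?_
    have h1 : ∀ j ∈ m.support, degreeOf i (tr add g (X j ^ m j)) ≤ if i = j then m j else 0 := by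
      intro j _
      rw [map_pow]
      refine (degreeOf_pow_le _ _ _).trans ?_
      have := degreeOf_tr_X add g i j
      split_ifs at this ⊢ with hij
      · nlinarith
      · simp only [Nat.le_zero] at this
        rw [this, mul_zero]
    refine (Finset.sum_le_sum h1).trans ?_
    rw [Finset.sum_ite_eq]
    split_ifs
    · exact le_rfl
    · exact Nat.zero_le _
  intro m' hm' j
  exact ((degreeOf_le_iff.mp (key j)) m' hm').trans (h j)

omit [Fintype σ] in
lemma tr_mem_box (g : σ → ℂ) {L : σ → ℕ} {n : ℕ} {f : MvPolynomial σ ℂ} (hf : f ∈ box ℂ L n) :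
    tr add g f ∈ box ℂ L n :=
  box_map_mem (tr add g : MvPolynomial σ ℂ →ₐ[ℂ] MvPolynomial σ ℂ).toRingHom.toAddMonoidHom
    (fun m hm a => tr_monomial_box add g m hm a) hf

omit [Fintype σ] [DecidableEq σ] in
lemma der_mem_box (w : σ → ℂ) {L : σ → ℕ} {n : ℕ} {f : MvPolynomial σ ℂ} (hf : f ∈ box ℂ L n) :
    der add w f ∈ box ℂ L n := by
  refine box_map_mem ((der add w : MvPolynomial σ ℂ →ₗ[ℂ] MvPolynomial σ ℂ).toAddMonoidHom)
    (fun m hm a => ?_) hf
  change der add w (monomial m a) ∈ box ℂ L n
  unfold der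
  rw [mkDerivation_monomial]
  apply Submodule.smul_mem
  rw [Finsupp.sum]
  apply Submodule.sum_mem
  intro i hi
  rw [smul_eq_mul]
  have hi' : m i ≠ 0 := Finsupp.mem_support_iff.mp hi
  split_ifs
  · rw [mul_comm, ← smul_eq_C_mul]
    apply Submodule.smul_mem
    apply monomial_mem_box
    intro j
    exact (Nat.sub_le _ _).trans (hm j)
  · rw [mul_left_comm, ← smul_eq_C_mul]
    apply Submodule.smul_mem
    rw [X, monomial_mul]
    apply monomial_mem_box
    intro j
    have : (m - Finsupp.single i 1 + Finsupp.single i 1) = m := by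
      apply tsub_add_cancel_of_le
      rw [Finsupp.single_le_iff]
      omega
    rw [this]
    exact hm j

/-! ### iterated derivatives -/

omit [Fintype σ] [DecidableEq σ] in
lemma derIter_tr {l : ℕ} (W : Fin l → σ → ℂ) (g : σ → ℂ) (ks : List (Fin l))
    (f : MvPolynomial σ ℂ) :
    derIter add W ks (tr add g f) = tr add g (derIter add W ks f) := by
  induction ks with
  | nil => rfl
  | cons k ks ih =>
    change der add (W k) (derIter add W ks (tr add g f)) = _
    rw [ih, der_tr]
    rfl

omit [Fintype σ] [DecidableEq σ] in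
lemma derIter_append {l : ℕ} (W : Fin l → σ → ℂ) (ks ks' : List (Fin l))
    (f : MvPolynomial σ ℂ) :
    derIter add W (ks ++ ks') f = derIter add W ks (derIter add W ks' f) := by
  induction ks with
  | nil => rfl
  | cons k ks ih =>
    change der add (W k) (derIter add W (ks ++ ks') f) = _
    rw [ih]
    rfl

omit [Fintype σ] [DecidableEq σ] in
lemma derIter_add {l : ℕ} (W : Fin l → σ → ℂ) (ks : List (Fin l))
    (f g : MvPolynomial σ ℂ) :
    derIter add W ks (f + g) = derIter add W ks f + derIter add W ks g := by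
  induction ks with
  | nil => rfl
  | cons k ks ih =>
    change der add (W k) (derIter add W ks (f + g)) = _
    rw [ih, map_add]
    rfl

omit [Fintype σ] [DecidableEq σ] in
lemma derIter_smul {l : ℕ} (W : Fin l → σ → ℂ) (ks : List (Fin l)) (c : ℂ)
    (f : MvPolynomial σ ℂ) :
    derIter add W ks (c • f) = c • derIter add W ks f := by
  induction ks with
  | nil => rfl
  | cons k ks ih =>
    change der add (W k) (derIter add W ks (c • f)) = _
    rw [ih, Derivation.map_smul]
    rfl

omit [Fintype σ] [DecidableEq σ] in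
lemma derIter_zero {l : ℕ} (W : Fin l → σ → ℂ) (ks : List (Fin l)) :
    derIter add W ks (0 : MvPolynomial σ ℂ) = 0 := by
  have := derIter_smul add W ks 0 0
  simpa using this

omit [Fintype σ] [DecidableEq σ] in
lemma derIter_mem_box {l : ℕ} (W : Fin l → σ → ℂ) (ks : List (Fin l)) {L : σ → ℕ} {n : ℕ}
    {f : MvPolynomial σ ℂ} (hf : f ∈ box ℂ L n) : derIter add W ks f ∈ box ℂ L n := by
  induction ks with
  | nil => exact hf
  | cons k ks ih => exact der_mem_box add (W k) ih

end Pool.Agent.H364R2
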