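import Pool.Agent.H364R2.N1
import Pool.Agent.H301R2.SSE.Forms

/-!
Pairs and triples among `π + e`, `π e`, `π ^ e`, `e ^ e`, `π ^ π` which are not all algebraic.
-/

namespace Pool.Agent.H364R2.PiE

open Pool.Agent.H340R2.LW Pool.Agent.H301R2.SSE

/-- `π + e` and `π e` are not both algebraic -/
theorem sum_prod (h1 : IsAlgebraic ℚ (Real.pi + Real.exp 1))
    (h2 : IsAlgebraic ℚ (Real.pi * Real.exp 1)) : False := by
  apply transcendental_pi
  have h3 : IsAlgebraic ℚ ((Real.pi - Real.exp 1) ^ 2) := by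
    have e : (Real.pi - Real.exp 1) ^ 2 =
        (Real.pi + Real.exp 1) ^ 2 - (4 : ℕ) • (Real.pi * Real.exp 1) := by
      simp only [nsmul_eq_mul]
      push_cast
      ring
    rw [e]
    exact (h1.pow 2).sub (h2.nsmul 4)
  have h4 : IsAlgebraic ℚ (Real.pi - Real.exp 1) := IsAlgebraic.of_pow (by norm_num) h3
  have h5 : IsAlgebraic ℚ (((1 / 2 : ℚ) : ℝ) * ((Real.pi + Real.exp 1) + (Real.pi - Real.exp 1))) :=
    (isAlgebraic_algebraMap (1 / 2 : ℚ)).mul (h1.add h4)
  have e : ((1 / 2 : ℚ) : ℝ) * ((Real.pi + Real.exp 1) + (Real.pi - Real.exp 1)) = Real.pi := by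
    push_cast
    ring
  rwa [e] at h5

/-- if `π + e` is rational then `π ^ e` and `π ^ π` are not both algebraic -/
theorem sum_pow (h1 : ¬ Irrational (Real.pi + Real.exp 1))
    (h2 : IsAlgebraic ℚ (Real.pi ^ Real.exp 1)) (h3 : IsAlgebraic ℚ (Real.pi ^ Real.pi)) :
    False := by
  unfold Irrational at h1
  push Not at h1
  obtain ⟨a, ha⟩ := h1
  apply transcendental_pi
  have hpi := Real.pi_pos
  have h4 : IsAlgebraic ℚ (Real.pi ^ ((a : ℚ) : ℝ)) := by
    rw [ha, Real.rpow_add hpi]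
    exact h3.mul h2
  have h5 : IsAlgebraic ℚ ((Real.pi ^ ((a : ℚ) : ℝ)) ^ a.den) := h4.pow _
  have h6 : (Real.pi ^ ((a : ℚ) : ℝ)) ^ a.den = Real.pi ^ a.num := by
    rw [← Real.rpow_natCast, ← Real.rpow_mul hpi.le, ← Real.rpow_intCast]
    congr 1
    have : ((a * a.den : ℚ) : ℝ) = ((a.num : ℚ) : ℝ) := by rw [Rat.mul_den_eq_num]
    push_cast at this
    exact_mod_cast this
  rw [h6] at h5
  have ha0 : 0 < a := by
    have : (0 : ℝ) < a := by rw [ha]; positivity
    exact_mod_cast this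
  have hnum : 0 < a.num := Rat.num_pos.mpr ha0
  obtain ⟨n, hn⟩ := Int.eq_ofNat_of_zero_le hnum.le
  rw [hn, zpow_natCast] at h5
  have hn0 : 0 < n := by omega
  exact h5.of_pow hn0

theorem rat_isAlgebraic {x : ℝ} (h : ¬ Irrational x) : IsAlgebraic ℚ x := by
  unfold Irrational at h
  push Not at h
  obtain ⟨a, rfl⟩ := h
  exact isAlgebraic_algebraMap a

theorem toC {x : ℝ} (h : IsAlgebraic ℚ x) : IsAlgebraic ℚ (x : ℂ) := h.algebraMap (A := ℂ)

/-- Baker's theorem for `1`, `π` and a real logarithm -/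
theorem pair_indep {lam : ℝ} (h0 : lam ≠ 0) (hlam : IsAlgebraic ℚ (Complex.exp lam))
    {a b c : ℂ} (ha : IsAlgebraic ℚ a) (hb : IsAlgebraic ℚ b) (hc : IsAlgebraic ℚ c)
    (h : a + b * (Real.pi : ℂ) + c * (lam : ℂ) = 0) : a = 0 ∧ b = 0 ∧ c = 0 := by
  have hω : LinearIndependent ℚ (![(lam : ℂ), Real.pi * Complex.I] : Fin 2 → ℂ) := by
    rw [LinearIndependent.pair_iff]
    intro s t hst
    have hre := congrArg Complex.re hst
    have him := congrArg Complex.im hst
    simp only [Rat.smul_def, Complex.add_re,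
      Complex.add_im, Complex.mul_re, Complex.mul_im, Complex.ratCast_re, Complex.ratCast_im,
      Complex.ofReal_re, Complex.ofReal_im, Complex.I_re, Complex.I_im, Complex.zero_re,
      Complex.zero_im, mul_zero, zero_mul, sub_zero, add_zero, mul_one, zero_add, sub_self]
      at hre him
    constructor
    · have := (mul_eq_zero.mp hre).resolve_right h0
      exact_mod_cast this
    · have := (mul_eq_zero.mp him).resolve_right Real.pi_ne_zero
      exact_mod_cast this
  obtain ⟨h3, h4⟩ := Pool.Agent.H297R2.baker_inhom (![(lam : ℂ), Real.pi * Complex.I] : Fin 2 → ℂ)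
    (by
      intro i
      fin_cases i
      · exact hlam
      · change IsAlgebraic ℚ (Complex.exp (Real.pi * Complex.I))
        rw [Complex.exp_pi_mul_I]
        exact isAlgebraic_one.neg) hω a ha ![c, -(Complex.I * b)] (by
      intro i
      fin_cases i
      · exact hc
      · exact (isAlgebraic_I.mul hb).neg) (by
      rw [Fin.sum_univ_two]
      simp only [Matrix.cons_val_zero, Matrix.cons_val_one]
      have : Complex.I * Complex.I = -1 := Complex.I_mul_I
      rw [← h]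
      linear_combination (-(b * (Real.pi : ℂ))) * this)
  refine ⟨h3, ?_, h4 0⟩
  have h5 := h4 1
  simp only [Matrix.cons_val_one, Matrix.cons_val_zero, neg_eq_zero] at h5
  exact (mul_eq_zero.mp h5).resolve_left Complex.I_ne_zero

theorem Lt_pi : (Real.pi : ℂ) ∈ Lt := by
  have h1 : (Real.pi * Complex.I : ℂ) ∈ Lt := Lt_log (by
    rw [Complex.exp_pi_mul_I]; exact isAlgebraic_one.neg)
  have h2 := Lt_mul (isAlgebraic_I.neg) h1
  have e : -Complex.I * (Real.pi * Complex.I : ℂ) = Real.pi := by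
    have : Complex.I * Complex.I = -1 := Complex.I_mul_I
    linear_combination (-(Real.pi : ℂ)) * this
  rwa [e] at h2

theorem exp_pi_log : Complex.exp ((Real.pi * Real.log Real.pi : ℝ) : ℂ) =
    ((Real.pi ^ Real.pi : ℝ) : ℂ) := by
  rw [← Complex.ofReal_exp, Real.rpow_def_of_pos Real.pi_pos, mul_comm]

theorem exp_e_log : Complex.exp ((Real.exp 1 * Real.log Real.pi : ℝ) : ℂ) =
    ((Real.pi ^ Real.exp 1 : ℝ) : ℂ) := by
  rw [← Complex.ofReal_exp, Real.rpow_def_of_pos Real.pi_pos, mul_comm]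

theorem exp_log_add_one : Complex.exp ((Real.log Real.pi + 1 : ℝ) : ℂ) =
    ((Real.pi * Real.exp 1 : ℝ) : ℂ) := by
  rw [← Complex.ofReal_exp, Real.exp_add, Real.exp_log Real.pi_pos]

theorem log_pi_pos : 0 < Real.log Real.pi := Real.log_pos (by linarith [Real.pi_gt_three])

theorem one_e_indep (a b : ℂ) (ha : IsAlgebraic ℚ a) (hb : IsAlgebraic ℚ b)
    (h : a * (1 : ℂ) + b * ((Real.exp 1 : ℝ) : ℂ) = 0) : a = 0 ∧ b = 0 := by
  by_cases hb0 : b = 0
  · subst hb0
    simpa using h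
  · exfalso
    apply transcendental_exp_one_complex
    have : Complex.exp 1 = -a * b⁻¹ := by
      have e : ((Real.exp 1 : ℝ) : ℂ) = Complex.exp 1 := by simp
      rw [e] at h
      field_simp
      linear_combination h
    rw [this]
    exact ha.neg.mul hb.inv

/-- if `π e` is algebraic then `e ^ e` and `π ^ π` are not both algebraic -/
theorem prod_ee_pipi (h1 : IsAlgebraic ℚ (Real.pi * Real.exp 1))
    (h2 : IsAlgebraic ℚ (Real.exp 1 ^ Real.exp 1)) (h3 : IsAlgebraic ℚ (Real.pi ^ Real.pi)) :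
    False := by
  have he : Real.exp 1 ^ Real.exp 1 = Real.exp (Real.exp 1) := by
    rw [← Real.exp_one_rpow (Real.exp 1)]
  rw [he] at h2
  have hL : ((Real.log Real.pi : ℝ) : ℂ) ∈ Lt := by
    have h4 : ((Real.log Real.pi + 1 : ℝ) : ℂ) ∈ Lt := Lt_log (by
      rw [exp_log_add_one]; exact toC h1)
    have h5 := Lt.sub_mem h4 Lt_one
    have e : ((Real.log Real.pi + 1 : ℝ) : ℂ) - 1 = ((Real.log Real.pi : ℝ) : ℂ) := by
      push_cast; ring
    rwa [e] at h5
  have hE : ((Real.exp 1 : ℝ) : ℂ) ∈ Lt := Lt_log (by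
    rw [← Complex.ofReal_exp]; exact toC h2)
  have hPL : ((Real.pi * Real.log Real.pi : ℝ) : ℂ) ∈ Lt := Lt_log (by
    rw [exp_pi_log]; exact toC h3)
  refine strong_six ![1, ((Real.exp 1 : ℝ) : ℂ)]
    ![1, (Real.pi : ℂ), ((Real.pi * Real.log Real.pi : ℝ) : ℂ)] ?_ ?_ ?_
  · intro a b ha hb h
    exact one_e_indep a b ha hb h
  · intro c hc h
    rw [Fin.sum_univ_three] at h
    simp only [Matrix.cons_val_zero, Matrix.cons_val_one, Matrix.cons_val, mul_one] at h
    obtain ⟨h6, h7, h8⟩ := pair_indep (mul_pos Real.pi_pos log_pi_pos).ne'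
      (by rw [exp_pi_log]; exact toC h3) (hc 0) (hc 1) (hc 2) h
    intro j
    fin_cases j
    · exact h6
    · exact h7
    · exact h8
  · intro i j
    fin_cases i
    · fin_cases j
      · change (1 : ℂ) * 1 ∈ Lt
        rw [one_mul]; exact Lt_one
      · change (1 : ℂ) * (Real.pi : ℂ) ∈ Lt
        rw [one_mul]; exact Lt_pi
      · change (1 : ℂ) * ((Real.pi * Real.log Real.pi : ℝ) : ℂ) ∈ Lt
        rw [one_mul]; exact hPL
    · fin_cases j
      · change ((Real.exp 1 : ℝ) : ℂ) * 1 ∈ Lt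
        rw [mul_one]; exact hE
      · change ((Real.exp 1 : ℝ) : ℂ) * (Real.pi : ℂ) ∈ Lt
        apply Lt_alg
        have := toC h1
        push_cast at this ⊢
        rwa [mul_comm]
      · change ((Real.exp 1 : ℝ) : ℂ) * ((Real.pi * Real.log Real.pi : ℝ) : ℂ) ∈ Lt
        have h9 := Lt_mul (toC h1) hL
        have e : ((Real.exp 1 : ℝ) : ℂ) * ((Real.pi * Real.log Real.pi : ℝ) : ℂ) =
            ((Real.pi * Real.exp 1 : ℝ) : ℂ) * ((Real.log Real.pi : ℝ) : ℂ) := by
          push_cast; ring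
        rwa [e]

/-- if `π e` is algebraic then `π ^ e` and `π ^ π` are not both algebraic -/
theorem prod_pie_pipi (h1 : IsAlgebraic ℚ (Real.pi * Real.exp 1))
    (h2 : IsAlgebraic ℚ (Real.pi ^ Real.exp 1)) (h3 : IsAlgebraic ℚ (Real.pi ^ Real.pi)) :
    False := by
  have hL1 : ((Real.log Real.pi + 1 : ℝ) : ℂ) ∈ LB := LB_log (by
      rw [exp_log_add_one]; exact toC h1)
  have hL : ((Real.log Real.pi : ℝ) : ℂ) ∈ Lt := by
    have h4 : ((Real.log Real.pi + 1 : ℝ) : ℂ) ∈ Lt := Lt_log (by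
      rw [exp_log_add_one]; exact toC h1)
    have h5 := Lt.sub_mem h4 Lt_one
    have e : ((Real.log Real.pi + 1 : ℝ) : ℂ) - 1 = ((Real.log Real.pi : ℝ) : ℂ) := by
      push_cast; ring
    rwa [e] at h5
  have hEL : ((Real.exp 1 * Real.log Real.pi : ℝ) : ℂ) ∈ Lt := Lt_log (by
    rw [exp_e_log]; exact toC h2)
  have hPL : ((Real.pi * Real.log Real.pi : ℝ) : ℂ) ∈ Lt := Lt_log (by
    rw [exp_pi_log]; exact toC h3)
  have hPLB : ((Real.pi * Real.log Real.pi : ℝ) : ℂ) ∈ LB := LB_log (by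
    rw [exp_pi_log]; exact toC h3)
  have hPB : (Real.pi : ℂ) ∈ LB := by
    have h1 : (Real.pi * Complex.I : ℂ) ∈ LB := LB_log (by
      rw [Complex.exp_pi_mul_I]; exact isAlgebraic_one.neg)
    have h2 := LB_mul (isAlgebraic_I.neg) h1
    have e : -Complex.I * (Real.pi * Complex.I : ℂ) = Real.pi := by
      have : Complex.I * Complex.I = -1 := Complex.I_mul_I
      linear_combination (-(Real.pi : ℂ)) * this
    rwa [e] at h2
  refine strong_six ![1, ((Real.exp 1 : ℝ) : ℂ)]
    ![(Real.pi : ℂ), ((Real.log Real.pi : ℝ) : ℂ), ((Real.pi * Real.log Real.pi : ℝ) : ℂ)] ?_ ?_ ?_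
  · intro a b ha hb h
    exact one_e_indep a b ha hb h
  · intro c hc h
    rw [Fin.sum_univ_three] at h
    simp only [Matrix.cons_val_zero, Matrix.cons_val_one, Matrix.cons_val] at h
    have h5 : c 0 * (Real.pi : ℂ) + c 1 * ((Real.log Real.pi + 1 : ℝ) : ℂ) +
        c 2 * ((Real.pi * Real.log Real.pi : ℝ) : ℂ) = c 1 := by
      push_cast at h ⊢
      linear_combination h
    have h6 : c 1 ∈ LB := by
      rw [← h5]
      exact LB.add_mem (LB.add_mem (LB_mul (hc 0) hPB) (LB_mul (hc 1) hL1)) (LB_mul (hc 2) hPLB)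
    have h7 : c 1 = 0 := LB_alg h6 (hc 1)
    rw [h7] at h
    obtain ⟨-, h8, h9⟩ := pair_indep (a := 0) (mul_pos Real.pi_pos log_pi_pos).ne'
      (by rw [exp_pi_log]; exact toC h3) isAlgebraic_zero (hc 0) (hc 2) (by
        linear_combination h)
    intro j
    fin_cases j
    · exact h8
    · exact h7
    · exact h9
  · intro i j
    fin_cases i
    · fin_cases j
      · change (1 : ℂ) * (Real.pi : ℂ) ∈ Lt
        rw [one_mul]; exact Lt_pi
      · change (1 : ℂ) * ((Real.log Real.pi : ℝ) : ℂ) ∈ Lt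
        rw [one_mul]; exact hL
      · change (1 : ℂ) * ((Real.pi * Real.log Real.pi : ℝ) : ℂ) ∈ Lt
        rw [one_mul]; exact hPL
    · fin_cases j
      · change ((Real.exp 1 : ℝ) : ℂ) * (Real.pi : ℂ) ∈ Lt
        apply Lt_alg
        have := toC h1
        push_cast at this ⊢
        rwa [mul_comm]
      · change ((Real.exp 1 : ℝ) : ℂ) * ((Real.log Real.pi : ℝ) : ℂ) ∈ Lt
        rw [← Complex.ofReal_mul]
        exact hEL
      · change ((Real.exp 1 : ℝ) : ℂ) * ((Real.pi * Real.log Real.pi : ℝ) : ℂ) ∈ Lt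
        have h9 := Lt_mul (toC h1) hL
        have e : ((Real.exp 1 : ℝ) : ℂ) * ((Real.pi * Real.log Real.pi : ℝ) : ℂ) =
            ((Real.pi * Real.exp 1 : ℝ) : ℂ) * ((Real.log Real.pi : ℝ) : ℂ) := by
          push_cast; ring
        rwa [e]

/-- `π + e` and `e ^ e` are not both algebraic -/
theorem sum_ee (h1 : IsAlgebraic ℚ (Real.pi + Real.exp 1))
    (h2 : IsAlgebraic ℚ (Real.exp 1 ^ Real.exp 1)) : False := by
  have he : Real.exp 1 ^ Real.exp 1 = Real.exp (Real.exp 1) := by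
    rw [← Real.exp_one_rpow (Real.exp 1)]
  rw [he] at h2
  obtain ⟨-, h3, -⟩ := pair_indep (lam := Real.exp 1) (Real.exp_ne_zero 1)
    (by rw [← Complex.ofReal_exp]; exact toC h2) (a := -((Real.pi + Real.exp 1 : ℝ) : ℂ))
    (b := 1) (c := 1) (toC h1).neg isAlgebraic_one isAlgebraic_one (by push_cast; ring)
  exact one_ne_zero h3

end Pool.Agent.H364R2.PiE
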