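import Pool.Agent.H364R2.Ops

open MvPolynomial

namespace Pool.Agent.H364R2

variable {σ : Type} (add : σ → Bool) {l : ℕ} (W : Fin l → σ → ℂ)

/-- vanishing to order at least `m` along `P` in the directions `W` -/
def Vp (P : Ideal (MvPolynomial σ ℂ)) : ℕ → MvPolynomial σ ℂ → Prop
  | 0, _ => True
  | m + 1, g => g ∈ P ∧ ∀ k, Vp P m (der add (W k) g)

variable {P : Ideal (MvPolynomial σ ℂ)}

lemma Vp_zero (m : ℕ) : Vp add W P m 0 := by
  induction m with
  | zero => trivial
  | succ m ih =>
    refine ⟨P.zero_mem, fun k => ?_⟩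
    rw [map_zero]
    exact ih

lemma Vp_add {m : ℕ} {g h : MvPolynomial σ ℂ} (hg : Vp add W P m g) (hh : Vp add W P m h) :
    Vp add W P m (g + h) := by
  induction m generalizing g h with
  | zero => trivial
  | succ m ih =>
    refine ⟨P.add_mem hg.1 hh.1, fun k => ?_⟩
    rw [map_add]
    exact ih (hg.2 k) (hh.2 k)

lemma Vp_anti_succ {m : ℕ} {g : MvPolynomial σ ℂ} (hg : Vp add W P (m + 1) g) :
    Vp add W P m g := by
  induction m generalizing g with
  | zero => trivial
  | succ m ih =>
    exact ⟨hg.1, fun k => ih (hg.2 k)⟩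

lemma Vp_anti {m n : ℕ} (h : m ≤ n) {g : MvPolynomial σ ℂ} (hg : Vp add W P n g) :
    Vp add W P m g := by
  induction h with
  | refl => exact hg
  | step _ ih => exact ih (Vp_anti_succ add W hg)

lemma Vp_mul_aux (N : ℕ) : ∀ (m n : ℕ) (g h : MvPolynomial σ ℂ), m + n = N →
    Vp add W P m g → Vp add W P n h → Vp add W P N (g * h) := by
  induction N with
  | zero => intros; trivial
  | succ N ih =>
    intro m n g h hmn hg hh
    refine ⟨?_, fun k => ?_⟩
    · rcases m with _ | m
      · rcases n with _ | n
        · omega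
        · exact P.mul_mem_left _ hh.1
      · exact P.mul_mem_right _ hg.1
    · rw [Derivation.leibniz, smul_eq_mul, smul_eq_mul]
      apply Vp_add
      · rcases n with _ | n
        · obtain rfl : m = N + 1 := by omega
          exact ih N 0 _ _ (by omega) (Vp_anti_succ add W hg) trivial
        · exact ih m n _ _ (by omega) hg (hh.2 k)
      · rcases m with _ | m
        · obtain rfl : n = N + 1 := by omega
          exact ih N 0 _ _ (by omega) (Vp_anti_succ add W hh) trivial
        · exact ih n m _ _ (by omega) hh (hg.2 k)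

lemma Vp_mul {m n : ℕ} {g h : MvPolynomial σ ℂ} (hg : Vp add W P m g) (hh : Vp add W P n h) :
    Vp add W P (m + n) (g * h) := Vp_mul_aux add W (m + n) m n g h rfl hg hh

lemma Vp_mul_left {m : ℕ} (r : MvPolynomial σ ℂ) {g : MvPolynomial σ ℂ} (hg : Vp add W P m g) :
    Vp add W P m (r * g) := Vp_mul_aux add W m 0 m r g (by omega) trivial hg

/-- the ideal of polynomials vanishing to order at least `m` along `P` in the directions `W` -/
def V (P : Ideal (MvPolynomial σ ℂ)) (m : ℕ) : Ideal (MvPolynomial σ ℂ) where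
  carrier := {g | Vp add W P m g}
  zero_mem' := Vp_zero add W m
  add_mem' := fun hg hh => Vp_add add W hg hh
  smul_mem' := fun r _ hg => Vp_mul_left add W r hg

lemma mem_V {m : ℕ} {g : MvPolynomial σ ℂ} : g ∈ V add W P m ↔ Vp add W P m g := Iff.rfl

lemma V_one : V add W P 1 = P := by
  ext g
  rw [mem_V]
  exact ⟨fun h => h.1, fun h => ⟨h, fun _ => trivial⟩⟩

lemma V_succ_le (m : ℕ) : V add W P (m + 1) ≤ P := fun _ hg => hg.1

lemma mul_mem_V {m n : ℕ} {g h : MvPolynomial σ ℂ} (hg : g ∈ V add W P m)
    (hh : h ∈ V add W P n) : g * h ∈ V add W P (m + n) := Vp_mul add W hg hh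

lemma V_anti {m n : ℕ} (h : m ≤ n) : V add W P n ≤ V add W P m := fun _ hg => Vp_anti add W h hg

lemma der_mem_V {m : ℕ} {g : MvPolynomial σ ℂ} (hg : g ∈ V add W P (m + 1)) (k : Fin l) :
    der add (W k) g ∈ V add W P m := hg.2 k

lemma pow_le_V (m : ℕ) : P ^ m ≤ V add W P m := by
  induction m with
  | zero => intro g _; trivial
  | succ m ih =>
    rw [pow_succ]
    refine Ideal.mul_le.mpr fun g hg h hh => ?_
    refine mul_mem_V add W (ih hg) ?_
    rw [V_one]
    exact hh

lemma pow_mem_V {f : MvPolynomial σ ℂ} (hf : f ∈ P) (m : ℕ) : f ^ m ∈ V add W P m :=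
  pow_le_V add W m (Ideal.pow_mem_pow hf m)

lemma V_sat (hP : P.IsPrime) {m : ℕ} {g h : MvPolynomial σ ℂ} (hh : h ∉ P)
    (hg : h * g ∈ V add W P m) : g ∈ V add W P m := by
  induction m generalizing g with
  | zero => trivial
  | succ m ih =>
    have h1 : g ∈ V add W P m := ih (Vp_anti_succ add W hg)
    refine ⟨(hP.mem_or_mem hg.1).resolve_left hh, fun k => ?_⟩
    apply ih
    have h2 := der_mem_V add W hg k
    rw [Derivation.leibniz, smul_eq_mul, smul_eq_mul] at h2
    have h3 : g * der add (W k) h ∈ V add W P m := Ideal.mul_mem_right _ _ h1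
    exact (Submodule.add_mem_iff_left _ h3).mp h2

/-- criterion for membership through iterated derivatives -/
lemma mem_V_of_derIter (m : ℕ) : ∀ (g : MvPolynomial σ ℂ),
    (∀ ks : List (Fin l), ks.length ≤ m → derIter add W ks g ∈ P) → g ∈ V add W P (m + 1) := by
  induction m with
  | zero =>
    intro g hg
    rw [zero_add, V_one]
    exact hg [] le_rfl
  | succ m ih =>
    intro g hg
    refine ⟨hg [] (Nat.zero_le _), fun k => ?_⟩
    apply ih
    intro ks hks
    have := hg (ks ++ [k]) (by simpa using hks)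
    rw [derIter_append] at this
    exact this

/-- derivative of a product of powers of other elements -/
lemma der_prod_mem (k : Fin l) (f : Fin l → MvPolynomial σ ℂ) (hf : ∀ k, f k ∈ P)
    (hf2 : ∀ k', k ≠ k' → der add (W k) (f k') ∈ P) (a : Fin l → ℕ) (t : Finset (Fin l))
    (ht : k ∉ t) : ∏ j ∈ t, f j ^ a j ∈ V add W P (∑ j ∈ t, a j) ∧
      der add (W k) (∏ j ∈ t, f j ^ a j) ∈ V add W P (∑ j ∈ t, a j) := by
  classical
  induction t using Finset.induction_on with
  | empty => exact ⟨trivial, trivial⟩
  | insert j t hj ih =>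
    have hk : k ≠ j := fun h => ht (by simp [h])
    obtain ⟨ih1, ih2⟩ := ih (fun h => ht (Finset.mem_insert_of_mem h))
    rw [Finset.prod_insert hj, Finset.sum_insert hj]
    refine ⟨mul_mem_V add W (pow_mem_V add W (hf j) _) ih1, ?_⟩
    rw [Derivation.leibniz, smul_eq_mul, smul_eq_mul]
    apply Ideal.add_mem
    · exact mul_mem_V add W (pow_mem_V add W (hf j) _) ih2
    · rw [mul_comm]
      refine mul_mem_V add W ?_ ih1
      rcases Nat.eq_zero_or_pos (a j) with h0 | h0
      · rw [h0]; trivial
      · rw [Derivation.leibniz_pow]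
        have h1 : f j ^ (a j - 1) * der add (W k) (f j) ∈ V add W P (a j - 1 + 1) := by
          refine mul_mem_V add W (pow_mem_V add W (hf j) _) ?_
          rw [V_one]
          exact hf2 j hk
        rw [Nat.sub_add_cancel h0] at h1
        rw [smul_eq_mul, nsmul_eq_mul]
        exact Ideal.mul_mem_left _ _ h1

variable (P) in
/-- key lemma for the linear independence -/
lemma key_indep (hP : P.IsPrime) (f : Fin l → MvPolynomial σ ℂ) (hf : ∀ k, f k ∈ P)
    (hf1 : ∀ k, der add (W k) (f k) ∉ P)
    (hf2 : ∀ k k', k ≠ k' → der add (W k) (f k') ∈ P) (m : ℕ) :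
    ∀ (s : Finset (Fin l → ℕ)) (c : (Fin l → ℕ) → MvPolynomial σ ℂ), (∀ a ∈ s, ∑ j, a j = m) →
      ∑ a ∈ s, c a * ∏ j, f j ^ a j ∈ V add W P (m + 1) → ∀ a ∈ s, c a ∈ P := by
  classical
  induction m with
  | zero =>
    intro s c hs hsum a ha
    have h0 : ∀ b ∈ s, b = 0 := by
      intro b hb
      have := hs b hb
      rw [Finset.sum_eq_zero_iff] at this
      funext j
      exact this j (Finset.mem_univ j)
    have h1 : s = {a} := by
      ext b
      rw [Finset.mem_singleton]
      constructor
      · intro hb; rw [h0 b hb, h0 a ha]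
      · rintro rfl; exact ha
    rw [h1, Finset.sum_singleton, h0 a ha] at hsum
    have h2 := V_succ_le add W 0 hsum
    simpa [h0 a ha] using h2
  | succ m ih =>
    intro s c hs hsum a ha
    -- choose k with a k ≥ 1
    obtain ⟨k, hk⟩ : ∃ k, a k ≠ 0 := by
      by_contra hcon
      push Not at hcon
      have := hs a ha
      rw [Finset.sum_eq_zero (fun j _ => hcon j)] at this
      omega
    -- products
    have hprodV : ∀ b : Fin l → ℕ, ∏ j, f j ^ b j ∈ V add W P (∑ j, b j) := by
      intro b
      have : ∀ t : Finset (Fin l), ∏ j ∈ t, f j ^ b j ∈ V add W P (∑ j ∈ t, b j) := by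
        intro t
        induction t using Finset.induction_on with
        | empty => simp; trivial
        | insert j t hj ih =>
          rw [Finset.prod_insert hj, Finset.sum_insert hj]
          exact mul_mem_V add W (pow_mem_V add W (hf j) _) ih
      exact this Finset.univ
    let dn : (Fin l → ℕ) → (Fin l → ℕ) := fun b => Function.update b k (b k - 1)
    have hder : ∀ b : Fin l → ℕ, der add (W k) (∏ j, f j ^ b j) -
        (b k : MvPolynomial σ ℂ) * (der add (W k) (f k)) * ∏ j, f j ^ (dn b) j ∈
          V add W P (∑ j, b j) := by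
      intro b
      obtain ⟨-, h2⟩ := der_prod_mem add W k f hf (hf2 k) b (Finset.univ.erase k) (by simp)
      have h3 : ∏ j, f j ^ b j = f k ^ b k * ∏ j ∈ Finset.univ.erase k, f j ^ b j :=
        (Finset.mul_prod_erase Finset.univ (fun j => f j ^ b j) (Finset.mem_univ k)).symm
      have h4 : ∏ j, f j ^ (dn b) j = f k ^ (b k - 1) * ∏ j ∈ Finset.univ.erase k, f j ^ b j := by
        rw [← Finset.mul_prod_erase Finset.univ (fun j => f j ^ (dn b) j) (Finset.mem_univ k)]
        congr 1
        · simp [dn]
        · apply Finset.prod_congr rfl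
          intro j hj
          have : j ≠ k := by simpa using hj
          simp [dn, this]
      have h5 : ∑ j, b j = b k + ∑ j ∈ Finset.univ.erase k, b j :=
        (Finset.add_sum_erase Finset.univ b (Finset.mem_univ k)).symm
      rw [h3, h4, h5, Derivation.leibniz, Derivation.leibniz_pow, smul_eq_mul, smul_eq_mul,
        smul_eq_mul, nsmul_eq_mul]
      have h6 : f k ^ b k * der add (W k) (∏ j ∈ Finset.univ.erase k, f j ^ b j) +
          (∏ j ∈ Finset.univ.erase k, f j ^ b j) *
            ((b k : MvPolynomial σ ℂ) * (f k ^ (b k - 1) * der add (W k) (f k))) -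
          (b k : MvPolynomial σ ℂ) * der add (W k) (f k) *
            (f k ^ (b k - 1) * ∏ j ∈ Finset.univ.erase k, f j ^ b j) =
          f k ^ b k * der add (W k) (∏ j ∈ Finset.univ.erase k, f j ^ b j) := by ring
      rw [h6]
      exact mul_mem_V add W (pow_mem_V add W (hf k) _) h2
    -- the derivative of the sum
    have h1 := der_mem_V add W hsum k
    rw [map_sum] at h1
    have h2 : ∑ b ∈ s, (c b * (b k : MvPolynomial σ ℂ) * der add (W k) (f k)) *
        ∏ j, f j ^ (dn b) j ∈ V add W P (m + 1) := by
      have h3 : ∑ b ∈ s, (der add (W k) (c b * ∏ j, f j ^ b j) -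
          (c b * (b k : MvPolynomial σ ℂ) * der add (W k) (f k)) * ∏ j, f j ^ (dn b) j) ∈
          V add W P (m + 1) := by
        apply Ideal.sum_mem
        intro b hb
        rw [Derivation.leibniz, smul_eq_mul, smul_eq_mul]
        have h4 : c b * der add (W k) (∏ j, f j ^ b j) +
            (∏ j, f j ^ b j) * der add (W k) (c b) -
            c b * (b k : MvPolynomial σ ℂ) * der add (W k) (f k) * ∏ j, f j ^ (dn b) j =
            c b * (der add (W k) (∏ j, f j ^ b j) -
              (b k : MvPolynomial σ ℂ) * (der add (W k) (f k)) * ∏ j, f j ^ (dn b) j) +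
            (der add (W k) (c b)) * (∏ j, f j ^ b j) := by ring
        rw [h4]
        have h5 := hder b
        have h6 := hprodV b
        rw [hs b hb] at h5 h6
        exact Ideal.add_mem _ (Ideal.mul_mem_left _ _ h5) (Ideal.mul_mem_left _ _ h6)
      rw [Finset.sum_sub_distrib] at h3
      have h7 := Ideal.sub_mem _ h1 h3
      simpa using h7
    -- restrict to b with b k ≠ 0
    let s' := s.filter (fun b => b k ≠ 0)
    let up : (Fin l → ℕ) → (Fin l → ℕ) := fun b => Function.update b k (b k + 1)
    have hup : ∀ b ∈ s', up (dn b) = b := by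
      intro b hb
      have hb' : b k ≠ 0 := (Finset.mem_filter.mp hb).2
      funext j
      by_cases hj : j = k
      · subst hj
        simp only [up, dn, Function.update_self]
        omega
      · simp [up, dn, hj]
    have hinj : Set.InjOn dn s' := by
      intro b hb b' hb' h
      rw [← hup b hb, ← hup b' hb', h]
    have h3 : ∑ b ∈ s'.image dn, (c (up b) * ((b k + 1 : ℕ) : MvPolynomial σ ℂ) *
        der add (W k) (f k)) * ∏ j, f j ^ b j ∈ V add W P (m + 1) := by
      rw [Finset.sum_image hinj]
      convert h2 using 1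
      rw [← Finset.sum_filter_add_sum_filter_not s (fun b => b k ≠ 0)]
      rw [Finset.sum_eq_zero (s := s.filter (fun b => ¬ b k ≠ 0)), add_zero]
      · apply Finset.sum_congr rfl
        intro b hb
        have hb' : b k ≠ 0 := (Finset.mem_filter.mp hb).2
        rw [hup b hb]
        have : dn b k + 1 = b k := by
          simp only [dn, Function.update_self]
          omega
        rw [this]
      · intro b hb
        have hb' : b k = 0 := by
          have := (Finset.mem_filter.mp hb).2
          push Not at this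
          exact this
        rw [hb']
        simp
    have h4 := ih (s'.image dn) _ (by
      intro b hb
      rw [Finset.mem_image] at hb
      obtain ⟨b', hb', rfl⟩ := hb
      have h5 := hs b' (Finset.mem_filter.mp hb').1
      have h6 : b' k ≠ 0 := (Finset.mem_filter.mp hb').2
      rw [← Finset.add_sum_erase Finset.univ _ (Finset.mem_univ k)] at h5 ⊢
      have h7 : ∑ x ∈ Finset.univ.erase k, dn b' x = ∑ x ∈ Finset.univ.erase k, b' x := by
        apply Finset.sum_congr rfl
        intro j hj
        have : j ≠ k := by simpa using hj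
        simp [dn, this]
      rw [h7]
      have h8 : dn b' k = b' k - 1 := by simp [dn]
      rw [h8]
      omega) h3 (dn a) (Finset.mem_image_of_mem dn (Finset.mem_filter.mpr ⟨ha, hk⟩))
    have ha' : a ∈ s' := Finset.mem_filter.mpr ⟨ha, hk⟩
    rw [hup a ha'] at h4
    have h5 := (hP.mem_or_mem h4).resolve_right (hf1 k)
    refine (hP.mem_or_mem h5).resolve_right ?_
    intro h6
    have h7 : (C ((dn a k + 1 : ℕ) : ℂ)⁻¹ : MvPolynomial σ ℂ) *
      ((dn a k + 1 : ℕ) : MvPolynomial σ ℂ) ∈ P := P.mul_mem_left _ h6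
    rw [← map_natCast (C : ℂ →+* MvPolynomial σ ℂ), ← C_mul, inv_mul_cancel₀, C_1] at h7
    · exact hP.ne_top ((Ideal.eq_top_iff_one P).mpr h7)
    · exact Nat.cast_ne_zero.mpr (Nat.succ_ne_zero (dn a k))

variable (P) in
theorem V_indep (hP : P.IsPrime) (f : Fin l → MvPolynomial σ ℂ) (hf : ∀ k, f k ∈ P)
    (hf1 : ∀ k, der add (W k) (f k) ∉ P)
    (hf2 : ∀ k k', k ≠ k' → der add (W k) (f k') ∈ P) {B : Set σ} (hB : Indep P B) (T : ℕ)
    (s : Finset (Fin l → ℕ)) (c : (Fin l → ℕ) → MvPolynomial σ ℂ)
    (hc : ∀ a ∈ s, c a ∈ supported ℂ B) (hs : ∀ a ∈ s, ∑ j, a j ≤ T)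
    (hsum : ∑ a ∈ s, c a * ∏ j, f j ^ a j ∈ V add W P (T + 1)) : ∀ a ∈ s, c a = 0 := by
  classical
  have main : ∀ m, ∀ a ∈ s, ∑ j, a j = m → c a = 0 := by
    intro m
    induction m using Nat.strong_induction_on with
    | _ m ih =>
      intro a ha ham
      have hmT : m ≤ T := ham ▸ hs a ha
      have hprodV : ∀ b : Fin l → ℕ, ∏ j, f j ^ b j ∈ V add W P (∑ j, b j) := by
        intro b
        have : ∀ t : Finset (Fin l), ∏ j ∈ t, f j ^ b j ∈ V add W P (∑ j ∈ t, b j) := by
          intro t
          induction t using Finset.induction_on with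
          | empty => simp; trivial
          | insert j t hj ih =>
            rw [Finset.prod_insert hj, Finset.sum_insert hj]
            exact mul_mem_V add W (pow_mem_V add W (hf j) _) ih
        exact this Finset.univ
      apply hB _ (hc a ha)
      refine key_indep add W P hP f hf hf1 hf2 m (s.filter (fun b => ∑ j, b j = m)) c
        (fun b hb => (Finset.mem_filter.mp hb).2) ?_ a (Finset.mem_filter.mpr ⟨ha, ham⟩)
      have h1 : ∑ a ∈ s, c a * ∏ j, f j ^ a j ∈ V add W P (m + 1) :=
        V_anti add W (by omega) hsum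
      rw [← Finset.sum_filter_add_sum_filter_not s (fun b => ∑ j, b j = m)] at h1
      refine (Submodule.add_mem_iff_left _ ?_).mp h1
      apply Ideal.sum_mem
      intro b hb
      rw [Finset.mem_filter] at hb
      rcases Nat.lt_or_ge (∑ j, b j) m with h2 | h2
      · rw [ih _ h2 b hb.1 rfl, zero_mul]
        exact Submodule.zero_mem _
      · apply Ideal.mul_mem_left
        exact V_anti add W (by have := hb.2; omega) (hprodV b)
  intro a ha
  exact main _ a ha rfl

end Pool.Agent.H364R2
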